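import Pool.Agent.T9h27.C.Expm
import Pool.Agent.T9h27.D.Den

/-!
# The number of zeros in a disc about a point of the critical line (helper27)
-/

set_option autoImplicit false
set_option linter.unusedSectionVars false

open MeasureTheory Complex Filter Topology Set

namespace Pool.Agent.T9h27.C

open Pool.Agent.T9h27.D (finite_of_card ord_pos)
open Pool.Agent.R399.TW (pt pt_re pt_im pt_cont)

/-- the zeros in the disc `|z - 1/2 - it| ≤ r` -/
def zd (F : ℂ → ℂ) (t r : ℝ) : Set ℂ := {z : ℂ | F z = 0 ∧ ‖z - (1 / 2 + t * Complex.I)‖ ≤ r}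

/-- their number, with multiplicity -/
noncomputable def nd (F : ℂ → ℂ) (t r : ℝ) : ℕ := ∑ᶠ z ∈ zd F t r, analyticOrderNatAt F z

lemma pt_half (t : ℝ) : pt (1 / 2) t = 1 / 2 + t * Complex.I := by
  unfold pt
  push_cast
  rfl

/-- the order at the centre -/
lemma nd_zero {F : ℂ → ℂ} (t : ℝ) (hF : Differentiable ℂ F) :
    nd F t 0 = analyticOrderNatAt F (1 / 2 + t * Complex.I) := by
  unfold nd
  by_cases h : F (1 / 2 + t * Complex.I) = 0
  · have e1 : zd F t 0 = {1 / 2 + t * Complex.I} := by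
      ext z
      unfold zd
      rw [mem_setOf_eq, mem_singleton_iff, norm_le_zero_iff, sub_eq_zero]
      constructor
      · exact fun h' => h'.2
      · rintro rfl
        exact ⟨h, rfl⟩
    rw [e1, finsum_mem_singleton]
  · have e1 : zd F t 0 = ∅ := by
      ext z
      unfold zd
      rw [mem_setOf_eq, norm_le_zero_iff, sub_eq_zero]
      constructor
      · rintro ⟨h1, rfl⟩
        exact h h1
      · exact fun h' => absurd h' (notMem_empty _)
    rw [e1, finsum_mem_empty, Pool.Agent.T9h27.D.ord_zero hF h]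

/-- from the finite sets to the number of zeros -/
theorem exp_nd {ι : Type} (S : Finset ι) (F : ι → ℂ → ℂ) {c t r B : ℝ} (hc : 0 < c)
    (hd : ∀ i ∈ S, Differentiable ℂ (F i)) (hne : ∀ i ∈ S, F i 2 ≠ 0)
    (hB : ∀ Z : ι → Finset ℂ, (∀ i ∈ S, ∀ z ∈ Z i, ‖z - pt (1 / 2) t‖ ≤ r) →
      ∑ i ∈ S, Real.exp (c * ∑ z ∈ Z i, (analyticOrderNatAt (F i) z : ℝ)) ≤ B) :
    (∀ i ∈ S, (zd (F i) t r).Finite) ∧ ∑ i ∈ S, Real.exp (c * (nd (F i) t r : ℝ)) ≤ B := by
  classical
  have hfz : ∀ i ∈ S, (zd (F i) t r).Finite := by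
    intro i hl
    refine finite_of_card (B := B / c) fun Z hZ => ?_
    have h1 := hB (fun j => if j = i then Z else ∅) (fun j hj z hz => by
      by_cases hji : j = i
      · subst hji
        rw [if_pos rfl] at hz
        rw [pt_half]
        exact (hZ z hz).2
      · rw [if_neg hji] at hz
        exact absurd hz (Finset.notMem_empty _))
    have h2 := Finset.single_le_sum (f := fun j => Real.exp (c * ∑ z ∈ (if j = i then Z else ∅),
      (analyticOrderNatAt (F j) z : ℝ))) (fun j _ => (Real.exp_pos _).le) hl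
    simp only [if_true] at h2
    have h3 : (Z.card : ℝ) ≤ ∑ z ∈ Z, (analyticOrderNatAt (F i) z : ℝ) := by
      have h2 : ((Z.card : ℕ) : ℝ) = ∑ _z ∈ Z, (1 : ℝ) := by simp
      rw [h2]
      refine Finset.sum_le_sum fun z hz => ?_
      have := ord_pos (hd i hl) (hne i hl) (hZ z hz).1
      exact_mod_cast this
    have h4 := Real.add_one_le_exp (c * ∑ z ∈ Z, (analyticOrderNatAt (F i) z : ℝ))
    have h5 := mul_le_mul_of_nonneg_left h3 hc.le
    rw [le_div_iff₀ hc]
    linarith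
  refine ⟨hfz, ?_⟩
  have hval : ∀ i ∈ S, Real.exp (c * (nd (F i) t r : ℝ)) = Real.exp (c *
      ∑ z ∈ (if hl : i ∈ S then (hfz i hl).toFinset else ∅),
        (analyticOrderNatAt (F i) z : ℝ)) := by
    intro i hl
    rw [dif_pos hl]
    unfold nd
    rw [finsum_mem_eq_finite_toFinset_sum _ (hfz i hl)]
    push_cast
    rfl
  rw [Finset.sum_congr rfl hval]
  refine hB _ fun i hl z hz => ?_
  rw [dif_pos hl, Set.Finite.mem_toFinset] at hz
  rw [pt_half]
  exact hz.2

open Classical in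
/-- the frequency of the orders -/
lemma freq_of_exp {ι : Type} (S : Finset ι) (X : ι → ℕ) {c B : ℝ} (hc : 0 < c)
    (h : ∑ i ∈ S, Real.exp (c * (X i : ℝ)) ≤ B) (k : ℕ) :
    ((S.filter fun i => k ≤ X i).card : ℝ) ≤ B * Real.exp (-(c * k)) := by
  have h1 : ((S.filter fun i => k ≤ X i).card : ℝ) * Real.exp (c * k) ≤ B := by
    rw [← nsmul_eq_mul, ← Finset.sum_const]
    refine le_trans ?_ h
    refine (Finset.sum_le_sum fun i hi => ?_).trans
      (Finset.sum_le_sum_of_subset_of_nonneg (Finset.filter_subset _ _)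
        fun i _ _ => (Real.exp_pos (c * (X i : ℝ))).le)
    refine Real.exp_le_exp.mpr (mul_le_mul_of_nonneg_left ?_ hc.le)
    exact_mod_cast (Finset.mem_filter.mp hi).2
  rw [Real.exp_neg, ← div_eq_mul_inv, le_div_iff₀ (Real.exp_pos _)]
  exact h1

/-- the average -/
lemma avg_of_exp {ι : Type} (S : Finset ι) (X : ι → ℕ) {c P C y : ℝ} (hc : 0 < c) (hC : 0 ≤ C)
    (hy : 0 ≤ y) (hP : (S.card : ℝ) ≤ P)
    (h : ∑ i ∈ S, Real.exp (c * (X i : ℝ)) ≤ P * C * Real.exp (C * y)) :
    ∑ i ∈ S, (X i : ℝ) ≤ C / c * P * (1 + y) := by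
  have hP0 : 0 ≤ P := le_trans (Nat.cast_nonneg _) hP
  have h1 : ∀ i ∈ S, c * (X i : ℝ) ≤ Real.exp (-(C * y)) * Real.exp (c * (X i : ℝ)) + C * y := by
    intro i _
    rw [← Real.exp_add]
    have := Real.add_one_le_exp (-(C * y) + c * (X i : ℝ))
    linarith
  have h2 := Finset.sum_le_sum h1
  rw [← Finset.mul_sum, Finset.sum_add_distrib, ← Finset.mul_sum, Finset.sum_const,
    nsmul_eq_mul] at h2
  have h3 : Real.exp (-(C * y)) * ∑ i ∈ S, Real.exp (c * (X i : ℝ)) ≤ P * C := by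
    refine (mul_le_mul_of_nonneg_left h (Real.exp_pos _).le).trans (le_of_eq ?_)
    have : Real.exp (-(C * y)) * Real.exp (C * y) = 1 := by
      rw [← Real.exp_add, neg_add_cancel, Real.exp_zero]
    linear_combination (P * C) * this
  have h4 : (S.card : ℝ) * (C * y) ≤ P * (C * y) := mul_le_mul_of_nonneg_right hP (by positivity)
  have h5 : c * ∑ i ∈ S, (X i : ℝ) ≤ C * P * (1 + y) := by linarith
  rw [div_mul_eq_mul_div, div_mul_eq_mul_div, le_div_iff₀ hc]
  linarith

end Pool.Agent.T9h27.C
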