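import Pool.Agent.T9h27.D.Asm
import Pool.Agent.N786.D.Jen2

/-!
# The number of zeros in a disc, with a small exceptional set (helper27)
-/

set_option autoImplicit false
set_option linter.unusedSectionVars false

open MeasureTheory Complex Filter Topology Set Metric

namespace Pool.Agent.T9h27.C

open Pool.Agent.N786.D
open Pool.Agent.R399.TW (pt pt_re pt_im pt_cont)

/-- the order of a product -/
lemma ord_mul_le {F M : ℂ → ℂ} (hF : Differentiable ℂ F) (hM : Differentiable ℂ M) {c : ℂ}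
    (hc : F c * M c ≠ 0) (z : ℂ) :
    analyticOrderNatAt F z ≤ analyticOrderNatAt (fun s => F s * M s) z := by
  have hg : Differentiable ℂ fun s => F s * M s := hF.mul hM
  have h4 : analyticOrderAt (fun s => F s * M s) c ≠ ⊤ := by
    rw [(hg.analyticAt c).analyticOrderAt_eq_zero.mpr hc]
    exact ENat.zero_ne_top
  have hA : AnalyticOnNhd ℂ (fun s => F s * M s) univ := fun z _ => hg.analyticAt z
  have h5 : analyticOrderAt (fun s => F s * M s) z ≠ ⊤ :=
    hA.analyticOrderAt_ne_top_of_isPreconnected isPreconnected_univ (mem_univ c) (mem_univ z) h4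
  unfold analyticOrderNatAt
  refine ENat.toNat_le_toNat ?_ h5
  have e1 : (fun s => F s * M s) = F * M := rfl
  rw [e1, analyticOrderAt_mul (hF.analyticAt z) (hM.analyticAt z)]
  exact le_self_add

/-- **one disc** -/
lemma disc_log {F M : ℂ → ℂ} (hF : Differentiable ℂ F) (hM : Differentiable ℂ M) {c : ℂ}
    {ρ lam : ℝ} (hρ : 0 < ρ) (hlam : 1 ≤ lam) (hc : ‖F c * M c - 1‖ ≤ 1 / 2) (Z : Finset ℂ)
    (hZ : ∀ z ∈ Z, ‖c - z‖ ≤ 7 / 8 * ρ) :
    (∑ z ∈ Z, (analyticOrderNatAt F z : ℝ)) * (1 / 8) ≤ lam / 2 + 1 +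
      Real.exp (-lam) * Real.circleAverage (fun z => ‖F z * M z - 1‖ ^ 2) c ρ := by
  have hg : Differentiable ℂ fun s => F s * M s := hF.mul hM
  have hcn : 1 / 2 ≤ ‖F c * M c‖ := by
    have h1 : (1 : ℂ) = F c * M c - (F c * M c - 1) := by ring
    have h2 := norm_sub_le (F c * M c) (F c * M c - 1)
    rw [← h1, norm_one] at h2
    linarith
  have hc0 : F c * M c ≠ 0 := by
    intro h
    rw [h, norm_zero] at hcn
    norm_num at hcn
  have h1 := jensen_fin hg hρ (c := c) hc0 (Z := Z) (fun z hz => (hZ z hz).trans (by linarith))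
  have h2 : ∑ z ∈ Z, (analyticOrderNatAt F z : ℝ) * (1 / 8) ≤
      ∑ z ∈ Z, (analyticOrderNatAt (fun s => F s * M s) z : ℝ) * Real.log (ρ * ‖c - z‖⁻¹) := by
    refine Finset.sum_le_sum fun z hz => ?_
    have h3 : (analyticOrderNatAt F z : ℝ) ≤ analyticOrderNatAt (fun s => F s * M s) z := by
      exact_mod_cast ord_mul_le hF hM hc0 z
    by_cases hcz : c = z
    · have h4 : analyticOrderNatAt (fun s => F s * M s) z = 0 := by
        unfold analyticOrderNatAt
        rw [← hcz, (hg.analyticAt c).analyticOrderAt_eq_zero.mpr hc0]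
        rfl
      rw [h4] at h3 ⊢
      rw [Nat.cast_zero] at h3 ⊢
      have h5 : (0 : ℝ) ≤ analyticOrderNatAt F z := Nat.cast_nonneg _
      have h6 : (analyticOrderNatAt F z : ℝ) = 0 := le_antisymm h3 h5
      rw [h6]
      simp
    · have hd : 0 < ‖c - z‖ := norm_pos_iff.mpr (sub_ne_zero.mpr hcz)
      have h4 : (1 / 8 : ℝ) ≤ Real.log (ρ * ‖c - z‖⁻¹) := by
        have h5 : 8 / 7 ≤ ρ * ‖c - z‖⁻¹ := by
          rw [← div_eq_mul_inv, le_div_iff₀ hd]
          have := hZ z hz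
          linarith
        have h6 := Real.one_sub_inv_le_log_of_pos (x := 8 / 7) (by norm_num)
        have h7 := Real.log_le_log (by norm_num) h5
        norm_num at h6
        linarith
      have h5 : (0 : ℝ) ≤ analyticOrderNatAt F z := Nat.cast_nonneg _
      exact mul_le_mul h3 h4 (by norm_num) (h5.trans h3)
  have h3 : -Real.log ‖F c * M c‖ ≤ 1 := by
    have h4 := Real.log_le_log (by norm_num) hcn
    have h5 : Real.log (1 / 2 : ℝ) = -Real.log 2 := by rw [one_div, Real.log_inv]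
    have h6 := Real.log_two_lt_d9
    rw [h5] at h4
    linarith
  have hcf : Continuous fun z => ‖F z * M z - 1‖ ^ 2 :=
    ((hg.continuous.sub continuous_const).norm).pow 2
  have h4 : Real.circleAverage (fun z => Real.log ‖F z * M z‖) c ρ ≤
      Real.circleAverage (fun z => lam / 2 + Real.exp (-lam) * ‖F z * M z - 1‖ ^ 2) c ρ := by
    refine Real.circleAverage_mono ?_ ?_ ?_
    · have hm : MeromorphicOn (fun s => F s * M s) (sphere c |ρ|) :=
        fun z _ => (hg.analyticAt z).meromorphicAt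
      exact hm.circleIntegrable_log_norm
    · exact (continuous_const.add (continuous_const.mul hcf)).continuousOn.circleIntegrable'
    · intro z _
      obtain ⟨y, hy⟩ : ∃ y : ℝ, y = ‖F z * M z - 1‖ ^ 2 := ⟨_, rfl⟩
      have hy0 : 0 ≤ y := by rw [hy]; positivity
      have he := Real.exp_pos (-lam)
      rw [← hy]
      rcases eq_or_ne (F z * M z) 0 with h0 | h0
      · rw [h0, norm_zero, Real.log_zero]
        positivity
      · have hn : 0 < ‖F z * M z‖ := norm_pos_iff.mpr h0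
        have g1 : ‖F z * M z‖ ^ 2 ≤ 2 + 2 * y := by
          have h1 : F z * M z = (F z * M z - 1) + 1 := by ring
          have h2 := norm_add_le (F z * M z - 1) 1
          rw [← h1, norm_one] at h2
          have h3 := pow_le_pow_left₀ (norm_nonneg _) h2 2
          rw [hy]
          nlinarith [sq_nonneg (‖F z * M z - 1‖ - 1)]
        have g2 := Real.log_le_sub_one_of_pos (x := ‖F z * M z‖ ^ 2 * Real.exp (-lam))
          (by positivity)
        rw [Real.log_mul (by positivity) he.ne', Real.log_exp, Real.log_pow] at g2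
        push_cast at g2
        have g3 : Real.exp (-lam) ≤ 1 / 2 := by
          have h1 : Real.exp (-lam) ≤ Real.exp (-1) := Real.exp_le_exp.mpr (by linarith)
          have h2 := Real.exp_neg_one_lt_d9
          linarith
        have g4 : ‖F z * M z‖ ^ 2 * Real.exp (-lam) ≤ (2 + 2 * y) * Real.exp (-lam) :=
          mul_le_mul_of_nonneg_right g1 he.le
        nlinarith
  have h5 : Real.circleAverage (fun z => lam / 2 + Real.exp (-lam) * ‖F z * M z - 1‖ ^ 2) c ρ =
      lam / 2 + Real.exp (-lam) * Real.circleAverage (fun z => ‖F z * M z - 1‖ ^ 2) c ρ := by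
    have e1 : (fun z => lam / 2 + Real.exp (-lam) * ‖F z * M z - 1‖ ^ 2) =
        (fun _ => lam / 2) + fun z => Real.exp (-lam) • (‖F z * M z - 1‖ ^ 2) := by
      funext z
      simp only [Pi.add_apply, smul_eq_mul]
    have i1 : CircleIntegrable (fun _ : ℂ => lam / 2) c ρ :=
      continuous_const.continuousOn.circleIntegrable'
    have i2 : CircleIntegrable (fun z => Real.exp (-lam) • (‖F z * M z - 1‖ ^ 2)) c ρ :=
      (continuous_const.mul hcf).continuousOn.circleIntegrable'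
    rw [e1, Real.circleAverage_add i1 i2, Real.circleAverage_const,
      Real.circleAverage_fun_smul, smul_eq_mul]
  rw [Finset.sum_mul]
  linarith

lemma circleMap_pt' (x t ρ φ : ℝ) :
    circleMap (pt x t) ρ φ = pt (x + ρ * Real.cos φ) (t + ρ * Real.sin φ) := by
  apply Complex.ext
  · rw [pt_re, circleMap, Complex.add_re, pt_re, Complex.re_ofReal_mul,
      Complex.exp_ofReal_mul_I_re]
  · rw [pt_im, circleMap, Complex.add_im, pt_im, Complex.im_ofReal_mul,
      Complex.exp_ofReal_mul_I_im]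

open Classical in
/-- **the functions with many zeros in a disc** -/
theorem tail_core {ι : Type} {S : Finset ι} {F M : ι → ℂ → ℂ} (hF : ∀ i, Differentiable ℂ (F i))
    (hM : ∀ i, Differentiable ℂ (M i)) {x₁ ρ lam H t V₁ V₂ : ℝ} (hH : 0 ≤ H) (hρ : 0 < ρ)
    (hlam : 1 ≤ lam) (hV1 : 0 ≤ V₁) (hV2 : 0 ≤ V₂)
    (h1 : QQ S (fun i s => F i s * M i s - 1) x₁ H t ≤ ENNReal.ofReal V₁)
    (h2 : ∀ φ : ℝ, QQ S (fun i s => F i s * M i s - 1) (x₁ + ρ * Real.cos φ) H
      (t + ρ * Real.sin φ) ≤ ENNReal.ofReal V₂)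
    (Z : ι → Finset ℂ)
    (hZ : ∀ i ∈ S, ∀ z ∈ Z i, ∀ t' ∈ Icc t (t + H), ‖pt x₁ t' - z‖ ≤ 7 / 8 * ρ) :
    ((S.filter fun i => 4 * lam + 16 < ∑ z ∈ Z i, (analyticOrderNatAt (F i) z : ℝ)).card : ℝ) * H ≤
      4 * V₁ + Real.exp (-lam) * V₂ := by
  obtain ⟨E, hE⟩ : ∃ E : Finset ι, E = S.filter fun i =>
    4 * lam + 16 < ∑ z ∈ Z i, (analyticOrderNatAt (F i) z : ℝ) := ⟨_, rfl⟩
  rw [← hE]
  obtain ⟨f, hf⟩ : ∃ f : ι → ℂ → ℂ, f = fun i s => F i s * M i s - 1 := ⟨_, rfl⟩
  have hfi : ∀ i s, f i s = F i s * M i s - 1 := fun i s => by rw [hf]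
  rw [← hf] at h1 h2
  have hfd : ∀ i, Differentiable ℂ (f i) := fun i => by
    rw [hf]
    exact ((hF i).mul (hM i)).sub (differentiable_const _)
  have hfc : ∀ i, Continuous fun q : ℝ × ℝ => ‖f i (pt q.1 q.2)‖ := by
    intro i
    refine ((hfd i).continuous.comp ?_).norm
    unfold pt
    fun_prop
  have he := Real.exp_pos (-lam)
  -- pointwise
  have hpt : ∀ i ∈ E, ∀ t' ∈ Icc t (t + H), (1 : ENNReal) ≤
      ENNReal.ofReal 4 * ENNReal.ofReal (‖f i (pt x₁ t')‖ ^ 2) +
      ENNReal.ofReal (Real.exp (-lam) * (2 * Real.pi)⁻¹) * (∫⁻ φ in Ioc 0 (2 * Real.pi),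
        ENNReal.ofReal (‖f i (pt (x₁ + ρ * Real.cos φ) (t' + ρ * Real.sin φ))‖ ^ 2)) := by
    intro i hi t' ht'
    rw [hE] at hi
    obtain ⟨hiS, hiN⟩ := Finset.mem_filter.mp hi
    have hcont : Continuous fun φ : ℝ =>
        ‖f i (pt (x₁ + ρ * Real.cos φ) (t' + ρ * Real.sin φ))‖ ^ 2 :=
      ((hfc i).comp (by fun_prop : Continuous fun φ : ℝ =>
        ((x₁ + ρ * Real.cos φ, t' + ρ * Real.sin φ) : ℝ × ℝ))).pow 2
    obtain ⟨J, hJ⟩ : ∃ J : ℝ, J = ∫ φ in Ioc 0 (2 * Real.pi),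
      ‖f i (pt (x₁ + ρ * Real.cos φ) (t' + ρ * Real.sin φ))‖ ^ 2 := ⟨_, rfl⟩
    have hJ0 : 0 ≤ J := by rw [hJ]; exact integral_nonneg fun φ => by positivity
    have hJe : (∫⁻ φ in Ioc 0 (2 * Real.pi), ENNReal.ofReal
        (‖f i (pt (x₁ + ρ * Real.cos φ) (t' + ρ * Real.sin φ))‖ ^ 2)) = ENNReal.ofReal J := by
      rw [hJ, ofReal_integral_eq_lintegral_ofReal ?_ (Eventually.of_forall fun φ => by positivity)]
      exact (hcont.integrableOn_Icc (a := 0) (b := 2 * Real.pi)).mono_set Ioc_subset_Icc_self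
    have hCA : Real.circleAverage (fun z => ‖F i z * M i z - 1‖ ^ 2) (pt x₁ t') ρ =
        (2 * Real.pi)⁻¹ * J := by
      rw [Real.circleAverage_def, smul_eq_mul, intervalIntegral.integral_of_le (by positivity),
        hJ]
      congr 1
      refine integral_congr_ae (Eventually.of_forall fun φ => ?_)
      simp only [circleMap_pt', hfi]
    rw [hJe, ← ENNReal.ofReal_mul (by norm_num), ← ENNReal.ofReal_mul (by positivity),
      ← ENNReal.ofReal_add (by positivity) (by positivity), ← ENNReal.ofReal_one]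
    refine ENNReal.ofReal_le_ofReal ?_
    rcases le_or_gt ‖f i (pt x₁ t')‖ (1 / 2) with h3 | h3
    · rw [hfi] at h3
      have h4 := disc_log (hF i) (hM i) hρ hlam h3 (Z i) (fun z hz => hZ i hiS z hz t' ht')
      rw [hCA] at h4
      have h5 : 0 ≤ 4 * ‖f i (pt x₁ t')‖ ^ 2 := by positivity
      have h6 : Real.exp (-lam) * ((2 * Real.pi)⁻¹ * J) =
          Real.exp (-lam) * (2 * Real.pi)⁻¹ * J := by ring
      linarith
    · have h5 : 0 ≤ Real.exp (-lam) * (2 * Real.pi)⁻¹ * J := by positivity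
      nlinarith
  have hH1 : ∀ i ∈ E, ENNReal.ofReal H ≤ ∫⁻ t' in Icc t (t + H),
      (ENNReal.ofReal 4 * ENNReal.ofReal (‖f i (pt x₁ t')‖ ^ 2) +
      ENNReal.ofReal (Real.exp (-lam) * (2 * Real.pi)⁻¹) * (∫⁻ φ in Ioc 0 (2 * Real.pi),
        ENNReal.ofReal (‖f i (pt (x₁ + ρ * Real.cos φ) (t' + ρ * Real.sin φ))‖ ^ 2))) := by
    intro i hi
    refine le_trans (le_of_eq ?_) (setLIntegral_mono' measurableSet_Icc (hpt i hi))
    rw [setLIntegral_const, Real.volume_Icc, one_mul]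
    congr 1
    ring
  have hmeas : ∀ i, Measurable (Function.uncurry fun t' φ : ℝ => ENNReal.ofReal
      (‖f i (pt (x₁ + ρ * Real.cos φ) (t' + ρ * Real.sin φ))‖ ^ 2)) := by
    intro i
    refine Measurable.ennreal_ofReal (Continuous.measurable ?_)
    exact ((hfc i).comp (by fun_prop : Continuous fun q : ℝ × ℝ =>
      ((x₁ + ρ * Real.cos q.2, q.1 + ρ * Real.sin q.2) : ℝ × ℝ))).pow 2
  have hsplit : ∀ i, ∫⁻ t' in Icc t (t + H),
      (ENNReal.ofReal 4 * ENNReal.ofReal (‖f i (pt x₁ t')‖ ^ 2) +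
      ENNReal.ofReal (Real.exp (-lam) * (2 * Real.pi)⁻¹) * (∫⁻ φ in Ioc 0 (2 * Real.pi),
        ENNReal.ofReal (‖f i (pt (x₁ + ρ * Real.cos φ) (t' + ρ * Real.sin φ))‖ ^ 2))) =
      ENNReal.ofReal 4 * (∫⁻ t' in Icc t (t + H), ENNReal.ofReal (‖f i (pt x₁ t')‖ ^ 2)) +
      ENNReal.ofReal (Real.exp (-lam) * (2 * Real.pi)⁻¹) * (∫⁻ φ in Ioc 0 (2 * Real.pi),
        ∫⁻ t' in Icc t (t + H),
        ENNReal.ofReal (‖f i (pt (x₁ + ρ * Real.cos φ) (t' + ρ * Real.sin φ))‖ ^ 2)) := by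
    intro i
    have m1 : Measurable fun t' : ℝ => ENNReal.ofReal (‖f i (pt x₁ t')‖ ^ 2) :=
      Measurable.ennreal_ofReal (((hfc i).comp (by fun_prop : Continuous fun t' : ℝ =>
        ((x₁, t') : ℝ × ℝ))).pow 2).measurable
    have m2 : Measurable fun t' : ℝ => ∫⁻ φ in Ioc 0 (2 * Real.pi),
        ENNReal.ofReal (‖f i (pt (x₁ + ρ * Real.cos φ) (t' + ρ * Real.sin φ))‖ ^ 2) :=
      (hmeas i).lintegral_prod_right'
    rw [lintegral_add_left (m1.const_mul _), lintegral_const_mul _ m1, lintegral_const_mul _ m2,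
      lintegral_lintegral_swap (hmeas i).aemeasurable]
  have htot : ENNReal.ofReal (E.card * H) ≤ ENNReal.ofReal 4 * QQ S f x₁ H t +
      ENNReal.ofReal (Real.exp (-lam) * (2 * Real.pi)⁻¹) * ∫⁻ φ in Ioc 0 (2 * Real.pi),
        QQ S f (x₁ + ρ * Real.cos φ) H (t + ρ * Real.sin φ) := by
    have e1 : ENNReal.ofReal (E.card * H) = ∑ _i ∈ E, ENNReal.ofReal H := by
      rw [Finset.sum_const, nsmul_eq_mul, ENNReal.ofReal_mul (Nat.cast_nonneg _),
        ENNReal.ofReal_natCast]
    rw [e1]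
    refine (Finset.sum_le_sum hH1).trans ?_
    rw [Finset.sum_congr rfl fun i _ => hsplit i]
    have hsub : E ⊆ S := by rw [hE]; exact Finset.filter_subset _ _
    refine (Finset.sum_le_sum_of_subset hsub).trans (le_of_eq ?_)
    rw [Finset.sum_add_distrib, ← Finset.mul_sum, ← Finset.mul_sum]
    congr 1
    congr 1
    rw [← lintegral_finsetSum']
    · refine lintegral_congr fun φ => ?_
      unfold QQ
      refine Finset.sum_congr rfl fun i _ => ?_
      rw [lint_shift (fun t' => ENNReal.ofReal (‖f i (pt (x₁ + ρ * Real.cos φ) t')‖ ^ 2)) t H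
        (ρ * Real.sin φ)]
    · intro i _
      refine Measurable.aemeasurable ?_
      have c0 : Measurable (Function.uncurry fun φ t' : ℝ => ENNReal.ofReal
          (‖f i (pt (x₁ + ρ * Real.cos φ) (t' + ρ * Real.sin φ))‖ ^ 2)) := by
        refine Measurable.ennreal_ofReal (Continuous.measurable ?_)
        exact ((hfc i).comp (by fun_prop : Continuous fun q : ℝ × ℝ =>
          ((x₁ + ρ * Real.cos q.1, q.2 + ρ * Real.sin q.1) : ℝ × ℝ))).pow 2
      exact c0.lintegral_prod_right'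
  have hfin : ENNReal.ofReal (E.card * H) ≤ ENNReal.ofReal (4 * V₁ + Real.exp (-lam) * V₂) := by
    refine htot.trans ?_
    have h3 : ∫⁻ φ in Ioc 0 (2 * Real.pi),
        QQ S f (x₁ + ρ * Real.cos φ) H (t + ρ * Real.sin φ) ≤
        ENNReal.ofReal (V₂ * (2 * Real.pi)) := by
      refine (lintegral_mono h2).trans (le_of_eq ?_)
      rw [setLIntegral_const, Real.volume_Ioc, sub_zero, ENNReal.ofReal_mul hV2]
    refine (add_le_add (mul_le_mul_right h1 _) (mul_le_mul_right h3 _)).trans ?_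
    rw [← ENNReal.ofReal_mul (by norm_num), ← ENNReal.ofReal_mul (by positivity),
      ← ENNReal.ofReal_add (by positivity) (by positivity)]
    refine ENNReal.ofReal_le_ofReal (le_of_eq ?_)
    have hpi := Real.pi_ne_zero
    field_simp
  exact (ENNReal.ofReal_le_ofReal_iff (by positivity)).mp hfin

end Pool.Agent.T9h27.C
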