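import Pool.Agent.T9h27.C.Mean
import Pool.Agent.T9h27.C.Tail

/-!
# Exponential moments of the number of zeros in a disc (helper27)
-/

set_option autoImplicit false
set_option linter.unusedSectionVars false

open UniqueFactorizationMonoid MeasureTheory Complex Filter Topology Set

namespace Pool.Agent.T9h27.C

open Pool.Agent.N786.D
open Pool.Agent.T9h27.D
open Pool.Agent.R399.TW (pt pt_re pt_im pt_cont)

/-- the trivial bound -/
lemma disc_triv {F : ℂ → ℂ} (hF : Differentiable ℂ F) {A T R τ : ℝ} {n : ℕ} (hA : 1 ≤ A)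
    (hR : 1 ≤ R) (hT : 1 ≤ T) (hτ : |τ| ≤ T)
    (hlow : ∀ s : ℂ, 2 ≤ s.re → A⁻¹ ≤ ‖F s‖)
    (hgr : ∀ s : ℂ, 1 / 16 ≤ s.re → ‖F s‖ ≤ A * Real.exp R * (1 + |s.im| / T) ^ n) (Z : Finset ℂ)
    (hZ : ∀ z ∈ Z, ‖z - pt (1 / 2) τ‖ ≤ 1 / 4) :
    ∑ z ∈ Z, (analyticOrderNatAt F z : ℝ) ≤ 11 * (2 * Real.log A + 1 + n * Real.log 4) * R := by
  classical
  have hA0 : 0 < A := by linarith
  have hT0 : 0 < T := by linarith
  have hlA : 0 ≤ Real.log A := Real.log_nonneg hA
  have hl4 : 0 ≤ Real.log 4 := Real.log_nonneg (by norm_num)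
  obtain ⟨ρ, hρ⟩ : ∃ ρ : ℝ, ρ = 31 / 16 := ⟨_, rfl⟩
  have hρ0 : 0 < ρ := by rw [hρ]; norm_num
  obtain ⟨B, hB⟩ : ∃ B : ℝ, B = A * Real.exp R * 4 ^ n := ⟨_, rfl⟩
  have hB1 : 1 ≤ B := by
    rw [hB]
    have h1 : 1 ≤ Real.exp R := Real.one_le_exp (by linarith)
    have h2 : (1 : ℝ) ≤ 4 ^ n := one_le_pow₀ (by norm_num)
    exact one_le_mul_of_one_le_of_one_le (one_le_mul_of_one_le_of_one_le hA h1) h2
  have hlogB : Real.log B = Real.log A + R + n * Real.log 4 := by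
    rw [hB, Real.log_mul (by positivity) (by positivity), Real.log_mul hA0.ne'
      (Real.exp_pos _).ne', Real.log_exp, Real.log_pow]
  have hc : F (pt 2 τ) ≠ 0 := by
    intro h
    have := hlow (pt 2 τ) (by rw [pt_re])
    rw [h, norm_zero] at this
    have h2 : 0 < A⁻¹ := by positivity
    linarith
  have hdist : ∀ z ∈ Z, ‖pt 2 τ - z‖ ≤ 7 / 4 := by
    intro z hz
    have h1 : pt 2 τ - z = (pt 2 τ - pt (1 / 2) τ) - (z - pt (1 / 2) τ) := by ring
    have h2 : ‖pt 2 τ - pt (1 / 2) τ‖ = 3 / 2 := by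
      have : pt 2 τ - pt (1 / 2) τ = ((3 / 2 : ℝ) : ℂ) := by
        apply Complex.ext
        · simp; norm_num
        · simp
      rw [this, Complex.norm_real]
      norm_num
    rw [h1]
    refine (norm_sub_le _ _).trans ?_
    rw [h2]
    have := hZ z hz
    linarith
  have h1 := jensen_fin hF hρ0 hc (Z := Z) (fun z hz => (hdist z hz).trans (by
    rw [hρ]; norm_num))
  have h2 : ∑ z ∈ Z, (analyticOrderNatAt F z : ℝ) * (1 / 11) ≤
      ∑ z ∈ Z, (analyticOrderNatAt F z : ℝ) * Real.log (ρ * ‖pt 2 τ - z‖⁻¹) := by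
    refine Finset.sum_le_sum fun z hz => ?_
    by_cases hcz : pt 2 τ = z
    · rw [← hcz, Pool.Agent.T9h27.D.ord_zero hF hc]
      simp
    · refine mul_le_mul_of_nonneg_left ?_ (Nat.cast_nonneg _)
      have hd : 0 < ‖pt 2 τ - z‖ := norm_pos_iff.mpr (sub_ne_zero.mpr hcz)
      have h3 : 31 / 28 ≤ ρ * ‖pt 2 τ - z‖⁻¹ := by
        rw [← div_eq_mul_inv, le_div_iff₀ hd, hρ]
        have := hdist z hz
        linarith
      have h4 := Real.one_sub_inv_le_log_of_pos (x := 31 / 28) (by norm_num)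
      have h5 := Real.log_le_log (by norm_num) h3
      norm_num at h4
      linarith
  have h3 : Real.circleAverage (fun z => Real.log ‖F z‖) (pt 2 τ) ρ ≤ Real.log B := by
    refine Real.circleAverage_mono_on_of_le_circle ?_ ?_
    · have hm : MeromorphicOn F (Metric.sphere (pt 2 τ) |ρ|) :=
        fun z _ => (hF.analyticAt z).meromorphicAt
      exact hm.circleIntegrable_log_norm
    · intro z hz
      rw [mem_sphere_iff_norm, abs_of_pos hρ0] at hz
      have h4 : |(z - pt 2 τ).re| ≤ ρ := (Complex.abs_re_le_norm _).trans hz.le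
      have h5 : |(z - pt 2 τ).im| ≤ ρ := (Complex.abs_im_le_norm _).trans hz.le
      rw [Complex.sub_re, pt_re] at h4
      rw [Complex.sub_im, pt_im] at h5
      have h6 : ‖F z‖ ≤ B := by
        refine (hgr z (by have := (abs_le.mp h4).1; rw [hρ] at this; linarith)).trans ?_
        rw [hB]
        have h7 : |z.im| ≤ 3 * T := by
          obtain ⟨a1, a2⟩ := abs_le.mp h5
          obtain ⟨b1, b2⟩ := abs_le.mp hτ
          rw [hρ] at a1 a2
          rw [abs_le]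
          constructor <;> linarith
        have h8 : 1 + |z.im| / T ≤ 4 := by
          have := (div_le_iff₀ hT0).mpr h7
          linarith
        have h9 : 0 ≤ 1 + |z.im| / T := by positivity
        gcongr
      rcases eq_or_ne (F z) 0 with h0 | h0
      · rw [h0, norm_zero, Real.log_zero]
        exact Real.log_nonneg hB1
      · exact Real.log_le_log (norm_pos_iff.mpr h0) h6
  have h4 : -Real.log ‖F (pt 2 τ)‖ ≤ Real.log A := by
    have h5 := Real.log_le_log (by positivity) (hlow (pt 2 τ) (by rw [pt_re]))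
    rw [Real.log_inv] at h5
    linarith
  rw [← Finset.sum_mul] at h2
  have h6 : (∑ z ∈ Z, (analyticOrderNatAt F z : ℝ)) * (1 / 11) ≤
      Real.log A + R + n * Real.log 4 + Real.log A := by linarith
  have h7 : Real.log A + R + n * Real.log 4 + Real.log A ≤
      (2 * Real.log A + 1 + n * Real.log 4) * R := by
    have h8 : 0 ≤ (n : ℝ) * Real.log 4 := by positivity
    nlinarith
  linarith

open Classical in
/-- exponential moments from the tails -/
lemma exp_of_tail {ι : Type} (S : Finset ι) (X : ι → ℝ) {P C₀ C c₁ : ℝ} {m₀ : ℕ} (hC₀ : 0 < C₀)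
    (hC : 0 ≤ C) (hc₁ : 0 < c₁) (hP : (S.card : ℝ) ≤ P)
    (htail : ∀ m : ℕ, m₀ ≤ m →
      ((S.filter fun i => C₀ * m < X i).card : ℝ) ≤ P * C * Real.exp (-(c₁ * m))) :
    ∑ i ∈ S, Real.exp (c₁ / (2 * C₀) * X i) ≤
      P * (1 + C * Real.exp (c₁ / 2) / (1 - Real.exp (-(c₁ / 2)))) *
        Real.exp (c₁ / 2 * m₀) := by
  have hP0 : 0 ≤ P := le_trans (Nat.cast_nonneg _) hP
  obtain ⟨q, hq⟩ : ∃ q : ℝ, q = Real.exp (-(c₁ / 2)) := ⟨_, rfl⟩
  have hq0 : 0 < q := by rw [hq]; exact Real.exp_pos _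
  have hq1 : q < 1 := by rw [hq, Real.exp_lt_one_iff]; linarith
  rw [← hq]
  have hpt : ∀ (x : ℝ) (K : ℕ), x ≤ C₀ * (m₀ + K : ℕ) → Real.exp (c₁ / (2 * C₀) * x) ≤
      Real.exp (c₁ / 2 * m₀) + ∑ j ∈ Finset.range K,
        if C₀ * (m₀ + j : ℕ) < x then Real.exp (c₁ / 2 * ((m₀ + j : ℕ) + 1)) else 0 := by
    intro x K
    induction K with
    | zero =>
      intro hx
      rw [Finset.sum_range_zero, add_zero]
      refine Real.exp_le_exp.mpr ?_
      rw [add_zero] at hx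
      calc c₁ / (2 * C₀) * x ≤ c₁ / (2 * C₀) * (C₀ * m₀) :=
            mul_le_mul_of_nonneg_left hx (by positivity)
        _ = _ := by field_simp
    | succ K ih =>
      intro hx
      rw [Finset.sum_range_succ]
      by_cases h : C₀ * (m₀ + K : ℕ) < x
      · rw [if_pos h]
        have h1 : Real.exp (c₁ / (2 * C₀) * x) ≤ Real.exp (c₁ / 2 * ((m₀ + K : ℕ) + 1)) := by
          refine Real.exp_le_exp.mpr ?_
          calc c₁ / (2 * C₀) * x ≤ c₁ / (2 * C₀) * (C₀ * (m₀ + (K + 1) : ℕ)) :=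
                mul_le_mul_of_nonneg_left hx (by positivity)
            _ = _ := by
                push_cast
                field_simp
                ring
        have h2 : 0 ≤ ∑ j ∈ Finset.range K,
            if C₀ * (m₀ + j : ℕ) < x then Real.exp (c₁ / 2 * ((m₀ + j : ℕ) + 1)) else 0 := by
          refine Finset.sum_nonneg fun j _ => ?_
          split_ifs
          · exact (Real.exp_pos _).le
          · exact le_rfl
        have h3 := Real.exp_pos (c₁ / 2 * m₀)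
        linarith
      · rw [if_neg h]
        push Not at h
        have := ih h
        linarith
  obtain ⟨K, hK⟩ : ∃ K : ℕ, ∀ i ∈ S, X i ≤ C₀ * (m₀ + K : ℕ) := by
    have h1 : ∀ i : ι, ∃ k : ℕ, X i ≤ C₀ * k := by
      intro i
      obtain ⟨k, hk⟩ := exists_nat_ge (X i / C₀)
      exact ⟨k, by rw [div_le_iff₀ hC₀] at hk; linarith⟩
    choose k hk using h1
    refine ⟨S.sup k, fun i hi => (hk i).trans ?_⟩
    refine mul_le_mul_of_nonneg_left ?_ hC₀.le
    have h2 : k i ≤ S.sup k := Finset.le_sup hi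
    exact_mod_cast (by omega : k i ≤ m₀ + S.sup k)
  have h1 : ∑ i ∈ S, Real.exp (c₁ / (2 * C₀) * X i) ≤
      S.card * Real.exp (c₁ / 2 * m₀) + ∑ j ∈ Finset.range K,
        ((S.filter fun i => C₀ * (m₀ + j : ℕ) < X i).card : ℝ) *
          Real.exp (c₁ / 2 * ((m₀ + j : ℕ) + 1)) := by
    refine (Finset.sum_le_sum fun i hi => hpt (X i) K (hK i hi)).trans (le_of_eq ?_)
    rw [Finset.sum_add_distrib, Finset.sum_const, nsmul_eq_mul, Finset.sum_comm]
    congr 1
    refine Finset.sum_congr rfl fun j _ => ?_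
    rw [← Finset.sum_filter, Finset.sum_const, nsmul_eq_mul]
  have h2 : ∀ j ∈ Finset.range K, ((S.filter fun i => C₀ * (m₀ + j : ℕ) < X i).card : ℝ) *
      Real.exp (c₁ / 2 * ((m₀ + j : ℕ) + 1)) ≤ P * C * Real.exp (c₁ / 2) * q ^ j := by
    intro j _
    refine (mul_le_mul_of_nonneg_right (htail (m₀ + j) (by omega)) (Real.exp_pos _).le).trans ?_
    have hPC : 0 ≤ P * C := by positivity
    have e1 : P * C * Real.exp (c₁ / 2) * q ^ j = P * C *
        Real.exp (c₁ / 2 + (j : ℝ) * -(c₁ / 2)) := by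
      rw [hq, ← Real.exp_nat_mul, Real.exp_add]
      ring
    have e2 : P * C * Real.exp (-(c₁ * (m₀ + j : ℕ))) * Real.exp (c₁ / 2 * ((m₀ + j : ℕ) + 1)) =
        P * C * Real.exp (-(c₁ * (m₀ + j : ℕ)) + c₁ / 2 * ((m₀ + j : ℕ) + 1)) := by
      rw [Real.exp_add]
      ring
    rw [e1, e2]
    refine mul_le_mul_of_nonneg_left (Real.exp_le_exp.mpr ?_) hPC
    push_cast
    have : 0 ≤ c₁ * m₀ := by positivity
    nlinarith
  have h3 : ∑ j ∈ Finset.range K, q ^ j ≤ (1 - q)⁻¹ := by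
    rw [← tsum_geometric_of_lt_one hq0.le hq1]
    exact (summable_geometric_of_lt_one hq0.le hq1).sum_le_tsum _ fun j _ => by positivity
  have h4 : 1 ≤ Real.exp (c₁ / 2 * m₀) := Real.one_le_exp (by positivity)
  have h5 : 0 < 1 - q := by linarith
  calc ∑ i ∈ S, Real.exp (c₁ / (2 * C₀) * X i) ≤
      P * Real.exp (c₁ / 2 * m₀) + P * C * Real.exp (c₁ / 2) * (1 - q)⁻¹ := by
        refine h1.trans (add_le_add (mul_le_mul_of_nonneg_right hP (Real.exp_pos _).le) ?_)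
        refine (Finset.sum_le_sum h2).trans ?_
        rw [← Finset.mul_sum]
        exact mul_le_mul_of_nonneg_left h3 (by positivity)
    _ ≤ P * Real.exp (c₁ / 2 * m₀) + P * C * Real.exp (c₁ / 2) * (1 - q)⁻¹ *
        Real.exp (c₁ / 2 * m₀) := by
        refine add_le_add le_rfl (le_mul_of_one_le_right ?_ h4)
        positivity
    _ = _ := by
        rw [div_eq_mul_inv]
        ring

section

variable {M : Type} [CommMonoidWithZero M] [NormalizationMonoid M] [UniqueFactorizationMonoid M]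
  [Subsingleton Mˣ] [Nontrivial M] {N : M →*₀ ℕ} {n₀ : ℕ}

open Classical in
/-- **Exponential moments of the number of zeros in a disc** -/
theorem exp_fam (hN : NS N n₀) {e h A : ℝ} (he : 0 < e) (hh : 1 / 2 < h) (hh1 : h ≤ 1)
    (hA : 1 ≤ A) (n : ℕ) (hn : 1 ≤ n) :
    ∃ (c C R₀ : ℝ), 0 < c ∧ 0 < C ∧ 1 ≤ R₀ ∧
    ∀ (R T P : ℝ) (ι : Type) (S : Finset ι) (χ : ι → M →*₀ ℂ)
      (F : ι → ℂ → ℂ), R₀ ≤ R → 1 ≤ T → (S.card : ℝ) ≤ P →
      (∀ X : ℕ, 1 ≤ X → (X : ℝ) ≤ Real.exp ((h - (2 * h - 1) / 24) * R) →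
        LSU N S χ (1 / R) (P * (1 / R)) e X) →
      (∀ i ∈ S, GLf N A T R n (χ i) (F i)) →
      ∀ t : ℝ, |t| ≤ T → ∀ r : ℝ, 0 ≤ r → r ≤ 1 / 4 →
      ∀ Z : ι → Finset ℂ, (∀ i ∈ S, ∀ z ∈ Z i, ‖z - pt (1 / 2) t‖ ≤ r) →
      ∑ i ∈ S, Real.exp (c * ∑ z ∈ Z i, (analyticOrderNatAt (F i) z : ℝ)) ≤
        P * C * Real.exp (C * (r * R)) := by
  obtain ⟨G, hG⟩ := hN.wgt
  obtain ⟨g, hg⟩ : ∃ g : ℝ, g = (2 * h - 1) / 24 := ⟨_, rfl⟩
  have hg0 : 0 < g := by rw [hg]; linarith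
  have hhg : h = 1 / 2 + 12 * g := by rw [hg]; ring
  obtain ⟨φ, hφ⟩ := cut_exists (a := 1 / 2 + 2 * g) (b := 1 / 2 + 3 * g) (by linarith) (by linarith)
  obtain ⟨θ, hθ⟩ := cut_exists (a := 7 * g) (b := 8 * g) (by linarith) (by linarith)
  obtain ⟨κ, C₁, C₂, R₁, E, hκ, hC₁, hC₂, hR₁, hmain⟩ := mean_all hN he hG hφ hθ
    (α' := 1 / 2 + g) (β' := 6 * g) (by linarith) (by linarith) (by linarith) (by linarith)
    (by linarith) (by linarith) (by linarith) hA n hn
  have hlA : 0 ≤ Real.log A := Real.log_nonneg hA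
  have hl4 : 0 ≤ Real.log 4 := Real.log_nonneg (by norm_num)
  -- constants
  obtain ⟨C₃, hC₃⟩ : ∃ C₃ : ℝ, C₃ = 11 * (2 * Real.log A + 1 + n * Real.log 4) := ⟨_, rfl⟩
  have hC₃0 : 0 ≤ C₃ := by
    rw [hC₃]
    have : 0 ≤ (n : ℝ) * Real.log 4 := by positivity
    linarith
  obtain ⟨Lm, hLm⟩ : ∃ Lm : ℝ, Lm = C₂ + 2 * (6 * g) + 1 := ⟨_, rfl⟩
  have hLm1 : 1 ≤ Lm := by rw [hLm]; linarith
  obtain ⟨C₀, hC₀⟩ : ∃ C₀ : ℝ, C₀ = 4 * Lm + 16 + 4 * C₃ := ⟨_, rfl⟩
  have hC₀0 : 0 < C₀ := by rw [hC₀]; linarith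
  obtain ⟨C₄, hC₄⟩ : ∃ C₄ : ℝ, C₄ = C₁ * (4 * 2 ^ E + 4 ^ E) := ⟨_, rfl⟩
  have hC₄0 : 0 ≤ C₄ := by rw [hC₄]; positivity
  obtain ⟨c₁, hc₁⟩ : ∃ c₁ : ℝ, c₁ = 2 * (6 * g) := ⟨_, rfl⟩
  have hc₁0 : 0 < c₁ := by rw [hc₁]; linarith
  obtain ⟨κ', hκ'⟩ : ∃ κ' : ℝ, κ' = κ + 4 := ⟨_, rfl⟩
  have hκ'0 : 0 ≤ κ' := by linarith
  obtain ⟨C₅, hC₅⟩ : ∃ C₅ : ℝ, C₅ = (1 + C₄ * Real.exp (c₁ / 2) / (1 - Real.exp (-(c₁ / 2)))) *
    Real.exp (c₁ / 2 * (κ' + 1)) := ⟨_, rfl⟩
  have hC₅0 : 0 < C₅ := by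
    rw [hC₅]
    have h1 : Real.exp (-(c₁ / 2)) < 1 := by rw [Real.exp_lt_one_iff]; linarith
    have h2 : 0 < 1 - Real.exp (-(c₁ / 2)) := by linarith
    positivity
  refine ⟨c₁ / (2 * C₀), C₅ + c₁, R₁, by positivity, by positivity, hR₁, ?_⟩
  intro R T P ι S χ F hR hT hP hls hF t ht r hr0 hr1 Z hZ
  have hR1 : 1 ≤ R := hR₁.trans hR
  have hR0 : 0 < R := by linarith
  have hT0 : 0 < T := by linarith
  have hP0 : 0 ≤ P := le_trans (Nat.cast_nonneg _) hP
  set F' : ι → ℂ → ℂ := fun i => if i ∈ S then F i else fun _ => 0 with hF'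
  have hFS : ∀ i ∈ S, F' i = F i := fun i hl => by simp only [hF']; rw [if_pos hl]
  have hFd : ∀ i, Differentiable ℂ (F' i) := by
    intro i
    by_cases hl : i ∈ S
    · rw [hFS i hl]
      exact (hF i hl).diff
    · simp only [hF']
      rw [if_neg hl]
      exact differentiable_const _
  -- the large sieve
  obtain ⟨M₁, hM₁⟩ : ∃ M₁ : ℕ, M₁ = ⌊Real.exp ((1 / 2 + 3 * g) * R)⌋₊ := ⟨_, rfl⟩
  obtain ⟨M₂, hM₂⟩ : ∃ M₂ : ℕ, M₂ = ⌊Real.exp (8 * g * R)⌋₊ := ⟨_, rfl⟩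
  have hMM : ((M₁ * M₂ : ℕ) : ℝ) ≤ Real.exp ((h - g) * R) := by
    have h1 : (M₁ : ℝ) ≤ Real.exp ((1 / 2 + 3 * g) * R) := by
      rw [hM₁]; exact Nat.floor_le (Real.exp_pos _).le
    have h2 : (M₂ : ℝ) ≤ Real.exp (8 * g * R) := by
      rw [hM₂]; exact Nat.floor_le (Real.exp_pos _).le
    push_cast
    refine (mul_le_mul h1 h2 (Nat.cast_nonneg _) (Real.exp_pos _).le).trans (le_of_eq ?_)
    rw [← Real.exp_add]
    congr 1
    rw [hhg]
    ring
  have hMpos : 1 ≤ M₁ * M₂ := by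
    have h1 : 1 ≤ M₁ := by
      rw [hM₁]
      refine Nat.le_floor ?_
      rw [Nat.cast_one]
      exact Real.one_le_exp (by positivity)
    have h2 : 1 ≤ M₂ := by
      rw [hM₂]
      refine Nat.le_floor ?_
      rw [Nat.cast_one]
      exact Real.one_le_exp (by positivity)
    exact Nat.mul_pos h1 h2
  have hLS : LSU N S χ (1 / R) (P * (1 / R)) e (M₁ * M₂) := hls _ hMpos (by rw [← hg]; exact hMM)
  rw [hM₁, hM₂] at hLS
  have hR1' : 0 < 1 / R := by positivity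
  have hRinv : 1 / R ≤ 1 := by rw [div_le_one hR0]; exact hR1
  have hms := hmain R T (1 / R) (P * (1 / R)) ι S χ F' hR hT hR1'.le (hRinv.trans hT)
    (mul_le_mul_of_nonneg_right hP hR1'.le) hLS hFd
    (fun i hl => by rw [hFS i hl]; exact hF i hl)
  obtain ⟨X, hX⟩ : ∃ X : ι → ℝ, ∀ i, X i = ∑ z ∈ Z i, (analyticOrderNatAt (F' i) z : ℝ) :=
    ⟨_, fun _ => rfl⟩
  have htriv : ∀ i ∈ S, X i ≤ C₃ * R := by
    intro i hi
    rw [hX, hFS i hi, hC₃]
    exact disc_triv (hF i hi).diff hA hR1 hT ht (hF i hi).low (hF i hi).gr (Z i)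
      (fun z hz => (hZ i hi z hz).trans hr1)
  obtain ⟨m₀, hm₀⟩ : ∃ m₀ : ℕ, m₀ = ⌈κ' + 2 * (r * R)⌉₊ := ⟨_, rfl⟩
  have hm₀1 : κ' + 2 * (r * R) ≤ m₀ := by rw [hm₀]; exact Nat.le_ceil _
  have hrR : 0 ≤ r * R := by positivity
  have hm₀2 : (m₀ : ℝ) ≤ κ' + 1 + 2 * (r * R) := by
    rw [hm₀]
    have := Nat.ceil_lt_add_one (show 0 ≤ κ' + 2 * (r * R) by positivity)
    linarith
  have htail : ∀ m : ℕ, m₀ ≤ m →
      ((S.filter fun i => C₀ * m < X i).card : ℝ) ≤ P * C₄ * Real.exp (-(c₁ * m)) := by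
    intro m hm
    have hm' : (m₀ : ℝ) ≤ m := by exact_mod_cast hm
    obtain ⟨b, hb⟩ : ∃ b : ℝ, b = m := ⟨_, rfl⟩
    rw [← hb] at hm' ⊢
    have hb4 : 4 ≤ b := by linarith
    have hbκ : κ ≤ b := by linarith
    have hb0 : 0 < b := by linarith
    rcases le_or_gt b (R / 4) with hbR | hbR
    · obtain ⟨g1, g2⟩ := hms b hbκ hbR
      obtain ⟨δ, hδ⟩ : ∃ δ : ℝ, δ = b / R := ⟨_, rfl⟩
      have hδ0 : 0 < δ := by rw [hδ]; positivity
      have hδ1 : δ ≤ 1 / 4 := by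
        rw [hδ, div_le_iff₀ hR0]
        linarith
      have hδR : 4 * (1 / R) ≤ δ := by
        rw [hδ, ← mul_div_assoc, mul_one]
        exact div_le_div_of_nonneg_right hb4 hR0.le
      have hrδ : 2 * r ≤ δ := by
        rw [hδ, le_div_iff₀ hR0]
        linarith
      rw [← hδ] at g1 g2
      have hlam : 1 ≤ Lm * b := one_le_mul_of_one_le_of_one_le hLm1 (by linarith)
      have hP1 : 0 ≤ P * (1 / R) := by positivity
      have h1 := tail_core (S := S) (F := F')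
        (M := fun i => Mp N θ R ⌊Real.exp (8 * g * R)⌋₊ (χ i)) hFd (fun i => dpo_diff _ _ _ _)
        (x₁ := 1 / 2 + δ) (ρ := 2 * δ) (lam := Lm * b) (H := 1 / R) (t := t)
        (V₁ := P * (1 / R) * (C₁ * Real.exp (-(2 * (6 * g) * b))) * 2 ^ E)
        (V₂ := P * (1 / R) * (C₁ * Real.exp (C₂ * b)) * 4 ^ E) hR1'.le (by positivity) hlam
        (by positivity) (by positivity) (by
          refine (g2 t).trans (ENNReal.ofReal_le_ofReal ?_)
          have h2 : 1 + |t| / T ≤ 2 := by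
            have := (div_le_one hT0).mpr ht
            linarith
          have h3 : 0 ≤ 1 + |t| / T := by positivity
          gcongr) (by
          intro φ
          have hc1 := Real.cos_le_one φ
          have hc2 := Real.neg_one_le_cos φ
          have hs1 := Real.sin_le_one φ
          have hs2 := Real.neg_one_le_sin φ
          refine (g1 _ (by nlinarith) (by nlinarith) _).trans (ENNReal.ofReal_le_ofReal ?_)
          have h2 : 1 + |t + 2 * δ * Real.sin φ| / T ≤ 4 := by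
            have h4 : |t + 2 * δ * Real.sin φ| ≤ 3 * T := by
              obtain ⟨b1, b2⟩ := abs_le.mp ht
              rw [abs_le]
              constructor <;> nlinarith
            have := (div_le_iff₀ hT0).mpr h4
            linarith
          have h3 : 0 ≤ 1 + |t + 2 * δ * Real.sin φ| / T := by positivity
          gcongr) Z (by
          intro i hi z hz t' ht'
          have h2 : pt (1 / 2 + δ) t' - z = ((δ : ℂ) + (((t' - t : ℝ)) : ℂ) * Complex.I) -
              (z - pt (1 / 2) t) := by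
            apply Complex.ext
            · simp; ring
            · simp
          rw [h2]
          refine (norm_sub_le _ _).trans ?_
          have h3 : ‖(δ : ℂ) + (((t' - t : ℝ)) : ℂ) * Complex.I‖ ≤ δ + 1 / R := by
            refine (norm_add_le _ _).trans ?_
            rw [norm_mul, Complex.norm_I, mul_one, Complex.norm_real, Complex.norm_real,
              Real.norm_of_nonneg hδ0.le, Real.norm_of_nonneg (by linarith [ht'.1])]
            linarith [ht'.2]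
          have h4 := hZ i hi z hz
          linarith)
      have hsub : (S.filter fun i => C₀ * b < X i) ⊆ (S.filter fun i =>
          4 * (Lm * b) + 16 < ∑ z ∈ Z i, (analyticOrderNatAt (F' i) z : ℝ)) := by
        intro i hi
        obtain ⟨h2, h3⟩ := Finset.mem_filter.mp hi
        refine Finset.mem_filter.mpr ⟨h2, lt_of_le_of_lt ?_ (by rw [← hX]; exact h3)⟩
        rw [hC₀]
        nlinarith
      have hcard : ((S.filter fun i => C₀ * b < X i).card : ℝ) ≤ ((S.filter fun i =>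
          4 * (Lm * b) + 16 < ∑ z ∈ Z i, (analyticOrderNatAt (F' i) z : ℝ)).card : ℝ) := by
        exact_mod_cast Finset.card_le_card hsub
      refine hcard.trans ?_
      have h2 : 4 * (P * (1 / R) * (C₁ * Real.exp (-(2 * (6 * g) * b))) * 2 ^ E) +
          Real.exp (-(Lm * b)) * (P * (1 / R) * (C₁ * Real.exp (C₂ * b)) * 4 ^ E) ≤
          (P * C₄ * Real.exp (-(c₁ * b))) * (1 / R) := by
        have h3 : Real.exp (-(Lm * b)) * Real.exp (C₂ * b) ≤ Real.exp (-(c₁ * b)) := by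
          rw [← Real.exp_add]
          refine Real.exp_le_exp.mpr ?_
          rw [hLm, hc₁]
          nlinarith
        have h4 : Real.exp (-(2 * (6 * g) * b)) = Real.exp (-(c₁ * b)) := by
          rw [hc₁]
        rw [h4]
        calc 4 * (P * (1 / R) * (C₁ * Real.exp (-(c₁ * b))) * 2 ^ E) +
            Real.exp (-(Lm * b)) * (P * (1 / R) * (C₁ * Real.exp (C₂ * b)) * 4 ^ E) =
            P * (1 / R) * C₁ * (4 * 2 ^ E * Real.exp (-(c₁ * b)) +
              4 ^ E * (Real.exp (-(Lm * b)) * Real.exp (C₂ * b))) := by ring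
          _ ≤ P * (1 / R) * C₁ * (4 * 2 ^ E * Real.exp (-(c₁ * b)) +
              4 ^ E * Real.exp (-(c₁ * b))) := by gcongr
          _ = _ := by rw [hC₄]; ring
      exact le_of_mul_le_mul_right (h1.trans h2) hR1'
    · have h1 : (S.filter fun i => C₀ * b < X i) = ∅ := by
        rw [Finset.filter_eq_empty_iff]
        intro i hi h2
        have h3 := htriv i hi
        have h4 : C₃ * R ≤ C₀ * b := by
          rw [hC₀]
          nlinarith
        linarith
      rw [h1, Finset.card_empty, Nat.cast_zero]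
      positivity
  have hfin := exp_of_tail S X hC₀0 hC₄0 hc₁0 hP htail
  have e1 : ∑ i ∈ S, Real.exp (c₁ / (2 * C₀) * ∑ z ∈ Z i, (analyticOrderNatAt (F i) z : ℝ)) =
      ∑ i ∈ S, Real.exp (c₁ / (2 * C₀) * X i) := by
    refine Finset.sum_congr rfl fun i hi => ?_
    rw [hX, hFS i hi]
  rw [e1]
  refine hfin.trans ?_
  have h2 : Real.exp (c₁ / 2 * m₀) ≤ Real.exp (c₁ / 2 * (κ' + 1)) *
      Real.exp ((C₅ + c₁) * (r * R)) := by
    rw [← Real.exp_add]
    refine Real.exp_le_exp.mpr ?_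
    have h3 : c₁ / 2 * m₀ ≤ c₁ / 2 * (κ' + 1 + 2 * (r * R)) :=
      mul_le_mul_of_nonneg_left hm₀2 (by positivity)
    have h4 : 0 ≤ C₅ * (r * R) := by positivity
    linarith
  have h3 : 0 < 1 - Real.exp (-(c₁ / 2)) := by
    have h1 : Real.exp (-(c₁ / 2)) < 1 := by rw [Real.exp_lt_one_iff]; linarith
    linarith
  calc P * (1 + C₄ * Real.exp (c₁ / 2) / (1 - Real.exp (-(c₁ / 2)))) * Real.exp (c₁ / 2 * m₀) ≤
      P * (1 + C₄ * Real.exp (c₁ / 2) / (1 - Real.exp (-(c₁ / 2)))) *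
        (Real.exp (c₁ / 2 * (κ' + 1)) * Real.exp ((C₅ + c₁) * (r * R))) := by gcongr
    _ = P * C₅ * Real.exp ((C₅ + c₁) * (r * R)) := by rw [hC₅]; ring
    _ ≤ P * (C₅ + c₁) * Real.exp ((C₅ + c₁) * (r * R)) := by
        have : C₅ ≤ C₅ + c₁ := by linarith
        gcongr

end

end Pool.Agent.T9h27.C
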