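import Pool.Agent.T9h27.C.Mean

/-!
# The mollified mean square on the line `1/4` (helper27)
-/

set_option autoImplicit false
set_option linter.unusedSectionVars false

open UniqueFactorizationMonoid MeasureTheory Complex Filter Topology Set

namespace Pool.Agent.T9h27.C

open Pool.Agent.N786.D
open Pool.Agent.T9h27.D
open Pool.Agent.R399.TW (pt pt_re pt_im pt_cont)

/-- polynomials against exponentials -/
lemma pow_le_exp (k : ℕ) {ε : ℝ} (hε : 0 < ε) : ∃ C : ℝ, 1 ≤ C ∧ ∀ R : ℝ, 0 ≤ R →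
    (1 + R) ^ k ≤ C * Real.exp (ε * R) := by
  refine ⟨(1 + (k + 1) / ε) ^ k, one_le_pow₀ (by
    have : 0 ≤ ((k : ℝ) + 1) / ε := by positivity
    linarith), fun R hR => ?_⟩
  have hk : (0 : ℝ) < k + 1 := by positivity
  have h1 : 1 + R ≤ (1 + (k + 1) / ε) * Real.exp (ε * R / (k + 1)) := by
    have h2 := Real.add_one_le_exp (ε * R / (k + 1))
    have h3 : 0 ≤ ((k : ℝ) + 1) / ε := by positivity
    have h4 : ((k : ℝ) + 1) / ε * (ε * R / (k + 1)) = R := by field_simp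
    have h5 : 0 ≤ ε * R / (k + 1) := by positivity
    calc 1 + R ≤ (1 + (k + 1) / ε) * (ε * R / (k + 1) + 1) := by nlinarith
      _ ≤ _ := mul_le_mul_of_nonneg_left h2 (by linarith)
  have h2 := pow_le_pow_left₀ (by linarith) h1 k
  rw [mul_pow, ← Real.exp_nat_mul] at h2
  refine h2.trans (mul_le_mul_of_nonneg_left (Real.exp_le_exp.mpr ?_) (by positivity))
  rw [← mul_div_assoc, div_le_iff₀ hk]
  have : 0 ≤ ε * R := by positivity
  nlinarith

section

variable {M : Type} [CommMonoidWithZero M] [NormalizationMonoid M] [UniqueFactorizationMonoid M]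
  [Subsingleton Mˣ] [Nontrivial M] {N : M →*₀ ℕ} {n₀ : ℕ}

/-- **the mollified mean square on the line `1/4`** -/
theorem mean_far (hN : NS N n₀) {e : ℝ} (he : 0 < e) {G' : ℝ}
    (hG : Wgt (wN N n₀) (fun k => ((n₀ : ℝ) * k + 1) ^ n₀) G') {α' α₁ α₂ β₁ β₂ ε A : ℝ} {φ θ : ℝ → ℝ}
    (hφ : Cutf α₁ α₂ φ) (hθ : Cutf β₁ β₂ θ) (hα' : 1 / 2 < α') (hα : α' < α₁) (hα₂ : 0 < α₂)
    (hβ : 0 < β₂) (hε : 0 < ε) (hβε : β₂ + ε ≤ 1) (hA : 1 ≤ A) (n : ℕ) (hn : 1 ≤ n) :
    ∃ (C R₀ : ℝ) (E : ℕ), 0 < C ∧ 1 ≤ R₀ ∧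
    ∀ (R T H P : ℝ) (ι : Type) (S : Finset ι) (χ : ι → M →*₀ ℂ)
      (F : ι → ℂ → ℂ), R₀ ≤ R → 1 ≤ T → 0 ≤ H → H ≤ T → S.card * H ≤ P →
      LSU N S χ H P e (⌊Real.exp (α₂ * R)⌋₊ * ⌊Real.exp (β₂ * R)⌋₊) →
      (∀ lam, Differentiable ℂ (F lam)) → (∀ lam ∈ S, GLf N A T R n (χ lam) (F lam)) →
      ∀ t₀ : ℝ,
        QQ S (fun i s => F i s * Mp N θ R ⌊Real.exp (β₂ * R)⌋₊ (χ i) s) (1 / 4) H t₀ ≤
        ENNReal.ofReal (P * (C * Real.exp ((1 / 2 + β₂ + 3 * ε) * R)) * (1 + |t₀| / T) ^ E) := by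
  obtain ⟨κ, a, R₀, k, E, hκ, ha, hR₀, hmain⟩ :=
    mean_near hN he hG hφ hθ hα' hα hα₂ hβ (by linarith) hA n hn
  obtain ⟨E', hE'⟩ : ∃ E' : ℕ, E' = E + n := ⟨_, rfl⟩
  obtain ⟨B, hB⟩ : ∃ B : ℕ, B = k + n + E' + 3 := ⟨_, rfl⟩
  obtain ⟨C₀, hC₀, hpow⟩ := pow_le_exp k hε
  have hA0 : 0 < A := by linarith
  have cb0 := cB_nn B 0
  have cbk := cB_nn B k
  have cbE := cB_nn B E
  obtain ⟨b, hb⟩ : ∃ b : ℝ, b = β₂ + ε := ⟨_, rfl⟩
  have hb0 : 0 < b := by rw [hb]; linarith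
  have hb1 : b ≤ 1 := by rw [hb]; exact hβε
  obtain ⟨D₁, hD₁⟩ : ∃ D₁ : ℝ, D₁ = cB B 0 * (C₀ * cB B k) * (a * (1 / b) ^ k) := ⟨_, rfl⟩
  have hD₁0 : 0 ≤ D₁ := by rw [hD₁]; positivity
  obtain ⟨D₂, hD₂⟩ : ∃ D₂ : ℝ, D₂ = cB B 0 * (3 ^ E * cB B E) * D₁ := ⟨_, rfl⟩
  have hD₂0 : 0 ≤ D₂ := by rw [hD₂]; positivity
  refine ⟨A ^ 2 * 2 ^ n * D₂ + 1, max R₀ (8 * κ), E', by positivity, le_max_of_le_left hR₀, ?_⟩
  intro R T H P ι S χ F hR' hT hH0 hHT hP hls hFd hF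
  have hR : R₀ ≤ R := (le_max_left _ _).trans hR'
  have hR8 : 8 * κ ≤ R := (le_max_right _ _).trans hR'
  have hRone : 1 ≤ R := hR₀.trans hR
  have hR0 : 0 < R := by linarith
  have hT0 : 0 < T := by linarith
  have hP0 : 0 ≤ P := le_trans (by positivity) hP
  obtain ⟨x₀, hx₀⟩ : ∃ x₀ : ℝ, x₀ = 1 / 2 + κ / R := ⟨_, rfl⟩
  have hκR : 0 < κ / R := by positivity
  have hκ8 : κ / R ≤ 1 / 8 := by
    rw [div_le_iff₀ hR0]
    linarith
  set Mo : ι → ℂ → ℂ := fun i => Mp N θ R ⌊Real.exp (β₂ * R)⌋₊ (χ i) with hMo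
  have hMd : ∀ i, Differentiable ℂ (Mo i) := fun i => dpo_diff _ _ _ _
  have hΘ : ∀ (t : ℝ) (j : ℕ), 1 ≤ (1 + |t| / T) ^ j := fun t j => one_le_pow₀ (by
    have : 0 ≤ |t| / T := by positivity
    linarith)
  obtain ⟨m, hm⟩ : ∃ m : ℝ, m = b * R := ⟨_, rfl⟩
  have hm0 : 0 < m := by rw [hm]; positivity
  have hmR : m ≤ R := by rw [hm]; nlinarith
  have hJ : ∀ t₀ v₀ : ℝ, JJ S F Mo x₀ x₀ H t₀ v₀ ≤
      ENNReal.ofReal ((P * a * (1 / b) ^ k) * wt T m k E t₀ v₀) := by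
    intro t₀ v₀
    rw [hx₀]
    refine (hmain R T H P ι S χ F hR hT hH0 hHT hP hls (fun i => (hFd i).continuous) hF
      t₀ v₀).trans (ENNReal.ofReal_le_ofReal ?_)
    rw [mul_assoc (P * a)]
    refine mul_le_mul_of_nonneg_left ?_ (by positivity)
    unfold wt
    have h1 : (1 + R * |v₀|) ^ k ≤ (1 / b) ^ k * (1 + m * |v₀|) ^ k := by
      rw [← mul_pow]
      refine pow_le_pow_left₀ (by positivity) ?_ k
      have h2 : 1 / b * (1 + m * |v₀|) = 1 / b + R * |v₀| := by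
        rw [hm]
        field_simp
      rw [h2]
      have : 1 ≤ 1 / b := by rw [le_div_iff₀ hb0]; linarith
      linarith
    have h2 := hΘ t₀ E
    calc (1 + R * |v₀|) ^ k * (1 + |t₀| / T) ^ E ≤
        ((1 / b) ^ k * (1 + m * |v₀|) ^ k) * (1 + |t₀| / T) ^ E := by gcongr
      _ = _ := by ring
  -- the left side
  have hleft := JJ_left (I := S) (L := F) (Mo := Mo) (fun i => (hFd i).continuous) hMd (x := x₀)
    (β := β₂ * R) (R := m) (T := T) (H := H) (Q := P * a * (1 / b) ^ k) (k := k) (B := B) (E := E) hm0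
    (by rw [hm, hb]; nlinarith) (by positivity) (by omega) (by omega)
    (fun i _ => Mp_grow hN θ R β₂ hβ.le hR0.le (χ i) x₀) hJ (η := 1 / 2) (by norm_num)
    (by norm_num)
  obtain ⟨g, hg⟩ : ∃ g : ι → ℂ → ℂ, ∀ i s, g i s = F i s * Mo i (s - 1 / 2) :=
    ⟨fun i s => F i s * Mo i (s - 1 / 2), fun _ _ => rfl⟩
  have hgd : ∀ i, Differentiable ℂ (g i) := by
    intro i
    have e1 : g i = fun s => F i s * Mo i (s - 1 / 2) := funext (hg i)
    rw [e1]
    exact (hFd i).mul ((hMd i).comp (differentiable_id.sub (differentiable_const _)))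
  have hq1 : ∀ t₀ : ℝ, QQ S g x₀ H t₀ ≤
      ENNReal.ofReal ((P * (D₁ * Real.exp ((b + ε) * R))) * (1 + |t₀| / T) ^ E) := by
    intro t₀
    have e1 : QQ S g x₀ H t₀ = JJ S F Mo x₀ (x₀ - 1 / 2) H t₀ 0 := by
      unfold QQ JJ
      refine Finset.sum_congr rfl fun i _ => lintegral_congr fun t => ?_
      rw [hg, norm_mul, mul_pow, sub_zero]
      congr 5
      apply Complex.ext
      · simp
      · simp
    rw [e1]
    refine (hleft t₀).trans (ENNReal.ofReal_le_ofReal ?_)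
    have e2 : 2 * (m * (1 / 2)) = m := by ring
    rw [e2]
    have h1 := hΘ t₀ E
    have h3 : (1 + m * (1 / 2)) ^ k ≤ C₀ * Real.exp (ε * R) := by
      refine le_trans (pow_le_pow_left₀ (by positivity) ?_ k) (hpow R hR0.le)
      linarith
    calc cB B 0 * ((1 + m * (1 / 2)) ^ k * cB B k) * (P * a * (1 / b) ^ k) * Real.exp m *
          (1 + |t₀| / T) ^ E ≤
        cB B 0 * ((C₀ * Real.exp (ε * R)) * cB B k) * (P * a * (1 / b) ^ k) * Real.exp m *
          (1 + |t₀| / T) ^ E := by gcongr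
      _ = (P * (D₁ * Real.exp ((b + ε) * R))) * (1 + |t₀| / T) ^ E := by
          have e3 : Real.exp ((b + ε) * R) = Real.exp (ε * R) * Real.exp m := by
            rw [← Real.exp_add, hm]
            congr 1
            ring
          rw [e3, hD₁]
          ring
  have hgg : ∀ i ∈ S, ∃ G : ℝ, ∀ z : ℂ, x₀ ≤ z.re →
      ‖g i z‖ ≤ G * (1 + |z.im|) ^ n * Real.exp (-(0 * z.re)) := by
    intro i hi
    obtain ⟨G₀, hG₀, hG⟩ := dpo_bdd N ⌊Real.exp (β₂ * R)⌋₊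
      (fun a => mob a * (θ (lN N a / R) : ℂ)) (χ i)
    refine ⟨A * Real.exp R * G₀, fun z hz => ?_⟩
    have e3 := (hF i hi).gr z (by rw [hx₀] at hz; linarith)
    have e4 : (1 + |z.im| / T) ^ n ≤ (1 + |z.im|) ^ n := by
      refine pow_le_pow_left₀ (by positivity) ?_ n
      have : |z.im| / T ≤ |z.im| := div_le_self (abs_nonneg _) hT
      linarith
    have e5 : ‖Mo i (z - 1 / 2)‖ ≤ G₀ := hG _ (by
      have : (z - 1 / 2).re = z.re - 1 / 2 := by simp
      rw [this]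
      rw [hx₀] at hz
      linarith)
    rw [hg, norm_mul, zero_mul, neg_zero, Real.exp_zero, mul_one]
    calc ‖F i z‖ * ‖Mo i (z - 1 / 2)‖ ≤ (A * Real.exp R * (1 + |z.im|) ^ n) * G₀ := by
          refine mul_le_mul (e3.trans ?_) e5 (norm_nonneg _) (by positivity)
          exact mul_le_mul_of_nonneg_left e4 (by positivity)
      _ = _ := by ring
  have hq2 : ∀ t₀ : ℝ, QQ S g (3 / 4) H t₀ ≤
      ENNReal.ofReal ((P * (D₂ * Real.exp ((b + 2 * ε) * R))) * (1 + |t₀| / T) ^ E) := by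
    intro t₀
    have h1 := QQ_right (I := S) (f := g) hgd (a := x₀) (μ := -(ε * R)) (lam := 0) (T := T)
      (H := H) (Q := P * (D₁ * Real.exp ((b + ε) * R))) (m := n) (B := B) (E := E) hT
      (by positivity) (by omega) (by omega) (by
        have : 0 < ε * R := by positivity
        linarith) hgg hq1
      (r := 3 / 4 - x₀) (by rw [hx₀]; linarith) (by rw [hx₀]; linarith) t₀
    have e1 : x₀ + (3 / 4 - x₀) = 3 / 4 := by ring
    rw [e1] at h1
    refine h1.trans (ENNReal.ofReal_le_ofReal ?_)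
    have h2 : Real.exp (-(2 * (-(ε * R) * (3 / 4 - x₀)))) ≤ Real.exp (ε * R) := by
      refine Real.exp_le_exp.mpr ?_
      have h3 : 3 / 4 - x₀ ≤ 1 / 4 := by rw [hx₀]; linarith
      have h4 : 0 < ε * R := by positivity
      nlinarith
    have h3 := hΘ t₀ E
    calc cB B 0 * (3 ^ E * cB B E) * (P * (D₁ * Real.exp ((b + ε) * R))) *
          Real.exp (-(2 * (-(ε * R) * (3 / 4 - x₀)))) * (1 + |t₀| / T) ^ E ≤
        cB B 0 * (3 ^ E * cB B E) * (P * (D₁ * Real.exp ((b + ε) * R))) *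
          Real.exp (ε * R) * (1 + |t₀| / T) ^ E := by gcongr
      _ = _ := by
          have e3 : Real.exp ((b + 2 * ε) * R) = Real.exp ((b + ε) * R) * Real.exp (ε * R) := by
            rw [← Real.exp_add]
            congr 1
            ring
          rw [e3, hD₂]
          ring
  -- the functional equation
  intro t₀
  obtain ⟨Y, hY⟩ : ∃ Y : ℝ, Y = A ^ 2 * Real.exp (R / 2) * (2 ^ n * (1 + |t₀| / T) ^ n) :=
    ⟨_, rfl⟩
  have hY0 : 0 ≤ Y := by rw [hY]; positivity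
  have hpt : ∀ i ∈ S, ∀ t ∈ Icc t₀ (t₀ + H),
      ‖F i (pt (1 / 4) t) * Mo i (pt (1 / 4) t)‖ ^ 2 ≤ Y * ‖g i (pt (3 / 4) t)‖ ^ 2 := by
    intro i hi t ht
    have h1 := (hF i hi).fe (1 / 4) (by norm_num) le_rfl t
    have e0 : (1 / 2 - 1 / 4 : ℝ) = 1 / 4 := by norm_num
    have e0' : (1 / 2 + 1 / 4 : ℝ) = 3 / 4 := by norm_num
    rw [e0, e0'] at h1
    have e1 : pt (3 / 4) t - 1 / 2 = pt (1 / 4) t := by
      apply Complex.ext
      · simp; norm_num
      · simp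
    rw [hg, e1, norm_mul, norm_mul, mul_pow, mul_pow, ← mul_assoc]
    refine mul_le_mul_of_nonneg_right ?_ (sq_nonneg _)
    refine (pow_le_pow_left₀ (norm_nonneg _) h1 2).trans ?_
    rw [mul_pow]
    refine mul_le_mul_of_nonneg_right ?_ (sq_nonneg _)
    rw [mul_pow, mul_pow, hY, ← Real.exp_nat_mul]
    have e2 : ((2 : ℕ) : ℝ) * (R * (1 / 4)) = R / 2 := by push_cast; ring
    rw [e2]
    refine mul_le_mul_of_nonneg_left ?_ (by positivity)
    have h3 : 1 + |t| / T ≤ 2 * (1 + |t₀| / T) := by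
      have h4 : |t| ≤ |t₀| + T := by
        have : |t - t₀| ≤ T := by
          rw [abs_of_nonneg (by linarith [ht.1])]
          linarith [ht.2]
        have h5 := abs_add_le (t - t₀) t₀
        rw [sub_add_cancel] at h5
        linarith
      have h6 : |t| / T ≤ |t₀| / T + 1 := by
        rw [div_le_iff₀ hT0, add_mul, div_mul_cancel₀ _ hT0.ne']
        linarith
      have h7 : 0 ≤ |t₀| / T := by positivity
      linarith
    have h1t : 1 ≤ 1 + |t| / T := by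
      have : 0 ≤ |t| / T := by positivity
      linarith
    rw [← Real.rpow_natCast, ← Real.rpow_mul (by positivity), ← mul_pow]
    calc (1 + |t| / T) ^ ((n : ℝ) * (1 / 4) * (2 : ℕ)) ≤ (1 + |t| / T) ^ (n : ℝ) := by
          refine Real.rpow_le_rpow_of_exponent_le h1t ?_
          have : (0 : ℝ) ≤ n := Nat.cast_nonneg n
          push_cast
          nlinarith
      _ = (1 + |t| / T) ^ n := Real.rpow_natCast _ _
      _ ≤ _ := pow_le_pow_left₀ (by linarith) h3 n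
  have h1 : QQ S (fun i s => F i s * Mo i s) (1 / 4) H t₀ ≤
      ENNReal.ofReal Y * QQ S g (3 / 4) H t₀ := by
    unfold QQ
    rw [Finset.mul_sum]
    refine Finset.sum_le_sum fun i hi => ?_
    have hmeas : Measurable fun t : ℝ => ENNReal.ofReal (‖g i (pt (3 / 4) t)‖ ^ 2) :=
      Measurable.ennreal_ofReal
        ((((hgd i).continuous.comp (pt_cont _)).norm.pow 2).measurable)
    rw [← lintegral_const_mul _ hmeas]
    refine setLIntegral_mono' measurableSet_Icc fun t ht => ?_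
    rw [← ENNReal.ofReal_mul hY0]
    exact ENNReal.ofReal_le_ofReal (hpt i hi t ht)
  refine h1.trans ((mul_le_mul_right (hq2 t₀) _).trans ?_)
  rw [← ENNReal.ofReal_mul hY0]
  refine ENNReal.ofReal_le_ofReal ?_
  have e3 : Real.exp ((1 / 2 + β₂ + 3 * ε) * R) = Real.exp (R / 2) * Real.exp ((b + 2 * ε) * R) := by
    rw [← Real.exp_add, hb]
    congr 1
    ring
  have h2 := hΘ t₀ E'
  calc Y * (P * (D₂ * Real.exp ((b + 2 * ε) * R)) * (1 + |t₀| / T) ^ E) =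
      P * ((A ^ 2 * 2 ^ n * D₂) * Real.exp ((1 / 2 + β₂ + 3 * ε) * R)) * (1 + |t₀| / T) ^ E' := by
        rw [hY, e3, hE', pow_add]
        ring
    _ ≤ _ := by
        gcongr
        linarith

end

end Pool.Agent.T9h27.C
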