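import Pool.Agent.N786.D.Rgt

/-!
# The mean square at a point (helper27)
-/

set_option autoImplicit false
set_option linter.unusedSectionVars false

open MeasureTheory Complex Filter Topology Set

namespace Pool.Agent.T9h27.C

open Pool.Agent.N786.D
open Pool.Agent.R399.TW (pt pt_re pt_im pt_cont)

/-- the kernel is slowly varying -/
lemma kap_shift {B : ℕ} {r u v : ℝ} (hr : 0 < r) (h : |v - u| ≤ r) :
    kap B r v ≤ 3 ^ B * kap B r u := by
  unfold kap
  have h1 : (r ^ 2 + u ^ 2) ^ B ≤ 3 ^ B * (r ^ 2 + v ^ 2) ^ B := by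
    rw [← mul_pow]
    refine pow_le_pow_left₀ (by positivity) ?_ B
    have h2 : (v - u) ^ 2 ≤ r ^ 2 := by
      rw [← sq_abs (v - u)]
      exact pow_le_pow_left₀ (abs_nonneg _) h 2
    nlinarith [sq_nonneg (v + (v - u)), sq_nonneg (v - (v - u))]
  have h3 : 0 < (2 * r) ^ (2 * B - 1) := by positivity
  rw [mul_div_assoc', div_le_div_iff₀ (by positivity) (by positivity)]
  calc (2 * r) ^ (2 * B - 1) * (r ^ 2 + u ^ 2) ^ B ≤
      (2 * r) ^ (2 * B - 1) * (3 ^ B * (r ^ 2 + v ^ 2) ^ B) := by gcongr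
    _ = _ := by ring

lemma kap_pert {B : ℕ} {r r' w v : ℝ} (hr : 0 < r) (h1 : r / 2 ≤ r') (h2 : r' ≤ 3 / 2 * r)
    (hw : |w| ≤ r / 2) :
    kap B r' (v - w) ≤ ((3 / 2) ^ (2 * B - 1) * 6 ^ B) * kap B r v := by
  unfold kap
  have hr' : 0 < r' := by linarith
  have h3 : (r ^ 2 + v ^ 2) ^ B ≤ 6 ^ B * (r' ^ 2 + (v - w) ^ 2) ^ B := by
    rw [← mul_pow]
    refine pow_le_pow_left₀ (by positivity) ?_ B
    have h4 : w ^ 2 ≤ r' ^ 2 := by
      rw [← sq_abs w]
      exact pow_le_pow_left₀ (abs_nonneg _) (hw.trans h1) 2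
    have h5 : r ^ 2 ≤ 4 * r' ^ 2 := by nlinarith
    nlinarith [sq_nonneg (v - w - w)]
  have h4 : (2 * r') ^ (2 * B - 1) ≤ (3 / 2) ^ (2 * B - 1) * (2 * r) ^ (2 * B - 1) := by
    rw [← mul_pow]
    refine pow_le_pow_left₀ (by positivity) (by linarith) _
  rw [mul_div_assoc', div_le_div_iff₀ (by positivity) (by positivity)]
  calc (2 * r') ^ (2 * B - 1) * (r ^ 2 + v ^ 2) ^ B ≤
      ((3 / 2) ^ (2 * B - 1) * (2 * r) ^ (2 * B - 1)) *
        (6 ^ B * (r' ^ 2 + (v - w) ^ 2) ^ B) := by gcongr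
    _ = _ := by ring

/-- integrals against the kernel and windows -/
lemma win_int {g : ℝ → ENNReal} (hg : Measurable g) {B : ℕ} {r H : ℝ} (hH : 0 < H) (hHr : H ≤ r) :
    ∫⁻ v, ENNReal.ofReal (kap B r v) * g v ≤
      ENNReal.ofReal (3 ^ B / H) *
        ∫⁻ u, ENNReal.ofReal (kap B r u) * ∫⁻ w in Icc u (u + H), g w := by
  have hr : 0 < r := by linarith
  have hκc : Continuous (kap B r) := kap_cont B hr
  have hκ0 : ∀ v, 0 ≤ kap B r v := kap_nn B hr
  have h1 : ∀ v : ℝ, ENNReal.ofReal (kap B r v) ≤ ENNReal.ofReal (3 ^ B / H) *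
      ∫⁻ w in Icc 0 H, ENNReal.ofReal (kap B r (v - w)) := by
    intro v
    have h2 : ENNReal.ofReal (kap B r v / 3 ^ B) * ENNReal.ofReal H ≤
        ∫⁻ w in Icc 0 H, ENNReal.ofReal (kap B r (v - w)) := by
      have h3 : ∫⁻ _w in Icc (0 : ℝ) H, ENNReal.ofReal (kap B r v / 3 ^ B) =
          ENNReal.ofReal (kap B r v / 3 ^ B) * ENNReal.ofReal H := by
        rw [setLIntegral_const, Real.volume_Icc, sub_zero]
      rw [← h3]
      refine setLIntegral_mono' measurableSet_Icc fun w hw => ENNReal.ofReal_le_ofReal ?_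
      rw [div_le_iff₀ (by positivity), mul_comm]
      refine kap_shift hr ?_
      rw [sub_sub_cancel, abs_of_nonneg hw.1]
      exact hw.2.trans hHr
    refine le_trans (le_of_eq ?_) (mul_le_mul_right h2 _)
    rw [← ENNReal.ofReal_mul (by have := hκ0 v; positivity), ← ENNReal.ofReal_mul (by positivity)]
    congr 1
    field_simp
  have hm : Measurable (Function.uncurry fun v w : ℝ =>
      ENNReal.ofReal (kap B r (v - w)) * g v) := by
    refine Measurable.mul ?_ (hg.comp measurable_fst)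
    exact Measurable.ennreal_ofReal ((hκc.comp (by fun_prop : Continuous fun q : ℝ × ℝ =>
      q.1 - q.2)).measurable)
  have hm2 : ∀ v : ℝ, Measurable fun w : ℝ => ENNReal.ofReal (kap B r (v - w)) := fun v =>
    Measurable.ennreal_ofReal ((hκc.comp (by fun_prop : Continuous fun w : ℝ => v - w)).measurable)
  calc ∫⁻ v, ENNReal.ofReal (kap B r v) * g v ≤
      ∫⁻ v, ENNReal.ofReal (3 ^ B / H) *
        ∫⁻ w in Icc 0 H, ENNReal.ofReal (kap B r (v - w)) * g v := by
        refine lintegral_mono fun v => ?_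
        rw [lintegral_mul_const _ (hm2 v), ← mul_assoc]
        exact mul_le_mul_left (h1 v) _
    _ = ENNReal.ofReal (3 ^ B / H) *
        ∫⁻ v, ∫⁻ w in Icc 0 H, ENNReal.ofReal (kap B r (v - w)) * g v := by
        have hm3 : Measurable fun v : ℝ => ∫⁻ w in Icc 0 H,
            ENNReal.ofReal (kap B r (v - w)) * g v := hm.lintegral_prod_right'
        rw [lintegral_const_mul _ hm3]
    _ = ENNReal.ofReal (3 ^ B / H) *
        ∫⁻ w in Icc 0 H, ∫⁻ v, ENNReal.ofReal (kap B r (v - w)) * g v := by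
        rw [lintegral_lintegral_swap hm.aemeasurable]
    _ = ENNReal.ofReal (3 ^ B / H) *
        ∫⁻ w in Icc 0 H, ∫⁻ u, ENNReal.ofReal (kap B r u) * g (u + w) := by
        congr 1
        refine lintegral_congr fun w => ?_
        rw [← lintegral_add_right_eq_self (fun v => ENNReal.ofReal (kap B r (v - w)) * g v) w]
        refine lintegral_congr fun u => ?_
        rw [add_sub_cancel_right]
    _ = ENNReal.ofReal (3 ^ B / H) *
        ∫⁻ u, ∫⁻ w in Icc 0 H, ENNReal.ofReal (kap B r u) * g (u + w) := by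
        rw [lintegral_lintegral_swap]
        refine Measurable.aemeasurable (Measurable.mul ?_ ?_)
        · exact Measurable.ennreal_ofReal ((hκc.comp (by fun_prop : Continuous fun q : ℝ × ℝ =>
            q.2)).measurable)
        · exact hg.comp (measurable_snd.add measurable_fst)
    _ = _ := by
        congr 1
        refine lintegral_congr fun u => ?_
        have hm4 : Measurable fun w : ℝ => g (u + w) :=
          hg.comp (by fun_prop : Measurable fun w : ℝ => u + w)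
        rw [lintegral_const_mul _ hm4]
        congr 1
        have h4 := lint_shift g 0 H u
        rw [zero_add, zero_add] at h4
        rw [← h4]
        refine lintegral_congr fun w => ?_
        rw [add_comm]

/-- **the mean square at a point and near it** -/
theorem pnt_le {ι : Type} {I : Finset ι} {f : ι → ℂ → ℂ} (hf : ∀ i, Differentiable ℂ (f i))
    {a μ lam T H Q : ℝ} {m B E : ℕ} (hT : 1 ≤ T) (hQ : 0 ≤ Q) (hB : m + 3 ≤ 2 * B - 1)
    (hBE : E + 2 ≤ 2 * B) (hμ : 0 ≤ μ) (hml : μ < lam)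
    (hgr : ∀ i ∈ I, ∃ G : ℝ, ∀ z : ℂ, a ≤ z.re →
      ‖f i z‖ ≤ G * (1 + |z.im|) ^ m * Real.exp (-(lam * z.re)))
    (hms : ∀ t₀ : ℝ, QQ I f a H t₀ ≤ ENNReal.ofReal (Q * (1 + |t₀| / T) ^ E))
    {r : ℝ} (hr : 0 < r) (hr3 : r ≤ 3) (hH : 0 < H) (hHr : H ≤ r) (t₀ : ℝ) :
    ∃ Z : ι → ℝ, (∀ i, 0 ≤ Z i) ∧
      (∀ i ∈ I, ∀ s : ℂ, ‖s - pt (a + r) t₀‖ ≤ r / 2 →
        ‖f i s‖ ≤ (3 / 2) ^ (2 * B - 1) * 6 ^ B * Z i) ∧
      (∀ i ∈ I, ‖f i (pt (a + r) t₀)‖ ≤ Real.exp (-(μ * r)) * Z i) ∧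
      ∑ i ∈ I, Z i ^ 2 ≤ 3 ^ B / H * (cB B 0 * (3 ^ E * cB B E)) * Q * (1 + |t₀| / T) ^ E := by
  set κ := kap B r with hκ
  have hκc : Continuous κ := kap_cont B hr
  have hκ0 : ∀ v, 0 ≤ κ v := kap_nn B hr
  have hT0 : 0 < T := by linarith
  obtain ⟨k1, k2⟩ := kap_poly3 (B := B) (p := 0) (by omega) hr hr3
  simp only [pow_zero, mul_one, one_mul] at k1 k2
  obtain ⟨k3, k4⟩ := kap_poly3 (B := B) (p := E) hBE hr hr3
  rw [← hκ] at k1 k2 k3 k4
  obtain ⟨C0, hC0⟩ : ∃ C0 : ℝ, C0 = cB B 0 := ⟨_, rfl⟩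
  obtain ⟨C1, hC1⟩ : ∃ C1 : ℝ, C1 = 3 ^ E * cB B E := ⟨_, rfl⟩
  have hC00 : 0 ≤ C0 := by rw [hC0]; exact cB_nn B 0
  have hC10 : 0 ≤ C1 := by rw [hC1]; have := cB_nn B E; positivity
  rw [← hC0] at k2
  rw [← hC1] at k4
  rw [← hC0, ← hC1]
  have hfc : ∀ i, Continuous fun t : ℝ => ‖f i (pt a t)‖ := fun i =>
    ((hf i).continuous.comp (pt_cont _)).norm
  have hfi : ∀ i ∈ I, Integrable fun v : ℝ => ‖f i (pt a (t₀ + v))‖ * κ v := by
    intro i hi
    obtain ⟨G, hG⟩ := hgr i hi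
    obtain ⟨i1, -⟩ := cauchy_le (hf i) hB hml hG (s := pt (a + r) t₀) (by rw [pt_re]; linarith)
    have e0 : (pt (a + r) t₀).re - a = r := by rw [pt_re]; ring
    rw [e0, pt_im, ← hκ] at i1
    exact i1
  refine ⟨fun i => ∫ v : ℝ, ‖f i (pt a (t₀ + v))‖ * κ v, fun i => integral_nonneg fun v =>
    mul_nonneg (norm_nonneg _) (hκ0 v), ?_, ?_, ?_⟩
  · intro i hi s hs
    obtain ⟨G, hG⟩ := hgr i hi
    have h1 := Complex.abs_re_le_norm (s - pt (a + r) t₀)
    have h2 := Complex.abs_im_le_norm (s - pt (a + r) t₀)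
    have h3 : (s - pt (a + r) t₀).re = s.re - a - r := by rw [Complex.sub_re, pt_re]; ring
    have h4 : (s - pt (a + r) t₀).im = s.im - t₀ := by rw [Complex.sub_im, pt_im]
    rw [h3] at h1
    rw [h4] at h2
    have h5 := abs_le.mp (h1.trans hs)
    have h6 := h2.trans hs
    obtain ⟨i1, i2⟩ := cauchy_le (hf i) hB hml hG (s := s) (by linarith)
    have e1 : ∀ v : ℝ, ‖f i (pt a (s.im + (v - (s.im - t₀))))‖ * kap B (s.re - a) (v - (s.im - t₀)) =
        ‖f i (pt a (t₀ + v))‖ * kap B (s.re - a) (v - (s.im - t₀)) := by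
      intro v
      congr 4
      ring
    have e2 := integral_sub_right_eq_self (fun v : ℝ => ‖f i (pt a (s.im + v))‖ *
      kap B (s.re - a) v) (s.im - t₀) (μ := volume)
    simp only [e1] at e2
    have i3 := i1.comp_sub_right (s.im - t₀)
    simp only [e1] at i3
    rw [← e2] at i2
    have h7 : Real.exp (-(μ * (s.re - a))) ≤ 1 := by
      rw [Real.exp_le_one_iff]
      have : 0 ≤ μ * (s.re - a) := mul_nonneg hμ (by linarith)
      linarith
    have h8 : ∫ v : ℝ, ‖f i (pt a (t₀ + v))‖ * kap B (s.re - a) (v - (s.im - t₀)) ≤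
        (3 / 2) ^ (2 * B - 1) * 6 ^ B * ∫ v : ℝ, ‖f i (pt a (t₀ + v))‖ * κ v := by
      rw [← integral_const_mul]
      refine integral_mono i3 ((hfi i hi).const_mul _) fun v => ?_
      have h9 := kap_pert (B := B) (v := v) hr (by linarith : r / 2 ≤ s.re - a)
        (by linarith : s.re - a ≤ 3 / 2 * r) h6
      rw [← hκ] at h9
      calc ‖f i (pt a (t₀ + v))‖ * kap B (s.re - a) (v - (s.im - t₀)) ≤
          ‖f i (pt a (t₀ + v))‖ * ((3 / 2) ^ (2 * B - 1) * 6 ^ B * κ v) :=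
            mul_le_mul_of_nonneg_left h9 (norm_nonneg _)
        _ = _ := by ring
    refine i2.trans ((mul_le_of_le_one_left ?_ h7).trans h8)
    exact integral_nonneg fun v => mul_nonneg (norm_nonneg _) (kap_nn B (by linarith) _)
  · intro i hi
    obtain ⟨G, hG⟩ := hgr i hi
    obtain ⟨i1, i2⟩ := cauchy_le (hf i) hB hml hG (s := pt (a + r) t₀) (by rw [pt_re]; linarith)
    have e0 : (pt (a + r) t₀).re - a = r := by rw [pt_re]; ring
    rw [e0, pt_im, ← hκ] at i2
    exact i2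
  · have hcs : ∀ i ∈ I, ENNReal.ofReal ((∫ v : ℝ, ‖f i (pt a (t₀ + v))‖ * κ v) ^ 2) ≤
        ENNReal.ofReal C0 * ∫⁻ v, ENNReal.ofReal (κ v) *
          ENNReal.ofReal (‖f i (pt a (t₀ + v))‖ ^ 2) := by
      intro i hi
      have h1 := csE (f := fun v => ‖f i (pt a (t₀ + v))‖) (w := κ)
        ((hfc i).comp (by fun_prop : Continuous fun v : ℝ => t₀ + v))
        (fun v => norm_nonneg _) hκ0 k1 hκc (hfi i hi)
      refine h1.trans ?_
      have e6 : ENNReal.ofReal (∫ v, κ v) ≤ ENNReal.ofReal C0 := ENNReal.ofReal_le_ofReal k2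
      refine mul_le_mul' e6 (le_of_eq ?_)
      refine lintegral_congr fun v => ?_
      rw [← ENNReal.ofReal_mul (hκ0 v), mul_comm]
    have hgm : ∀ i, Measurable fun v : ℝ => ENNReal.ofReal (‖f i (pt a (t₀ + v))‖ ^ 2) :=
      fun i => Measurable.ennreal_ofReal
        (((hfc i).comp (by fun_prop : Continuous fun v : ℝ => t₀ + v)).pow 2).measurable
    have hsum : ∑ i ∈ I, ∫⁻ v, ENNReal.ofReal (κ v) *
        ENNReal.ofReal (‖f i (pt a (t₀ + v))‖ ^ 2) =
        ∫⁻ v, ENNReal.ofReal (κ v) * ∑ i ∈ I, ENNReal.ofReal (‖f i (pt a (t₀ + v))‖ ^ 2) := by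
      rw [← lintegral_finsetSum' _ fun i _ => ?_]
      · refine lintegral_congr fun v => ?_
        rw [Finset.mul_sum]
      · exact ((hκc.measurable.ennreal_ofReal).mul (hgm i)).aemeasurable
    have hwin := win_int (g := fun v => ∑ i ∈ I, ENNReal.ofReal (‖f i (pt a (t₀ + v))‖ ^ 2))
      (Finset.measurable_fun_sum _ fun i _ => hgm i) (B := B) hH hHr
    rw [← hκ] at hwin
    have hW : ∀ u : ℝ, ∫⁻ w in Icc u (u + H), ∑ i ∈ I,
        ENNReal.ofReal (‖f i (pt a (t₀ + w))‖ ^ 2) ≤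
        ENNReal.ofReal (Q * (1 + |t₀| / T) ^ E * (2 + |u|) ^ E) := by
      intro u
      have e1 : ∫⁻ w in Icc u (u + H), ∑ i ∈ I,
          ENNReal.ofReal (‖f i (pt a (t₀ + w))‖ ^ 2) = QQ I f a H (t₀ + u) := by
        rw [lintegral_finsetSum' _ fun i _ => (hgm i).aemeasurable]
        unfold QQ
        refine Finset.sum_congr rfl fun i _ => ?_
        have h2 := lint_shift (fun t => ENNReal.ofReal (‖f i (pt a t)‖ ^ 2)) u H t₀
        rw [add_comm t₀ u, ← h2]
        refine lintegral_congr fun w => ?_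
        rw [add_comm]
      rw [e1]
      refine (hms (t₀ + u)).trans (ENNReal.ofReal_le_ofReal ?_)
      have e4 := theta_shift hT t₀ u
      have e5 : (1 + |t₀ + u| / T) ^ E ≤ (1 + |t₀| / T) ^ E * (2 + |u|) ^ E := by
        rw [← mul_pow]
        refine pow_le_pow_left₀ (by positivity) (e4.trans ?_) E
        gcongr
        norm_num
      rw [mul_assoc]
      exact mul_le_mul_of_nonneg_left e5 hQ
    have hfin : ∫⁻ u, ENNReal.ofReal (κ u) * ∫⁻ w in Icc u (u + H), ∑ i ∈ I,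
        ENNReal.ofReal (‖f i (pt a (t₀ + w))‖ ^ 2) ≤
        ENNReal.ofReal (Q * (1 + |t₀| / T) ^ E * C1) := by
      have h1 : ∀ u : ℝ, ENNReal.ofReal (κ u) * ∫⁻ w in Icc u (u + H), ∑ i ∈ I,
          ENNReal.ofReal (‖f i (pt a (t₀ + w))‖ ^ 2) ≤
          ENNReal.ofReal (Q * (1 + |t₀| / T) ^ E * (κ u * (2 + |u|) ^ E)) := by
        intro u
        refine (mul_le_mul_right (hW u) _).trans (le_of_eq ?_)
        rw [← ENNReal.ofReal_mul (hκ0 u)]
        congr 1
        ring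
      refine (lintegral_mono h1).trans ?_
      have hn : ∀ v : ℝ, 0 ≤ Q * (1 + |t₀| / T) ^ E * (κ v * (2 + |v|) ^ E) := fun v => by
        have := hκ0 v
        positivity
      rw [← ofReal_integral_eq_lintegral_ofReal (k3.const_mul _) (Eventually.of_forall hn),
        integral_const_mul]
      exact ENNReal.ofReal_le_ofReal (mul_le_mul_of_nonneg_left k4 (by positivity))
    have htot : ENNReal.ofReal (∑ i ∈ I, (∫ v : ℝ, ‖f i (pt a (t₀ + v))‖ * κ v) ^ 2) ≤
        ENNReal.ofReal (3 ^ B / H * (C0 * C1) * Q * (1 + |t₀| / T) ^ E) := by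
      rw [ENNReal.ofReal_sum_of_nonneg fun i _ => sq_nonneg _]
      refine (Finset.sum_le_sum hcs).trans ?_
      rw [← Finset.mul_sum, hsum]
      refine (mul_le_mul_right (hwin.trans (mul_le_mul_right hfin _)) _).trans (le_of_eq ?_)
      rw [← ENNReal.ofReal_mul (by positivity), ← ENNReal.ofReal_mul hC00]
      congr 1
      ring
    exact (ENNReal.ofReal_le_ofReal_iff (by positivity)).mp htot

end Pool.Agent.T9h27.C
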