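import Pool.Agent.T9h27.C.Far
import Pool.Agent.T9h27.C.Pnt

/-!
# The first moment of the mollified values and non-vanishing (helper27)
-/

set_option autoImplicit false
set_option linter.unusedSectionVars false

open UniqueFactorizationMonoid MeasureTheory Complex Filter Topology Set

namespace Pool.Agent.T9h27.C

open Pool.Agent.N786.D
open Pool.Agent.T9h27.D
open Pool.Agent.R399.TW (pt pt_re pt_im pt_cont)

section

variable {M : Type} [CommMonoidWithZero M] [NormalizationMonoid M] [UniqueFactorizationMonoid M]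
  [Subsingleton Mˣ] [Nontrivial M] {N : M →*₀ ℕ} {n₀ : ℕ}

open Classical in
/-- the off-diagonal terms of the first moment -/
noncomputable def Off (N : M →*₀ ℕ) {ι : Type} (S : Finset ι) (χ : ι → M →*₀ ℂ) (X Y : ℕ)
    (σ : ℝ) : ℝ :=
  ∑ p ∈ (SI N X ×ˢ SI N Y).filter (fun p => p ≠ (1, 1)),
    ‖∑ i ∈ S, χ i (p.1 * p.2)‖ * Real.exp (-(σ * (lN N p.1 + lN N p.2)))

lemma mob_1 : mob (1 : M) = 1 := by
  classical
  unfold mob
  rw [if_pos radical_one]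
  have : primeFactors (1 : M) = ∅ := by
    rw [Finset.eq_empty_iff_forall_notMem]
    intro p hp
    unfold primeFactors at hp
    rw [Multiset.mem_toFinset, normalizedFactors_one] at hp
    exact absurd hp (Multiset.notMem_zero p)
  rw [this]
  simp

open Classical in
/-- the first moment of the Dirichlet polynomials -/
lemma off_le (hN : NS N n₀) {α₁ α₂ β₁ β₂ : ℝ} {φ θ : ℝ → ℝ} (hφ : Cutf α₁ α₂ φ)
    (hθ : Cutf β₁ β₂ θ) (hα : 0 ≤ α₁) (hβ : 0 ≤ β₁) {R : ℝ} {ι : Type} (S : Finset ι)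
    (χ : ι → M →*₀ ℂ) {X Y : ℕ} (hX : 1 ≤ X) (hY : 1 ≤ Y) (s : ℂ) :
    ‖∑ i ∈ S, (Dp N φ R X (χ i) s * Mp N θ R Y (χ i) s - 1)‖ ≤ Off N S χ X Y s.re := by
  obtain ⟨c, hc⟩ : ∃ c : M × M → ℂ, ∀ p, c p = (φ (lN N p.1 / R) : ℂ) *
    (mob p.2 * (θ (lN N p.2 / R) : ℂ)) := ⟨_, fun _ => rfl⟩
  obtain ⟨w, hw⟩ : ∃ w : M × M → ℂ, ∀ p, w p = cexp (-(s * (lN N p.1 : ℂ))) *
    cexp (-(s * (lN N p.2 : ℂ))) := ⟨_, fun _ => rfl⟩
  have hN1 : N (1 : M) = 1 := map_one N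
  have hl1 : lN N (1 : M) = 0 := by unfold lN; rw [hN1]; simp
  have h1 : ∀ i, Dp N φ R X (χ i) s * Mp N θ R Y (χ i) s =
      ∑ p ∈ SI N X ×ˢ SI N Y, c p * χ i (p.1 * p.2) * w p := by
    intro i
    unfold Dp Mp dpo
    rw [Finset.sum_mul_sum, Finset.sum_product]
    refine Finset.sum_congr rfl fun a _ => Finset.sum_congr rfl fun b _ => ?_
    rw [hc, hw, map_mul]
    ring
  have hmem : ((1, 1) : M × M) ∈ SI N X ×ˢ SI N Y := by
    rw [Finset.mem_product]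
    exact ⟨hN.mem_SI.mpr ⟨by rw [hN1], by rw [hN1]; exact hX⟩,
      hN.mem_SI.mpr ⟨by rw [hN1], by rw [hN1]; exact hY⟩⟩
  have h2 : ∀ i, c (1, 1) * χ i (((1, 1) : M × M).1 * ((1, 1) : M × M).2) * w (1, 1) = 1 := by
    intro i
    rw [hc, hw]
    simp only [hl1, zero_div, mul_one, map_one, mob_1, one_mul]
    rw [hφ.one 0 (by rw [abs_zero]; exact hα), hθ.one 0 (by rw [abs_zero]; exact hβ)]
    simp
  have h3 : ∀ i, Dp N φ R X (χ i) s * Mp N θ R Y (χ i) s - 1 =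
      ∑ p ∈ (SI N X ×ˢ SI N Y).filter (fun p => p ≠ (1, 1)), c p * χ i (p.1 * p.2) * w p := by
    intro i
    rw [h1, ← Finset.sum_filter_add_sum_filter_not (SI N X ×ˢ SI N Y) (fun p => p ≠ (1, 1))]
    have h4 : (SI N X ×ˢ SI N Y).filter (fun p => ¬ p ≠ (1, 1)) = {(1, 1)} := by
      ext p
      rw [Finset.mem_filter, Finset.mem_singleton, not_not]
      constructor
      · exact fun h => h.2
      · rintro rfl
        exact ⟨hmem, rfl⟩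
    rw [h4, Finset.sum_singleton, h2]
    ring
  rw [Finset.sum_congr rfl fun i _ => h3 i, Finset.sum_comm]
  unfold Off
  refine (norm_sum_le _ _).trans (Finset.sum_le_sum fun p hp => ?_)
  have h5 : ∑ i ∈ S, c p * χ i (p.1 * p.2) * w p = c p * (∑ i ∈ S, χ i (p.1 * p.2)) * w p := by
    rw [Finset.mul_sum, Finset.sum_mul]
  rw [h5, norm_mul, norm_mul]
  have h6 : ‖c p‖ ≤ 1 := by
    rw [hc, norm_mul, norm_mul, Complex.norm_real, Complex.norm_real,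
      Real.norm_of_nonneg (hφ.nn _), Real.norm_of_nonneg (hθ.nn _)]
    exact mul_le_one₀ (hφ.le _) (mul_nonneg (norm_nonneg _) (hθ.nn _))
      (mul_le_one₀ (mob_le _) (hθ.nn _) (hθ.le _))
  have h7 : ‖w p‖ = Real.exp (-(s.re * (lN N p.1 + lN N p.2))) := by
    rw [hw, norm_mul, Complex.norm_exp, Complex.norm_exp, ← Real.exp_add]
    congr 1
    simp
    ring
  rw [h7]
  refine mul_le_mul_of_nonneg_right ?_ (Real.exp_pos _).le
  exact mul_le_of_le_one_left (norm_nonneg _) h6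

lemma lN_floor (hN : NS N n₀) {x : ℝ} {a : M} (ha : a ∈ SI N ⌊Real.exp x⌋₊) : lN N a ≤ x := by
  have hNa : 0 < (N a : ℝ) := by exact_mod_cast hN.pos (hN.SI_ne ha)
  have h8 : (N a : ℝ) ≤ Real.exp x :=
    le_trans (by exact_mod_cast (hN.mem_SI.mp ha).2) (Nat.floor_le (Real.exp_pos _).le)
  unfold lN
  rw [Real.log_le_iff_le_exp hNa]
  exact h8

open Classical in
lemma Off_quarter (hN : NS N n₀) {ι : Type} (S : Finset ι) (χ : ι → M →*₀ ℂ) (x y : ℝ) :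
    Off N S χ ⌊Real.exp x⌋₊ ⌊Real.exp y⌋₊ (1 / 4) ≤
      Real.exp ((x + y) / 4) * Off N S χ ⌊Real.exp x⌋₊ ⌊Real.exp y⌋₊ (1 / 2) := by
  unfold Off
  rw [Finset.mul_sum]
  refine Finset.sum_le_sum fun p hp => ?_
  rw [Finset.mem_filter, Finset.mem_product] at hp
  have h1 := lN_floor hN hp.1.1
  have h2 := lN_floor hN hp.1.2
  have h3 : Real.exp (-(1 / 4 * (lN N p.1 + lN N p.2))) ≤
      Real.exp ((x + y) / 4) * Real.exp (-(1 / 2 * (lN N p.1 + lN N p.2))) := by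
    rw [← Real.exp_add]
    refine Real.exp_le_exp.mpr ?_
    linarith
  calc _ ≤ ‖∑ i ∈ S, χ i (p.1 * p.2)‖ * (Real.exp ((x + y) / 4) *
        Real.exp (-(1 / 2 * (lN N p.1 + lN N p.2)))) :=
        mul_le_mul_of_nonneg_left h3 (norm_nonneg _)
    _ = _ := by ring

lemma Off_nn {ι : Type} (S : Finset ι) (χ : ι → M →*₀ ℂ) (X Y : ℕ) (σ : ℝ) :
    0 ≤ Off N S χ X Y σ := by
  unfold Off
  exact Finset.sum_nonneg fun _ _ => mul_nonneg (norm_nonneg _) (Real.exp_pos _).le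

/-- **the first moment** -/
theorem fst_mom (hN : NS N n₀) {e : ℝ} (he : 0 < e) {G' : ℝ}
    (hG : Wgt (wN N n₀) (fun k => ((n₀ : ℝ) * k + 1) ^ n₀) G') {g A : ℝ} {φ φ₁ θ : ℝ → ℝ}
    (hg : 0 < g) (hg1 : g ≤ 1 / 24)
    (hφ : Cutf (1 / 2 + 2 * g) (1 / 2 + 3 * g) φ) (hφ₁ : Cutf (1 + 10 * g) (1 + 11 * g) φ₁)
    (hθ : Cutf g (2 * g) θ) (hA : 1 ≤ A) (n : ℕ) (hn : 1 ≤ n) :
    ∃ (C R₀ : ℝ), 0 < C ∧ 1 ≤ R₀ ∧
    ∀ (R T H P₀ : ℝ) (ι : Type) (S : Finset ι) (χ : ι → M →*₀ ℂ)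
      (F : ι → ℂ → ℂ), R₀ ≤ R → 1 ≤ T → 0 < H → H ≤ 1 / 4 → (S.card : ℝ) ≤ P₀ →
      LSU N S χ H (P₀ * H) e (⌊Real.exp ((1 / 2 + 3 * g) * R)⌋₊ * ⌊Real.exp ((2 * g) * R)⌋₊) →
      (∀ lam, Differentiable ℂ (F lam)) → (∀ lam ∈ S, GLf N A T R n (χ lam) (F lam)) →
      Off N S χ ⌊Real.exp ((1 + 11 * g) * R)⌋₊ ⌊Real.exp ((2 * g) * R)⌋₊ (1 / 2) ≤
        P₀ * Real.exp (-(2 * g * R)) →
      ∀ t₀ : ℝ, |t₀| ≤ T →
      ‖∑ i ∈ S, (F i (pt (1 / 2) t₀) *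
        Mp N θ R ⌊Real.exp ((2 * g) * R)⌋₊ (χ i) (pt (1 / 2) t₀) - 1)‖ ≤
        P₀ * (C * Real.exp (-(g / 2 * R))) := by
  obtain ⟨C₁, R₀, E, hC₁, hR₀, hfar⟩ := mean_far hN he hG (α' := 1 / 2 + g) (ε := g / 2) hφ hθ
    (by linarith) (by linarith) (by linarith) (by linarith) (by linarith) (by linarith) hA n hn
  obtain ⟨B, hB⟩ : ∃ B : ℕ, B = n + E + 3 := ⟨_, rfl⟩
  obtain ⟨C₂, hC₂⟩ : ∃ C₂ : ℝ, C₂ = 3 ^ B * (cB B 0 * (3 ^ E * cB B E)) * 2 ^ E := ⟨_, rfl⟩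
  have hC₂0 : 0 ≤ C₂ := by
    rw [hC₂]
    have := cB_nn B 0
    have := cB_nn B E
    positivity
  obtain ⟨C₃, hC₃⟩ : ∃ C₃ : ℝ, C₃ = Real.sqrt (C₂ * (2 * C₁ + 8)) := ⟨_, rfl⟩
  refine ⟨C₃ + 1, R₀, by rw [hC₃]; positivity, hR₀, ?_⟩
  intro R T H P₀ ι S χ F hR hT hH0 hH1 hP hls hFd hF hoff t₀ ht₀
  have hRone : 1 ≤ R := hR₀.trans hR
  have hR0 : 0 < R := by linarith
  have hT0 : 0 < T := by linarith
  have hP0 : 0 ≤ P₀ := le_trans (Nat.cast_nonneg _) hP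
  obtain ⟨X, hX⟩ : ∃ X : ℕ, X = ⌊Real.exp ((1 + 11 * g) * R)⌋₊ := ⟨_, rfl⟩
  obtain ⟨Y, hY⟩ : ∃ Y : ℕ, Y = ⌊Real.exp ((2 * g) * R)⌋₊ := ⟨_, rfl⟩
  have hX1 : 1 ≤ X := by
    rw [hX]
    refine Nat.le_floor ?_
    rw [Nat.cast_one]
    exact Real.one_le_exp (by positivity)
  have hY1 : 1 ≤ Y := by
    rw [hY]
    refine Nat.le_floor ?_
    rw [Nat.cast_one]
    exact Real.one_le_exp (by positivity)
  have hq := Off_quarter hN S χ ((1 + 11 * g) * R) ((2 * g) * R)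
  rw [← hX, ← hY] at hoff hq
  rw [← hY]
  rw [← hY] at hls
  obtain ⟨O₂, hO₂⟩ : ∃ O₂ : ℝ, O₂ = Off N S χ X Y (1 / 2) := ⟨_, rfl⟩
  obtain ⟨O₄, hO₄⟩ : ∃ O₄ : ℝ, O₄ = Off N S χ X Y (1 / 4) := ⟨_, rfl⟩
  rw [← hO₂] at hoff
  rw [← hO₂, ← hO₄] at hq
  have hO₂0 : 0 ≤ O₂ := by rw [hO₂]; exact Off_nn _ _ _ _ _
  have hO₄0 : 0 ≤ O₄ := by rw [hO₄]; exact Off_nn _ _ _ _ _
  set Mo : ι → ℂ → ℂ := fun i => Mp N θ R Y (χ i) with hMo
  set Do : ι → ℂ → ℂ := fun i => Dp N φ₁ R X (χ i) with hDo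
  have hMd : ∀ i, Differentiable ℂ (Mo i) := fun i => dpo_diff _ _ _ _
  have hDd : ∀ i, Differentiable ℂ (Do i) := fun i => dpo_diff _ _ _ _
  -- the second part
  obtain ⟨h, hh⟩ : ∃ h : ℂ → ℂ, ∀ s, h s = ∑ i ∈ S, (F i s - Do i s) * Mo i s := ⟨_, fun _ => rfl⟩
  have hhd : Differentiable ℂ h := by
    have : h = fun s => ∑ i ∈ S, (F i s - Do i s) * Mo i s := funext hh
    rw [this]
    exact Differentiable.fun_sum fun i _ => ((hFd i).sub (hDd i)).mul (hMd i)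
  have hdec : ∀ s, h s = ∑ i ∈ S, F i s * Mo i s - (S.card + ∑ i ∈ S, (Do i s * Mo i s - 1)) := by
    intro s
    rw [hh]
    simp only [sub_mul, Finset.sum_sub_distrib, Finset.sum_const, nsmul_eq_mul, mul_one]
    ring
  have hgr : ∀ i ∈ (Finset.univ : Finset Unit), ∃ G : ℝ, ∀ z : ℂ, 1 / 4 ≤ z.re →
      ‖h z‖ ≤ G * (1 + |z.im|) ^ n * Real.exp (-(((1 + 10 * g) * R) * z.re)) := by
    intro _ _
    have h1 : ∀ i ∈ S, ∃ G : ℝ, ∀ z : ℂ, 1 / 4 ≤ z.re → ‖(F i z - Do i z) * Mo i z‖ ≤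
        G * (1 + |z.im|) ^ n * Real.exp (-(((1 + 10 * g) * R) * z.re)) := by
      intro i hi
      obtain ⟨G₁, h2⟩ := grow_diff hN hφ₁ (by linarith) hR0 hT hA (hF i hi)
      obtain ⟨G₂, hG₂, h3⟩ := dpo_bdd N Y (fun a => mob a * (θ (lN N a / R) : ℂ)) (χ i)
      refine ⟨G₁ * G₂, fun z hz => ?_⟩
      have h4 := h2 z hz
      rw [← hX, norm_sub_rev] at h4
      rw [norm_mul]
      calc ‖F i z - Do i z‖ * ‖Mo i z‖ ≤
          (G₁ * (1 + |z.im|) ^ n * Real.exp (-((1 + 10 * g) * R * z.re))) * G₂ :=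
            mul_le_mul h4 (h3 z (by linarith)) (norm_nonneg _) ((norm_nonneg _).trans h4)
        _ = _ := by ring
    choose! G hG' using h1
    refine ⟨∑ i ∈ S, G i, fun z hz => ?_⟩
    rw [hh, Finset.sum_mul, Finset.sum_mul]
    exact (norm_sum_le _ _).trans (Finset.sum_le_sum fun i hi => hG' i hi z hz)
  -- the mean square on the line 1/4
  obtain ⟨W, hW⟩ : ∃ W : ℝ, W = Real.exp ((1 / 2 + 2 * g + 3 * (g / 2)) * R) := ⟨_, rfl⟩
  have hW1 : 1 ≤ W := by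
    rw [hW]
    exact Real.one_le_exp (by positivity)
  have hms : ∀ t : ℝ, QQ (Finset.univ : Finset Unit) (fun _ => h) (1 / 4) H t ≤
      ENNReal.ofReal ((H * ((2 * C₁ + 4) * (P₀ ^ 2 * W) + 4 * O₄ ^ 2)) * (1 + |t| / T) ^ E) := by
    intro t
    have h1 := hfar R T H (P₀ * H) ι S χ F hR hT hH0.le (by linarith)
      (mul_le_mul_of_nonneg_right hP hH0.le) (by rw [← hY]; exact hls) hFd hF t
    rw [← hY, ← hW] at h1
    have hpt : ∀ τ : ℝ, ENNReal.ofReal (‖h (pt (1 / 4) τ)‖ ^ 2) ≤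
        ENNReal.ofReal (2 * S.card) *
          (∑ i ∈ S, ENNReal.ofReal (‖F i (pt (1 / 4) τ) * Mo i (pt (1 / 4) τ)‖ ^ 2)) +
        ENNReal.ofReal (4 * P₀ ^ 2 + 4 * O₄ ^ 2) := by
      intro τ
      rw [← ENNReal.ofReal_sum_of_nonneg (fun i _ => sq_nonneg _),
        ← ENNReal.ofReal_mul (by positivity), ← ENNReal.ofReal_add (by positivity) (by positivity)]
      refine ENNReal.ofReal_le_ofReal ?_
      have k1 : ‖∑ i ∈ S, F i (pt (1 / 4) τ) * Mo i (pt (1 / 4) τ)‖ ^ 2 ≤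
          S.card * ∑ i ∈ S, ‖F i (pt (1 / 4) τ) * Mo i (pt (1 / 4) τ)‖ ^ 2 := by
        refine (pow_le_pow_left₀ (norm_nonneg _) (norm_sum_le _ _) 2).trans ?_
        exact sq_sum_le_card_mul_sum_sq
      have k2 : ‖(S.card + ∑ i ∈ S, (Do i (pt (1 / 4) τ) * Mo i (pt (1 / 4) τ) - 1) : ℂ)‖ ≤
          P₀ + O₄ := by
        refine (norm_add_le _ _).trans (add_le_add ?_ ?_)
        · rw [Complex.norm_natCast]
          exact hP
        · have := off_le hN hφ₁ hθ (by linarith) hg.le (R := R) S χ hX1 hY1 (pt (1 / 4) τ)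
          rw [pt_re, ← hO₄] at this
          exact this
      rw [hdec]
      have k3 := norm_sub_le (∑ i ∈ S, F i (pt (1 / 4) τ) * Mo i (pt (1 / 4) τ))
        (S.card + ∑ i ∈ S, (Do i (pt (1 / 4) τ) * Mo i (pt (1 / 4) τ) - 1))
      have k4 := pow_le_pow_left₀ (norm_nonneg _) (k3.trans (add_le_add le_rfl k2)) 2
      refine k4.trans ?_
      obtain ⟨x, hx⟩ : ∃ x : ℝ, x = ‖∑ i ∈ S, F i (pt (1 / 4) τ) * Mo i (pt (1 / 4) τ)‖ := ⟨_, rfl⟩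
      rw [← hx] at k1 ⊢
      have k5 : (x + (P₀ + O₄)) ^ 2 ≤ 2 * x ^ 2 + 2 * (P₀ + O₄) ^ 2 := by
        nlinarith [sq_nonneg (x - (P₀ + O₄))]
      have k6 : (P₀ + O₄) ^ 2 ≤ 2 * P₀ ^ 2 + 2 * O₄ ^ 2 := by nlinarith [sq_nonneg (P₀ - O₄)]
      linarith
    have hmeas : ∀ i, Measurable fun τ : ℝ =>
        ENNReal.ofReal (‖F i (pt (1 / 4) τ) * Mo i (pt (1 / 4) τ)‖ ^ 2) := fun i => by
      refine Measurable.ennreal_ofReal (Continuous.measurable ?_)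
      exact ((((hFd i).continuous.comp (pt_cont _)).mul
        ((hMd i).continuous.comp (pt_cont _))).norm.pow 2)
    have h2 : QQ (Finset.univ : Finset Unit) (fun _ => h) (1 / 4) H t ≤
        ENNReal.ofReal (2 * S.card) * QQ S (fun i s => F i s * Mo i s) (1 / 4) H t +
          ENNReal.ofReal ((4 * P₀ ^ 2 + 4 * O₄ ^ 2) * H) := by
      unfold QQ
      rw [Finset.univ_unique, Finset.sum_singleton]
      refine (lintegral_mono hpt).trans ?_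
      rw [lintegral_add_left ((Finset.measurable_fun_sum _ fun i _ => hmeas i).const_mul _),
        lintegral_const_mul _ (Finset.measurable_fun_sum _ fun i _ => hmeas i),
        lintegral_finsetSum' _ fun i _ => (hmeas i).aemeasurable,
        setLIntegral_const, Real.volume_Icc, ← ENNReal.ofReal_mul (by positivity)]
      refine add_le_add le_rfl (ENNReal.ofReal_le_ofReal (le_of_eq ?_))
      ring
    refine h2.trans ((add_le_add (mul_le_mul_right h1 _) le_rfl).trans ?_)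
    rw [← ENNReal.ofReal_mul (by positivity), ← ENNReal.ofReal_add (by positivity) (by positivity)]
    refine ENNReal.ofReal_le_ofReal ?_
    have hΘ : 1 ≤ (1 + |t| / T) ^ E := one_le_pow₀ (by
      have : 0 ≤ |t| / T := by positivity
      linarith)
    have k1 : 2 * (S.card : ℝ) * (P₀ * H * (C₁ * W) * (1 + |t| / T) ^ E) ≤
        2 * P₀ * (P₀ * H * (C₁ * W) * (1 + |t| / T) ^ E) := by gcongr
    have k2 : (4 * P₀ ^ 2 + 4 * O₄ ^ 2) * H ≤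
        (4 * (P₀ ^ 2 * W) + 4 * O₄ ^ 2) * H * (1 + |t| / T) ^ E := by
      calc (4 * P₀ ^ 2 + 4 * O₄ ^ 2) * H = (4 * (P₀ ^ 2 * 1) + 4 * O₄ ^ 2) * H * 1 := by ring
        _ ≤ _ := by gcongr
    refine (add_le_add k1 k2).trans (le_of_eq ?_)
    ring
  obtain ⟨Z, hZ0, -, hZ1, hZ2⟩ := pnt_le (I := (Finset.univ : Finset Unit)) (f := fun _ => h)
    (fun _ => hhd) (a := 1 / 4) (μ := (1 + 9 * g) * R) (lam := (1 + 10 * g) * R) (T := T) (H := H)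
    (Q := H * ((2 * C₁ + 4) * (P₀ ^ 2 * W) + 4 * O₄ ^ 2)) (m := n) (B := B) (E := E) hT
    (by positivity) (by omega) (by omega) (by positivity) (by nlinarith) hgr hms
    (r := 1 / 4) (by norm_num) (by norm_num) hH0 hH1 t₀
  have e1 : pt (1 / 4 + 1 / 4) t₀ = pt (1 / 2) t₀ := by
    congr 1
    norm_num
  rw [e1] at hZ1
  have hz := hZ1 () (Finset.mem_univ _)
  rw [Finset.univ_unique, Finset.sum_singleton] at hZ2
  change Z () ^ 2 ≤ _ at hZ2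
  obtain ⟨z, hz'⟩ : ∃ z : ℝ, z = Z () := ⟨_, rfl⟩
  have hz0 : 0 ≤ z := by rw [hz']; exact hZ0 ()
  rw [← hz'] at hz hZ2
  have hΘ : (1 + |t₀| / T) ^ E ≤ 2 ^ E := by
    refine pow_le_pow_left₀ (by positivity) ?_ E
    have := (div_le_one hT0).mpr ht₀
    linarith
  obtain ⟨q, hq'⟩ : ∃ q : ℝ, q = Real.exp ((1 + 9 * g) * R * (1 / 4)) := ⟨_, rfl⟩
  have hq0 : 0 < q := by rw [hq']; exact Real.exp_pos _
  have hqi : Real.exp (-((1 + 9 * g) * R * (1 / 4))) = q⁻¹ := by rw [hq', Real.exp_neg]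
  rw [hqi] at hz
  obtain ⟨η, hη⟩ : ∃ η : ℝ, η = Real.exp (-(g / 2 * R)) := ⟨_, rfl⟩
  have hη0 : 0 < η := by rw [hη]; exact Real.exp_pos _
  rw [← hη]
  -- the sizes
  have s1 : W = q ^ 2 * η ^ 2 := by
    rw [hW, hq', hη, ← Real.exp_nat_mul, ← Real.exp_nat_mul, ← Real.exp_add]
    congr 1
    push_cast
    ring
  have s2 : O₄ ≤ P₀ * (q * η ^ 2) := by
    refine hq.trans ((mul_le_mul_of_nonneg_left hoff (Real.exp_pos _).le).trans (le_of_eq ?_))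
    have : Real.exp (((1 + 11 * g) * R + 2 * g * R) / 4) * Real.exp (-(2 * g * R)) = q * η ^ 2 := by
      rw [hq', hη, ← Real.exp_nat_mul, ← Real.exp_add, ← Real.exp_add]
      congr 1
      push_cast
      ring
    linear_combination P₀ * this
  have s3 : O₂ ≤ P₀ * η := by
    refine hoff.trans (mul_le_mul_of_nonneg_left ?_ hP0)
    rw [hη]
    refine Real.exp_le_exp.mpr ?_
    nlinarith
  have hη1 : η ≤ 1 := by
    rw [hη, Real.exp_le_one_iff]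
    have : 0 ≤ g / 2 * R := by positivity
    linarith
  have hzz : z ≤ C₃ * (P₀ * (q * η)) := by
    have k1 : z ^ 2 ≤ (C₂ * (2 * C₁ + 8)) * (P₀ * (q * η)) ^ 2 := by
      refine hZ2.trans ?_
      have k2 : O₄ ^ 2 ≤ (P₀ * (q * η)) ^ 2 := by
        refine pow_le_pow_left₀ hO₄0 (s2.trans ?_) 2
        have : η ^ 2 ≤ η := by nlinarith
        gcongr
      have k3 : (2 * C₁ + 4) * (P₀ ^ 2 * W) + 4 * O₄ ^ 2 ≤ (2 * C₁ + 8) * (P₀ * (q * η)) ^ 2 := by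
        have e3 : P₀ ^ 2 * W = (P₀ * (q * η)) ^ 2 := by rw [s1]; ring
        rw [e3]
        linarith
      have c0 := cB_nn B 0
      have c1 := cB_nn B E
      calc 3 ^ B / H * (cB B 0 * (3 ^ E * cB B E)) *
            (H * ((2 * C₁ + 4) * (P₀ ^ 2 * W) + 4 * O₄ ^ 2)) * (1 + |t₀| / T) ^ E =
          3 ^ B * (cB B 0 * (3 ^ E * cB B E)) * ((2 * C₁ + 4) * (P₀ ^ 2 * W) + 4 * O₄ ^ 2) *
            (1 + |t₀| / T) ^ E := by field_simp
        _ ≤ 3 ^ B * (cB B 0 * (3 ^ E * cB B E)) * ((2 * C₁ + 8) * (P₀ * (q * η)) ^ 2) * 2 ^ E := by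
            gcongr
        _ = _ := by rw [hC₂]; ring
    have k4 := Real.sqrt_le_sqrt k1
    rw [Real.sqrt_sq hz0, Real.sqrt_mul (by positivity), Real.sqrt_sq (by positivity), ← hC₃] at k4
    exact k4
  have hC₃0 : 0 ≤ C₃ := by rw [hC₃]; exact Real.sqrt_nonneg _
  have hh2 : ‖h (pt (1 / 2) t₀)‖ ≤ C₃ * (P₀ * η) := by
    refine hz.trans ?_
    rw [inv_mul_le_iff₀ hq0]
    refine hzz.trans (le_of_eq ?_)
    ring
  have hh1 := off_le hN hφ₁ hθ (by linarith) hg.le (R := R) S χ hX1 hY1 (pt (1 / 2) t₀)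
  rw [pt_re, ← hO₂] at hh1
  have hsplit : ∑ i ∈ S, (F i (pt (1 / 2) t₀) * Mo i (pt (1 / 2) t₀) - 1) =
      h (pt (1 / 2) t₀) + ∑ i ∈ S, (Do i (pt (1 / 2) t₀) * Mo i (pt (1 / 2) t₀) - 1) := by
    rw [hh, ← Finset.sum_add_distrib]
    refine Finset.sum_congr rfl fun i _ => ?_
    ring
  calc ‖∑ i ∈ S, (F i (pt (1 / 2) t₀) * Mo i (pt (1 / 2) t₀) - 1)‖ ≤
      ‖h (pt (1 / 2) t₀)‖ + ‖∑ i ∈ S, (Do i (pt (1 / 2) t₀) * Mo i (pt (1 / 2) t₀) - 1)‖ := by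
        rw [hsplit]
        exact norm_add_le _ _
    _ ≤ C₃ * (P₀ * η) + P₀ * η := add_le_add hh2 (hh1.trans s3)
    _ = P₀ * ((C₃ + 1) * η) := by ring

end

end Pool.Agent.T9h27.C
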