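import Pool.Agent.T9h27.D.Asm
import Pool.Agent.N786.D.Rgt

/-!
# The mollified mean square to the left of the critical line (helper27)
-/

set_option autoImplicit false
set_option linter.unusedSectionVars false

open UniqueFactorizationMonoid MeasureTheory Complex Filter Topology Set

namespace Pool.Agent.T9h27.C

open Pool.Agent.N786.D
open Pool.Agent.T9h27.D
open Pool.Agent.R399.TW (pt pt_re pt_im pt_cont)

/-- **the mollifier is moved to the left** -/
theorem JJ_left {ι : Type} {I : Finset ι} {L Mo : ι → ℂ → ℂ} (hL : ∀ i, Continuous (L i))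
    (hM : ∀ i, Differentiable ℂ (Mo i)) {x β R T H Q : ℝ} {k B E : ℕ} (hR : 0 < R) (hβ : β < R)
    (hQ : 0 ≤ Q) (hB3 : 2 ≤ B) (hBk : k + 2 ≤ 2 * B)
    (hgr : ∀ i ∈ I, ∃ G : ℝ, ∀ z : ℂ, z.re ≤ x → ‖Mo i z‖ ≤ G * Real.exp (-(β * z.re)))
    (hms : ∀ t₀ v₀ : ℝ, JJ I L Mo x x H t₀ v₀ ≤ ENNReal.ofReal (Q * wt T R k E t₀ v₀))
    {η : ℝ} (hη : 0 < η) (hη1 : η ≤ 1) (t₀ : ℝ) :
    JJ I L Mo x (x - η) H t₀ 0 ≤ ENNReal.ofReal (cB B 0 * ((1 + R * η) ^ k * cB B k) * Q *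
      Real.exp (2 * (R * η)) * (1 + |t₀| / T) ^ E) := by
  set κ := kap B η with hκ
  have hκc : Continuous κ := kap_cont B hη
  have hκ0 : ∀ v, 0 ≤ κ v := kap_nn B hη
  obtain ⟨k1, k2⟩ := kap_poly (B := B) (k := 0) (p := 0) (R := R) (κ := R * η) (by omega) hη hη1
    hR.le le_rfl
  simp only [pow_zero, mul_one, one_mul, add_zero] at k1 k2
  obtain ⟨k3, k4⟩ := kap_poly (B := B) (k := k) (p := 0) (R := R) (κ := R * η) (by omega) hη hη1
    hR.le le_rfl
  simp only [pow_zero, mul_one, add_zero] at k3 k4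
  rw [← hκ] at k1 k2 k3 k4
  obtain ⟨C0, hC0⟩ : ∃ C0 : ℝ, C0 = cB B 0 := ⟨_, rfl⟩
  obtain ⟨C1, hC1⟩ : ∃ C1 : ℝ, C1 = (1 + R * η) ^ k * cB B k := ⟨_, rfl⟩
  have hC00 : 0 ≤ C0 := by rw [hC0]; exact cB_nn B 0
  have hRη : 0 < R * η := by positivity
  have hC10 : 0 ≤ C1 := by rw [hC1]; have := cB_nn B k; positivity
  rw [← hC0] at k2
  rw [← hC1] at k4
  rw [← hC0, ← hC1]
  have hMc : ∀ i, Continuous fun t : ℝ => ‖Mo i (pt x t)‖ := fun i =>
    ((hM i).continuous.comp (pt_cont _)).norm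
  have hLc : ∀ i, Continuous fun t : ℝ => ‖L i (pt x t)‖ := fun i =>
    ((hL i).comp (pt_cont _)).norm
  -- pointwise
  have hpt : ∀ i ∈ I, ∀ t : ℝ, ENNReal.ofReal (‖L i (pt x t)‖ ^ 2 *
      ‖Mo i (pt (x - η) (t - 0))‖ ^ 2) ≤
      ENNReal.ofReal (Real.exp (2 * (R * η)) * C0) *
        ∫⁻ v, ENNReal.ofReal (κ v * (‖L i (pt x t)‖ ^ 2 * ‖Mo i (pt x (t - v))‖ ^ 2)) := by
    intro i hi t
    rw [sub_zero]
    obtain ⟨G, hG⟩ := hgr i hi
    -- the reflected function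
    obtain ⟨g, hg⟩ : ∃ g : ℂ → ℂ, ∀ w, g w = Mo i (2 * x - w) := ⟨fun w => Mo i (2 * x - w),
      fun _ => rfl⟩
    have hgd : Differentiable ℂ g := by
      have : g = fun w => Mo i (2 * x - w) := funext hg
      rw [this]
      exact (hM i).comp ((differentiable_const _).sub differentiable_id)
    have hG0 : 0 ≤ G := by
      have h1 := (norm_nonneg _).trans (hG (pt x 0) (by rw [pt_re]))
      exact nonneg_of_mul_nonneg_left h1 (Real.exp_pos _)
    have hgg : ∀ z : ℂ, x ≤ z.re → ‖g z‖ ≤ (G * Real.exp (-(2 * β * x))) * (1 + |z.im|) ^ 0 *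
        Real.exp (-(-β * z.re)) := by
      intro z hz
      rw [hg, pow_zero, mul_one]
      have e0 : (2 * (x : ℂ) - z).re = 2 * x - z.re := by simp
      refine (hG _ (by rw [e0]; linarith)).trans (le_of_eq ?_)
      rw [e0, mul_assoc, ← Real.exp_add]
      congr 2
      ring
    obtain ⟨i1, i2⟩ := cauchy_le (a := x) (μ := -R) (lam := -β) (B := B) (m := 0) hgd (by omega)
      (by linarith) hgg (s := pt (x + η) (-t)) (by rw [pt_re]; linarith)
    have e0 : (pt (x + η) (-t)).re - x = η := by rw [pt_re]; ring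
    rw [e0, pt_im] at i1 i2
    have e1 : g (pt (x + η) (-t)) = Mo i (pt (x - η) t) := by
      rw [hg]
      congr 1
      apply Complex.ext
      · simp; ring
      · simp
    have e2 : ∀ v : ℝ, g (pt x (-t + v)) = Mo i (pt x (t - v)) := by
      intro v
      rw [hg]
      congr 1
      apply Complex.ext
      · simp; ring
      · simp; ring
    simp only [e2] at i1 i2
    rw [e1] at i2
    rw [← hκ] at i1 i2
    have hcs := csE (f := fun v => ‖Mo i (pt x (t - v))‖) (w := κ)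
      ((hMc i).comp (by fun_prop : Continuous fun v : ℝ => t - v))
      (fun v => norm_nonneg _) hκ0 k1 hκc i1
    obtain ⟨Z, hZ⟩ : ∃ Z : ℝ, Z = ∫ v : ℝ, ‖Mo i (pt x (t - v))‖ * κ v := ⟨_, rfl⟩
    rw [← hZ] at hcs i2
    have e3 : ‖Mo i (pt (x - η) t)‖ ^ 2 ≤ Real.exp (2 * (R * η)) * Z ^ 2 := by
      have h1 := pow_le_pow_left₀ (norm_nonneg _) i2 2
      rw [mul_pow, ← Real.exp_nat_mul] at h1
      refine h1.trans (le_of_eq ?_)
      congr 2
      push_cast
      ring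
    have e4 : ‖L i (pt x t)‖ ^ 2 * ‖Mo i (pt (x - η) t)‖ ^ 2 ≤
        Real.exp (2 * (R * η)) * (‖L i (pt x t)‖ ^ 2 * Z ^ 2) := by
      calc ‖L i (pt x t)‖ ^ 2 * ‖Mo i (pt (x - η) t)‖ ^ 2 ≤
          ‖L i (pt x t)‖ ^ 2 * (Real.exp (2 * (R * η)) * Z ^ 2) := by gcongr
        _ = _ := by ring
    refine (ENNReal.ofReal_le_ofReal e4).trans ?_
    rw [ENNReal.ofReal_mul (Real.exp_pos _).le, ENNReal.ofReal_mul (Real.exp_pos _).le, mul_assoc]
    refine mul_le_mul_right ?_ _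
    rw [ENNReal.ofReal_mul (sq_nonneg _)]
    have e5 : ∫⁻ v, ENNReal.ofReal (κ v * (‖L i (pt x t)‖ ^ 2 * ‖Mo i (pt x (t - v))‖ ^ 2)) =
        ENNReal.ofReal (‖L i (pt x t)‖ ^ 2) *
          ∫⁻ v, ENNReal.ofReal (‖Mo i (pt x (t - v))‖ ^ 2 * κ v) := by
      rw [← lintegral_const_mul _ (by
        refine Measurable.ennreal_ofReal ?_
        exact ((((hMc i).comp (by fun_prop : Continuous fun v : ℝ => t - v)).pow 2).mul
          hκc).measurable)]
      refine lintegral_congr fun v => ?_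
      rw [← ENNReal.ofReal_mul (sq_nonneg _)]
      congr 1
      ring
    rw [e5]
    have e6 : ENNReal.ofReal (∫ v, κ v) ≤ ENNReal.ofReal C0 := ENNReal.ofReal_le_ofReal k2
    calc ENNReal.ofReal (‖L i (pt x t)‖ ^ 2) * ENNReal.ofReal (Z ^ 2) ≤
        ENNReal.ofReal (‖L i (pt x t)‖ ^ 2) * (ENNReal.ofReal C0 *
          ∫⁻ v, ENNReal.ofReal (‖Mo i (pt x (t - v))‖ ^ 2 * κ v)) := by
          gcongr
          exact hcs.trans (by gcongr)
      _ = _ := by ring
  have hmeas : ∀ i, Measurable (Function.uncurry fun t v : ℝ =>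
      ENNReal.ofReal (κ v * (‖L i (pt x t)‖ ^ 2 * ‖Mo i (pt x (t - v))‖ ^ 2))) := by
    intro i
    refine Measurable.ennreal_ofReal (Continuous.measurable ?_)
    have c1 : Continuous fun q : ℝ × ℝ => ‖L i (pt x q.1)‖ := (hLc i).comp (by fun_prop)
    have c2 : Continuous fun q : ℝ × ℝ => ‖Mo i (pt x (q.1 - q.2))‖ := (hMc i).comp (by fun_prop)
    have c3 : Continuous fun q : ℝ × ℝ => κ q.2 := hκc.comp (by fun_prop)
    exact c3.mul ((c1.pow 2).mul (c2.pow 2))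
  have hm1 : ∀ i, ∀ v : ℝ, Measurable fun t : ℝ =>
      ENNReal.ofReal (‖L i (pt x t)‖ ^ 2 * ‖Mo i (pt x (t - v))‖ ^ 2) := by
    intro i v
    refine Measurable.ennreal_ofReal (Continuous.measurable ?_)
    have c2 : Continuous fun t : ℝ => ‖Mo i (pt x (t - v))‖ := (hMc i).comp (by fun_prop)
    exact ((hLc i).pow 2).mul (c2.pow 2)
  have hswap : ∑ i ∈ I, ∫⁻ t in Icc t₀ (t₀ + H), ∫⁻ v,
      ENNReal.ofReal (κ v * (‖L i (pt x t)‖ ^ 2 * ‖Mo i (pt x (t - v))‖ ^ 2)) ≤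
      ENNReal.ofReal (Q * (1 + |t₀| / T) ^ E * C1) := by
    have e1 : ∀ i ∈ I, ∫⁻ t in Icc t₀ (t₀ + H), ∫⁻ v,
        ENNReal.ofReal (κ v * (‖L i (pt x t)‖ ^ 2 * ‖Mo i (pt x (t - v))‖ ^ 2)) =
        ∫⁻ v, ENNReal.ofReal (κ v) * ∫⁻ t in Icc t₀ (t₀ + H),
          ENNReal.ofReal (‖L i (pt x t)‖ ^ 2 * ‖Mo i (pt x (t - v))‖ ^ 2) := by
      intro i _
      rw [lintegral_lintegral_swap (hmeas i).aemeasurable]
      refine lintegral_congr fun v => ?_
      rw [← lintegral_const_mul _ (hm1 i v)]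
      refine lintegral_congr fun t => ?_
      rw [← ENNReal.ofReal_mul (hκ0 v)]
    rw [Finset.sum_congr rfl e1, ← lintegral_finsetSum']
    · have e2 : ∀ v : ℝ, ∑ i ∈ I, ENNReal.ofReal (κ v) * ∫⁻ t in Icc t₀ (t₀ + H),
          ENNReal.ofReal (‖L i (pt x t)‖ ^ 2 * ‖Mo i (pt x (t - v))‖ ^ 2) ≤
          ENNReal.ofReal (Q * (1 + |t₀| / T) ^ E * (κ v * (1 + R * |v|) ^ k)) := by
        intro v
        rw [← Finset.mul_sum]
        have e3 : ∑ i ∈ I, ∫⁻ t in Icc t₀ (t₀ + H),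
            ENNReal.ofReal (‖L i (pt x t)‖ ^ 2 * ‖Mo i (pt x (t - v))‖ ^ 2) =
            JJ I L Mo x x H t₀ v := rfl
        rw [e3]
        refine (mul_le_mul_right (hms t₀ v) _).trans ?_
        rw [← ENNReal.ofReal_mul (hκ0 v)]
        refine ENNReal.ofReal_le_ofReal (le_of_eq ?_)
        unfold wt
        ring
      refine (lintegral_mono e2).trans ?_
      by_cases hE0 : 0 ≤ (1 + |t₀| / T) ^ E
      · have hn : ∀ v : ℝ, 0 ≤ Q * (1 + |t₀| / T) ^ E * (κ v * (1 + R * |v|) ^ k) := fun v => by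
          have := hκ0 v
          positivity
        rw [← ofReal_integral_eq_lintegral_ofReal (k3.const_mul _) (Eventually.of_forall hn),
          integral_const_mul]
        exact ENNReal.ofReal_le_ofReal (mul_le_mul_of_nonneg_left k4 (by positivity))
      · push Not at hE0
        have hz : ∀ v : ℝ, ENNReal.ofReal (Q * (1 + |t₀| / T) ^ E * (κ v * (1 + R * |v|) ^ k)) =
            0 := by
          intro v
          rw [ENNReal.ofReal_eq_zero]
          have h1 := hκ0 v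
          have h2 : 0 ≤ κ v * (1 + R * |v|) ^ k := by positivity
          exact mul_nonpos_of_nonpos_of_nonneg (mul_nonpos_of_nonneg_of_nonpos hQ hE0.le) h2
        simp only [hz, lintegral_zero]
        exact zero_le
    · intro i _
      refine AEMeasurable.mul (hκc.measurable.ennreal_ofReal).aemeasurable ?_
      refine Measurable.aemeasurable ?_
      have c0 : Measurable (Function.uncurry fun v t : ℝ =>
          ENNReal.ofReal (‖L i (pt x t)‖ ^ 2 * ‖Mo i (pt x (t - v))‖ ^ 2)) := by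
        refine Measurable.ennreal_ofReal (Continuous.measurable ?_)
        have c1 : Continuous fun q : ℝ × ℝ => ‖L i (pt x q.2)‖ := (hLc i).comp (by fun_prop)
        have c2 : Continuous fun q : ℝ × ℝ => ‖Mo i (pt x (q.2 - q.1))‖ :=
          (hMc i).comp (by fun_prop)
        exact (c1.pow 2).mul (c2.pow 2)
      exact c0.lintegral_prod_right'
  have htot : JJ I L Mo x (x - η) H t₀ 0 ≤ ENNReal.ofReal (Real.exp (2 * (R * η)) * C0) *
      ∑ i ∈ I, ∫⁻ t in Icc t₀ (t₀ + H), ∫⁻ v,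
      ENNReal.ofReal (κ v * (‖L i (pt x t)‖ ^ 2 * ‖Mo i (pt x (t - v))‖ ^ 2)) := by
    unfold JJ
    rw [Finset.mul_sum]
    refine Finset.sum_le_sum fun i hi => ?_
    have m3 : Measurable fun t : ℝ => ∫⁻ v,
        ENNReal.ofReal (κ v * (‖L i (pt x t)‖ ^ 2 * ‖Mo i (pt x (t - v))‖ ^ 2)) :=
      (hmeas i).lintegral_prod_right'
    refine (lintegral_mono (hpt i hi)).trans (le_of_eq ?_)
    rw [lintegral_const_mul _ m3]
  refine htot.trans ((mul_le_mul_right hswap _).trans ?_)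
  rw [← ENNReal.ofReal_mul (by positivity)]
  refine ENNReal.ofReal_le_ofReal (le_of_eq ?_)
  ring

end Pool.Agent.T9h27.C
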