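import Pool.Agent.T9h27.C.Lft

/-!
# The mollified mean square on both sides of the critical line (helper27)
-/

set_option autoImplicit false
set_option linter.unusedSectionVars false

open UniqueFactorizationMonoid MeasureTheory Complex Filter Topology Set

namespace Pool.Agent.T9h27.C

open Pool.Agent.N786.D
open Pool.Agent.T9h27.D
open Pool.Agent.R399.TW (pt pt_re pt_im pt_cont)

lemma QQ_sub_one {ι : Type} {S : Finset ι} {F M : ι → ℂ → ℂ} (hF : ∀ i, Continuous (F i))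
    (hM : ∀ i, Continuous (M i)) (x : ℝ) {H : ℝ} (t₀ : ℝ) :
    QQ S (fun i s => F i s * M i s - 1) x H t₀ ≤
      ENNReal.ofReal 2 * QQ S (fun i s => F i s * M i s) x H t₀ +
        ENNReal.ofReal (S.card * (2 * H)) := by
  have hpt : ∀ i t, ENNReal.ofReal (‖F i (pt x t) * M i (pt x t) - 1‖ ^ 2) ≤
      ENNReal.ofReal 2 * ENNReal.ofReal (‖F i (pt x t) * M i (pt x t)‖ ^ 2) +
        ENNReal.ofReal 2 := by
    intro i t
    rw [← ENNReal.ofReal_mul (by norm_num), ← ENNReal.ofReal_add (by positivity) (by norm_num)]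
    refine ENNReal.ofReal_le_ofReal ?_
    have h1 := norm_sub_le (F i (pt x t) * M i (pt x t)) 1
    rw [norm_one] at h1
    have h2 := pow_le_pow_left₀ (norm_nonneg _) h1 2
    nlinarith [sq_nonneg (‖F i (pt x t) * M i (pt x t)‖ - 1)]
  unfold QQ
  calc ∑ i ∈ S, ∫⁻ t in Icc t₀ (t₀ + H), ENNReal.ofReal (‖F i (pt x t) * M i (pt x t) - 1‖ ^ 2) ≤
      ∑ i ∈ S, (ENNReal.ofReal 2 * (∫⁻ t in Icc t₀ (t₀ + H),
        ENNReal.ofReal (‖F i (pt x t) * M i (pt x t)‖ ^ 2)) + ENNReal.ofReal (2 * H)) := by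
        refine Finset.sum_le_sum fun i _ => (lintegral_mono (hpt i)).trans ?_
        have hmeas : Measurable fun t : ℝ =>
            ENNReal.ofReal (‖F i (pt x t) * M i (pt x t)‖ ^ 2) := by
          refine Measurable.ennreal_ofReal (Continuous.measurable ?_)
          exact (((hF i).comp (pt_cont _)).mul ((hM i).comp (pt_cont _))).norm.pow 2
        rw [lintegral_add_left (hmeas.const_mul _), lintegral_const_mul _ hmeas,
          setLIntegral_const, Real.volume_Icc, ← ENNReal.ofReal_mul (by norm_num)]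
        refine add_le_add le_rfl (ENNReal.ofReal_le_ofReal (le_of_eq ?_))
        ring
    _ = _ := by
        rw [Finset.sum_add_distrib, ← Finset.mul_sum, Finset.sum_const, nsmul_eq_mul,
          ENNReal.ofReal_mul (Nat.cast_nonneg _), ENNReal.ofReal_natCast]

section

variable {M : Type} [CommMonoidWithZero M] [NormalizationMonoid M] [UniqueFactorizationMonoid M]
  [Subsingleton Mˣ] [Nontrivial M] {N : M →*₀ ℕ} {n₀ : ℕ}

/-- growth of the mollifier to the left -/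
lemma Mp_grow (hN : NS N n₀) (θ : ℝ → ℝ) (R β₂ : ℝ) (hβ : 0 ≤ β₂) (hR : 0 ≤ R) (χ : M →*₀ ℂ)
    (x : ℝ) :
    ∃ G : ℝ, ∀ z : ℂ, z.re ≤ x → ‖Mp N θ R ⌊Real.exp (β₂ * R)⌋₊ χ z‖ ≤
      G * Real.exp (-((β₂ * R) * z.re)) := by
  refine ⟨∑ a ∈ SI N ⌊Real.exp (β₂ * R)⌋₊, ‖mob a * (θ (lN N a / R) : ℂ) * χ a‖ *
    Real.exp (|x| * (β₂ * R)), fun z hz => ?_⟩
  unfold Mp dpo
  refine (norm_sum_le _ _).trans ?_
  rw [Finset.sum_mul]
  refine Finset.sum_le_sum fun a ha' => ?_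
  have ha := hN.SI_ne ha'
  have hNa : 0 < (N a : ℝ) := by exact_mod_cast hN.pos ha
  rw [norm_mul, Complex.norm_exp]
  obtain ⟨c, hc⟩ : ∃ c : ℝ, c = ‖mob a * (θ (lN N a / R) : ℂ) * χ a‖ := ⟨_, rfl⟩
  have hc0 : 0 ≤ c := by rw [hc]; exact norm_nonneg _
  rw [← hc, mul_assoc]
  refine mul_le_mul_of_nonneg_left ?_ hc0
  have h4 : (-(z * (lN N a : ℂ))).re = -(z.re * lN N a) := by simp
  rw [h4, ← Real.exp_add]
  refine Real.exp_le_exp.mpr ?_
  have h6 : lN N a ≤ β₂ * R := by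
    have h7 := (hN.mem_SI.mp ha').2
    have h8 : (N a : ℝ) ≤ Real.exp (β₂ * R) :=
      le_trans (by exact_mod_cast h7) (Nat.floor_le (Real.exp_pos _).le)
    unfold lN
    rw [Real.log_le_iff_le_exp hNa]
    exact h8
  have h9 := lN_nonneg N a
  have h10 : z.re ≤ |x| := hz.trans (le_abs_self x)
  have h11 : z.re * (β₂ * R - lN N a) ≤ |x| * (β₂ * R - lN N a) :=
    mul_le_mul_of_nonneg_right h10 (by linarith)
  have h12 : 0 ≤ |x| * lN N a := mul_nonneg (abs_nonneg x) h9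
  nlinarith

/-- **the mollified mean square on both sides of the critical line** -/
theorem mean_all (hN : NS N n₀) {e : ℝ} (he : 0 < e) {G' : ℝ}
    (hG : Wgt (wN N n₀) (fun k => ((n₀ : ℝ) * k + 1) ^ n₀) G') {α' α₁ α₂ β' β₁ β₂ A : ℝ} {φ θ : ℝ → ℝ}
    (hφ : Cutf α₁ α₂ φ) (hθ : Cutf β₁ β₂ θ) (hα' : 1 / 2 < α') (hα : α' < α₁) (hα₂ : 0 < α₂)
    (hβ' : 0 < β') (hβ'1 : β' < β₁)
    (hβ : 0 < β₂) (hβ1 : β₂ < 1) (hA : 1 ≤ A) (n : ℕ) (hn : 1 ≤ n) :
    ∃ (κ C₁ C₂ R₀ : ℝ) (E : ℕ), 1 ≤ κ ∧ 0 < C₁ ∧ 0 < C₂ ∧ 1 ≤ R₀ ∧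
    ∀ (R T H P : ℝ) (ι : Type) (S : Finset ι) (χ : ι → M →*₀ ℂ)
      (F : ι → ℂ → ℂ), R₀ ≤ R → 1 ≤ T → 0 ≤ H → H ≤ T → S.card * H ≤ P →
      LSU N S χ H P e (⌊Real.exp (α₂ * R)⌋₊ * ⌊Real.exp (β₂ * R)⌋₊) →
      (∀ lam, Differentiable ℂ (F lam)) → (∀ lam ∈ S, GLf N A T R n (χ lam) (F lam)) →
      ∀ b : ℝ, κ ≤ b → b ≤ R / 4 →
      (∀ x : ℝ, 1 / 2 - b / R ≤ x → x ≤ 2 → ∀ t₀ : ℝ,
        QQ S (fun i s => F i s * Mp N θ R ⌊Real.exp (β₂ * R)⌋₊ (χ i) s - 1) x H t₀ ≤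
        ENNReal.ofReal (P * (C₁ * Real.exp (C₂ * b)) * (1 + |t₀| / T) ^ E)) ∧
      (∀ t₀ : ℝ,
        QQ S (fun i s => F i s * Mp N θ R ⌊Real.exp (β₂ * R)⌋₊ (χ i) s - 1) (1 / 2 + b / R) H t₀ ≤
        ENNReal.ofReal (P * (C₁ * Real.exp (-(2 * β' * b))) * (1 + |t₀| / T) ^ E)) := by
  obtain ⟨κ, a, R₀, k, E, hκ, ha, hR₀, hmain⟩ :=
    mean_near hN he hG hφ hθ hα' hα hα₂ hβ hβ1.le hA n hn
  obtain ⟨E', hE'⟩ : ∃ E' : ℕ, E' = E + n := ⟨_, rfl⟩
  obtain ⟨B, hB⟩ : ∃ B : ℕ, B = k + n + E' + 3 := ⟨_, rfl⟩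
  have hZ := ZN_nonneg N
  have hβ₁ : 0 < β₁ := by linarith
  have hA0 : 0 < A := by linarith
  have cb0 := cB_nn B 0
  have cbk := cB_nn B k
  have cbE := cB_nn B E
  have cbE' := cB_nn B E'
  -- constants
  obtain ⟨D₀, hD₀⟩ : ∃ D₀ : ℝ, D₀ = cB B 0 * (3 ^ E' * cB B E') := ⟨_, rfl⟩
  have hD₀0 : 0 ≤ D₀ := by rw [hD₀]; positivity
  obtain ⟨D₁, hD₁⟩ : ∃ D₁ : ℝ, D₁ = cB B 0 * cB B k * a := ⟨_, rfl⟩
  have hD₁0 : 0 ≤ D₁ := by rw [hD₁]; positivity
  obtain ⟨D₂, hD₂⟩ : ∃ D₂ : ℝ, D₂ = cB B 0 * (3 ^ E * cB B E) * D₁ := ⟨_, rfl⟩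
  have hD₂0 : 0 ≤ D₂ := by rw [hD₂]; positivity
  obtain ⟨D₃, hD₃⟩ : ∃ D₃ : ℝ, D₃ = 2 * (A ^ 2 * 2 ^ n * D₂) + 2 := ⟨_, rfl⟩
  have hD₃0 : 2 ≤ D₃ := by
    rw [hD₃]
    have : 0 ≤ A ^ 2 * 2 ^ n * D₂ := by positivity
    linarith
  obtain ⟨D₄, hD₄⟩ : ∃ D₄ : ℝ, D₄ = cB B 0 * (3 ^ E * cB B E) * (2 * a + 2) *
    Real.exp (2 * β' * κ) := ⟨_, rfl⟩
  have hD₄0 : 0 ≤ D₄ := by rw [hD₄]; positivity
  refine ⟨κ + 1, (1 + D₀) * D₃ + D₄, 8 + 2 * k, R₀, E', by linarith, by positivity, by positivity,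
    hR₀, ?_⟩
  intro R T H P ι S χ F hR hT hH0 hHT hP hls hFd hF b hb hbR
  have hRone : 1 ≤ R := hR₀.trans hR
  have hR0 : 0 < R := by linarith
  have hT0 : 0 < T := by linarith
  have hP0 : 0 ≤ P := le_trans (by positivity) hP
  have hb0 : 0 < b := by linarith
  obtain ⟨δ, hδ⟩ : ∃ δ : ℝ, δ = b / R := ⟨_, rfl⟩
  rw [← hδ]
  have hδ0 : 0 < δ := by rw [hδ]; positivity
  have hRδ : R * δ = b := by rw [hδ]; field_simp
  have hδ1 : δ ≤ 1 / 4 := by
    rw [hδ, div_le_iff₀ hR0]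
    linarith
  obtain ⟨x₀, hx₀⟩ : ∃ x₀ : ℝ, x₀ = 1 / 2 + κ / R := ⟨_, rfl⟩
  have hκR : 0 < κ / R := by positivity
  have hκδ : κ / R + 1 / R ≤ δ := by
    rw [hδ, ← add_div]
    exact div_le_div_of_nonneg_right hb hR0.le
  have hR1 : 0 < 1 / R := by positivity
  set Mo : ι → ℂ → ℂ := fun i => Mp N θ R ⌊Real.exp (β₂ * R)⌋₊ (χ i) with hMo
  have hMd : ∀ i, Differentiable ℂ (Mo i) := fun i => dpo_diff _ _ _ _
  have hΘ : ∀ (t : ℝ) (j : ℕ), 1 ≤ (1 + |t| / T) ^ j := fun t j => one_le_pow₀ (by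
    have : 0 ≤ |t| / T := by positivity
    linarith)
  have hJ : ∀ t₀ v₀ : ℝ, JJ S F Mo x₀ x₀ H t₀ v₀ ≤
      ENNReal.ofReal ((P * a) * wt T R k E t₀ v₀) := by
    intro t₀ v₀
    rw [hx₀]
    exact hmain R T H P ι S χ F hR hT hH0 hHT hP hls (fun i => (hFd i).continuous) hF t₀ v₀
  -- the left side
  have hleft := JJ_left (I := S) (L := F) (Mo := Mo) (fun i => (hFd i).continuous) hMd (x := x₀)
    (β := β₂ * R) (R := R) (T := T) (H := H) (Q := P * a) (k := k) (B := B) (E := E) hR0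
    (by nlinarith) (by positivity) (by omega) (by omega)
    (fun i _ => Mp_grow hN θ R β₂ hβ.le hR0.le (χ i) x₀) hJ (η := 2 * δ) (by positivity)
    (by linarith)
  obtain ⟨g, hg⟩ : ∃ g : ι → ℂ → ℂ, ∀ i s, g i s = F i s * Mo i (s - 2 * δ) :=
    ⟨fun i s => F i s * Mo i (s - 2 * δ), fun _ _ => rfl⟩
  have hgd : ∀ i, Differentiable ℂ (g i) := by
    intro i
    have e1 : g i = fun s => F i s * Mo i (s - 2 * δ) := funext (hg i)
    rw [e1]
    exact (hFd i).mul ((hMd i).comp (differentiable_id.sub (differentiable_const _)))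
  have hexpk : (1 + R * (2 * δ)) ^ k ≤ Real.exp (2 * k * b) := by
    have h1 : 1 + R * (2 * δ) ≤ Real.exp (2 * b) := by
      have := Real.add_one_le_exp (2 * b)
      have e1 : R * (2 * δ) = 2 * b := by rw [← hRδ]; ring
      rw [e1]
      linarith
    have h2 := pow_le_pow_left₀ (by positivity) h1 k
    rw [← Real.exp_nat_mul] at h2
    refine h2.trans (le_of_eq ?_)
    congr 1
    ring
  have hq1 : ∀ t₀ : ℝ, QQ S g x₀ H t₀ ≤
      ENNReal.ofReal ((P * (D₁ * Real.exp ((4 + 2 * k) * b))) * (1 + |t₀| / T) ^ E) := by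
    intro t₀
    have e1 : QQ S g x₀ H t₀ = JJ S F Mo x₀ (x₀ - 2 * δ) H t₀ 0 := by
      unfold QQ JJ
      refine Finset.sum_congr rfl fun i _ => lintegral_congr fun t => ?_
      rw [hg, norm_mul, mul_pow, sub_zero]
      congr 5
      apply Complex.ext
      · simp
      · simp
    rw [e1]
    refine (hleft t₀).trans (ENNReal.ofReal_le_ofReal ?_)
    have e2 : 2 * (R * (2 * δ)) = 4 * b := by rw [← hRδ]; ring
    rw [e2]
    have h1 := hΘ t₀ E
    calc cB B 0 * ((1 + R * (2 * δ)) ^ k * cB B k) * (P * a) * Real.exp (4 * b) *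
          (1 + |t₀| / T) ^ E ≤
        cB B 0 * (Real.exp (2 * k * b) * cB B k) * (P * a) * Real.exp (4 * b) *
          (1 + |t₀| / T) ^ E := by gcongr
      _ = (P * (D₁ * Real.exp ((4 + 2 * k) * b))) * (1 + |t₀| / T) ^ E := by
          have e3 : Real.exp ((4 + 2 * k) * b) = Real.exp (2 * k * b) * Real.exp (4 * b) := by
            rw [← Real.exp_add]
            congr 1
            ring
          rw [e3, hD₁]
          ring
  have hgg : ∀ i ∈ S, ∃ G : ℝ, ∀ z : ℂ, x₀ ≤ z.re →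
      ‖g i z‖ ≤ G * (1 + |z.im|) ^ n * Real.exp (-(0 * z.re)) := by
    intro i hi
    obtain ⟨G₀, hG₀, hG⟩ := dpo_bdd N ⌊Real.exp (β₂ * R)⌋₊
      (fun a => mob a * (θ (lN N a / R) : ℂ)) (χ i)
    refine ⟨A * Real.exp R * G₀, fun z hz => ?_⟩
    have e3 := (hF i hi).gr z (by rw [hx₀] at hz; linarith)
    have e4 : (1 + |z.im| / T) ^ n ≤ (1 + |z.im|) ^ n := by
      refine pow_le_pow_left₀ (by positivity) ?_ n
      have : |z.im| / T ≤ |z.im| := div_le_self (abs_nonneg _) hT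
      linarith
    have e5 : ‖Mo i (z - 2 * δ)‖ ≤ G₀ := hG _ (by
      have : (z - 2 * (δ : ℂ)).re = z.re - 2 * δ := by simp
      rw [this]
      rw [hx₀] at hz
      linarith)
    rw [hg, norm_mul, zero_mul, neg_zero, Real.exp_zero, mul_one]
    calc ‖F i z‖ * ‖Mo i (z - 2 * δ)‖ ≤ (A * Real.exp R * (1 + |z.im|) ^ n) * G₀ := by
          refine mul_le_mul (e3.trans ?_) e5 (norm_nonneg _) (by positivity)
          exact mul_le_mul_of_nonneg_left e4 (by positivity)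
      _ = _ := by ring
  have hq2 : ∀ t₀ : ℝ, QQ S g (1 / 2 + δ) H t₀ ≤
      ENNReal.ofReal ((P * (D₂ * Real.exp ((6 + 2 * k) * b))) * (1 + |t₀| / T) ^ E) := by
    intro t₀
    have h1 := QQ_right (I := S) (f := g) hgd (a := x₀) (μ := -R) (lam := 0) (T := T)
      (H := H) (Q := P * (D₁ * Real.exp ((4 + 2 * k) * b))) (m := n) (B := B) (E := E) hT
      (by positivity) (by omega) (by omega) (by linarith) hgg hq1
      (r := 1 / 2 + δ - x₀) (by rw [hx₀]; linarith) (by rw [hx₀]; linarith) t₀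
    have e1 : x₀ + (1 / 2 + δ - x₀) = 1 / 2 + δ := by ring
    rw [e1] at h1
    refine h1.trans (ENNReal.ofReal_le_ofReal ?_)
    have h2 : Real.exp (-(2 * (-R * (1 / 2 + δ - x₀)))) ≤ Real.exp (2 * b) := by
      refine Real.exp_le_exp.mpr ?_
      rw [hx₀]
      have e2 : -(2 * (-R * (1 / 2 + δ - (1 / 2 + κ / R)))) = 2 * (R * δ) - 2 * κ := by
        field_simp
        ring
      rw [e2, hRδ]
      linarith
    have h3 := hΘ t₀ E
    calc cB B 0 * (3 ^ E * cB B E) * (P * (D₁ * Real.exp ((4 + 2 * k) * b))) *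
          Real.exp (-(2 * (-R * (1 / 2 + δ - x₀)))) * (1 + |t₀| / T) ^ E ≤
        cB B 0 * (3 ^ E * cB B E) * (P * (D₁ * Real.exp ((4 + 2 * k) * b))) *
          Real.exp (2 * b) * (1 + |t₀| / T) ^ E := by gcongr
      _ = _ := by
          have e3 : Real.exp ((6 + 2 * k) * b) = Real.exp ((4 + 2 * k) * b) * Real.exp (2 * b) := by
            rw [← Real.exp_add]
            congr 1
            ring
          rw [e3, hD₂]
          ring
  -- the functional equation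
  have hq3 : ∀ t₀ : ℝ, QQ S (fun i s => F i s * Mo i s) (1 / 2 - δ) H t₀ ≤
      ENNReal.ofReal ((P * (A ^ 2 * 2 ^ n * D₂ * Real.exp ((8 + 2 * k) * b))) *
        (1 + |t₀| / T) ^ E') := by
    intro t₀
    obtain ⟨Y, hY⟩ : ∃ Y : ℝ, Y = A ^ 2 * Real.exp (2 * b) * (2 ^ n * (1 + |t₀| / T) ^ n) :=
      ⟨_, rfl⟩
    have hY0 : 0 ≤ Y := by rw [hY]; positivity
    have hpt : ∀ i ∈ S, ∀ t ∈ Icc t₀ (t₀ + H),
        ‖F i (pt (1 / 2 - δ) t) * Mo i (pt (1 / 2 - δ) t)‖ ^ 2 ≤ Y * ‖g i (pt (1 / 2 + δ) t)‖ ^ 2 := by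
      intro i hi t ht
      have h1 := (hF i hi).fe δ hδ0 hδ1 t
      have e1 : pt (1 / 2 + δ) t - 2 * δ = pt (1 / 2 - δ) t := by
        apply Complex.ext
        · simp; ring
        · simp
      rw [hg, e1, norm_mul, norm_mul, mul_pow, mul_pow, ← mul_assoc]
      refine mul_le_mul_of_nonneg_right ?_ (sq_nonneg _)
      refine (pow_le_pow_left₀ (norm_nonneg _) h1 2).trans ?_
      rw [mul_pow]
      refine mul_le_mul_of_nonneg_right ?_ (sq_nonneg _)
      rw [mul_pow, mul_pow, hRδ, hY, ← Real.exp_nat_mul]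
      push_cast
      refine mul_le_mul_of_nonneg_left ?_ (by positivity)
      have h3 : 1 + |t| / T ≤ 2 * (1 + |t₀| / T) := by
        have h4 : |t| ≤ |t₀| + T := by
          have : |t - t₀| ≤ T := by
            rw [abs_of_nonneg (by linarith [ht.1])]
            linarith [ht.2]
          have h5 := abs_add_le (t - t₀) t₀
          rw [sub_add_cancel] at h5
          linarith
        have h6 : |t| / T ≤ |t₀| / T + 1 := by
          rw [div_le_iff₀ hT0, add_mul, div_mul_cancel₀ _ hT0.ne']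
          linarith
        have h7 : 0 ≤ |t₀| / T := by positivity
        linarith
      have h1t : 1 ≤ 1 + |t| / T := by
        have : 0 ≤ |t| / T := by positivity
        linarith
      rw [← Real.rpow_natCast, ← Real.rpow_mul (by positivity), ← mul_pow]
      calc (1 + |t| / T) ^ ((n : ℝ) * δ * (2 : ℕ)) ≤ (1 + |t| / T) ^ (n : ℝ) := by
            refine Real.rpow_le_rpow_of_exponent_le h1t ?_
            have : (0 : ℝ) ≤ n := Nat.cast_nonneg n
            push_cast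
            nlinarith
        _ = (1 + |t| / T) ^ n := Real.rpow_natCast _ _
        _ ≤ _ := pow_le_pow_left₀ (by linarith) h3 n
    have h1 : QQ S (fun i s => F i s * Mo i s) (1 / 2 - δ) H t₀ ≤
        ENNReal.ofReal Y * QQ S g (1 / 2 + δ) H t₀ := by
      unfold QQ
      rw [Finset.mul_sum]
      refine Finset.sum_le_sum fun i hi => ?_
      have hmeas : Measurable fun t : ℝ => ENNReal.ofReal (‖g i (pt (1 / 2 + δ) t)‖ ^ 2) :=
        Measurable.ennreal_ofReal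
          ((((hgd i).continuous.comp (pt_cont _)).norm.pow 2).measurable)
      rw [← lintegral_const_mul _ hmeas]
      refine setLIntegral_mono' measurableSet_Icc fun t ht => ?_
      rw [← ENNReal.ofReal_mul hY0]
      exact ENNReal.ofReal_le_ofReal (hpt i hi t ht)
    refine h1.trans ((mul_le_mul_right (hq2 t₀) _).trans ?_)
    rw [← ENNReal.ofReal_mul hY0]
    refine ENNReal.ofReal_le_ofReal (le_of_eq ?_)
    have e3 : Real.exp ((8 + 2 * k) * b) = Real.exp (2 * b) * Real.exp ((6 + 2 * k) * b) := by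
      rw [← Real.exp_add]
      congr 1
      ring
    rw [hY, e3, hE', pow_add]
    ring
  obtain ⟨f, hf⟩ : ∃ f : ι → ℂ → ℂ, f = fun i s => F i s * Mo i s - 1 := ⟨_, rfl⟩
  have hfd : ∀ i, Differentiable ℂ (f i) := fun i => by
    rw [hf]
    exact ((hFd i).mul (hMd i)).sub (differentiable_const _)
  rw [← hf]
  have hexp1 : 1 ≤ Real.exp ((8 + 2 * k) * b) := Real.one_le_exp (by positivity)
  have hq4 : ∀ t₀ : ℝ, QQ S f (1 / 2 - δ) H t₀ ≤
      ENNReal.ofReal ((P * (D₃ * Real.exp ((8 + 2 * k) * b))) * (1 + |t₀| / T) ^ E') := by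
    intro t₀
    rw [hf]
    refine (QQ_sub_one (fun i => (hFd i).continuous) (fun i => (hMd i).continuous) _ _).trans ?_
    have h1 := hΘ t₀ E'
    have h2 : ENNReal.ofReal (S.card * (2 * H)) ≤
        ENNReal.ofReal (2 * P * Real.exp ((8 + 2 * k) * b) * (1 + |t₀| / T) ^ E') := by
      refine ENNReal.ofReal_le_ofReal ?_
      calc (S.card : ℝ) * (2 * H) = 2 * (S.card * H) * 1 * 1 := by ring
        _ ≤ 2 * P * Real.exp ((8 + 2 * k) * b) * (1 + |t₀| / T) ^ E' := by gcongr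
    refine (add_le_add (mul_le_mul_right (hq3 t₀) _) h2).trans ?_
    rw [← ENNReal.ofReal_mul (by norm_num), ← ENNReal.ofReal_add (by positivity) (by positivity)]
    refine ENNReal.ofReal_le_ofReal (le_of_eq ?_)
    rw [hD₃]
    ring
  have hgf : ∀ a₀ : ℝ, 1 / 4 ≤ a₀ → ∀ i ∈ S, ∃ G : ℝ, ∀ z : ℂ, a₀ ≤ z.re →
      ‖f i z‖ ≤ G * (1 + |z.im|) ^ n * Real.exp (-((β₁ * R) * z.re)) := by
    intro a₀ ha₀ i hi
    obtain ⟨G, hG⟩ := grow_f hN (β₂ := β₂) hθ hβ₁ hR0 hT hA (hF i hi)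
    refine ⟨G, fun z hz => ?_⟩
    rw [hf]
    exact hG z (by linarith)
  have hβR : 0 < β₁ * R := by positivity
  constructor
  · intro x hx1 hx2 t₀
    have hfin : ENNReal.ofReal ((P * (D₀ * D₃ * Real.exp ((8 + 2 * k) * b))) *
        (1 + |t₀| / T) ^ E') ≤ ENNReal.ofReal (P * (((1 + D₀) * D₃ + D₄) *
          Real.exp ((8 + 2 * k) * b)) * (1 + |t₀| / T) ^ E') := by
      refine ENNReal.ofReal_le_ofReal ?_
      have h3 := hΘ t₀ E'
      have h4 : D₀ * D₃ ≤ (1 + D₀) * D₃ + D₄ := by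
        have : 0 ≤ D₃ := by linarith
        nlinarith
      gcongr
    rcases hx1.eq_or_lt with h | h
    · rw [← h]
      refine (hq4 t₀).trans (ENNReal.ofReal_le_ofReal ?_)
      have h3 := hΘ t₀ E'
      have h4 : D₃ ≤ (1 + D₀) * D₃ + D₄ := by
        have : 0 ≤ D₀ * D₃ := mul_nonneg hD₀0 (by linarith)
        nlinarith
      gcongr
    · have h1 := QQ_right (I := S) (f := f) hfd (a := 1 / 2 - δ) (μ := 0) (lam := β₁ * R) (T := T)
        (H := H) (Q := P * (D₃ * Real.exp ((8 + 2 * k) * b))) (m := n) (B := B) (E := E') hT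
        (by positivity) (by omega) (by omega) hβR (hgf _ (by linarith)) hq4
        (r := x - (1 / 2 - δ)) (by linarith) (by linarith) t₀
      have e1 : 1 / 2 - δ + (x - (1 / 2 - δ)) = x := by ring
      rw [e1, zero_mul, mul_zero, neg_zero, Real.exp_zero, mul_one, ← hD₀] at h1
      refine (h1.trans (ENNReal.ofReal_le_ofReal (le_of_eq ?_))).trans hfin
      ring
  · intro t₀
    -- the line `x₀`
    have hq5 : ∀ t₀ : ℝ, QQ S f x₀ H t₀ ≤
        ENNReal.ofReal ((P * (2 * a + 2)) * (1 + |t₀| / T) ^ E) := by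
      intro t₀
      rw [hf]
      refine (QQ_sub_one (fun i => (hFd i).continuous) (fun i => (hMd i).continuous) _ _).trans ?_
      have h1 := hΘ t₀ E
      have h2 : ENNReal.ofReal (S.card * (2 * H)) ≤
          ENNReal.ofReal (2 * P * (1 + |t₀| / T) ^ E) := by
        refine ENNReal.ofReal_le_ofReal ?_
        calc (S.card : ℝ) * (2 * H) = 2 * (S.card * H) * 1 := by ring
          _ ≤ 2 * P * (1 + |t₀| / T) ^ E := by gcongr
      have h3 : QQ S (fun i s => F i s * Mo i s) x₀ H t₀ ≤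
          ENNReal.ofReal (P * a * (1 + |t₀| / T) ^ E) := by
        have h4 := hJ t₀ 0
        have e0 : wt T R k E t₀ 0 = (1 + |t₀| / T) ^ E := by
          unfold wt
          rw [abs_zero, mul_zero, add_zero, one_pow, one_mul]
        rw [e0] at h4
        refine le_trans (le_of_eq ?_) h4
        unfold QQ JJ
        refine Finset.sum_congr rfl fun i _ => lintegral_congr fun t => ?_
        rw [norm_mul, mul_pow, sub_zero]
      refine (add_le_add (mul_le_mul_right h3 _) h2).trans ?_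
      rw [← ENNReal.ofReal_mul (by norm_num), ← ENNReal.ofReal_add (by positivity) (by positivity)]
      refine ENNReal.ofReal_le_ofReal (le_of_eq ?_)
      ring
    have hβlt : β' * R < β₁ * R := mul_lt_mul_of_pos_right hβ'1 hR0
    have h1 := QQ_right (I := S) (f := f) hfd (a := x₀) (μ := β' * R) (lam := β₁ * R) (T := T)
      (H := H) (Q := P * (2 * a + 2)) (m := n) (B := B) (E := E) hT
      (by positivity) (by omega) (by omega) hβlt (hgf _ (by rw [hx₀]; linarith)) hq5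
      (r := 1 / 2 + δ - x₀) (by rw [hx₀]; linarith) (by rw [hx₀]; linarith) t₀
    have e1 : x₀ + (1 / 2 + δ - x₀) = 1 / 2 + δ := by ring
    rw [e1] at h1
    refine h1.trans (ENNReal.ofReal_le_ofReal ?_)
    have e2 : Real.exp (-(2 * (β' * R * (1 / 2 + δ - x₀)))) =
        Real.exp (2 * β' * κ) * Real.exp (-(2 * β' * b)) := by
      rw [← Real.exp_add, hx₀, ← hRδ]
      congr 1
      field_simp
      ring
    rw [e2]
    have h3 : (1 + |t₀| / T) ^ E ≤ (1 + |t₀| / T) ^ E' := by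
      refine pow_le_pow_right₀ ?_ (by omega)
      have : 0 ≤ |t₀| / T := by positivity
      linarith
    have h5 : D₄ ≤ (1 + D₀) * D₃ + D₄ := by
      have : 0 ≤ D₃ := by linarith
      have : 0 ≤ (1 + D₀) * D₃ := by positivity
      linarith
    calc cB B 0 * (3 ^ E * cB B E) * (P * (2 * a + 2)) * (Real.exp (2 * β' * κ) *
          Real.exp (-(2 * β' * b))) * (1 + |t₀| / T) ^ E =
        P * (D₄ * Real.exp (-(2 * β' * b))) * (1 + |t₀| / T) ^ E := by rw [hD₄]; ring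
      _ ≤ P * (((1 + D₀) * D₃ + D₄) * Real.exp (-(2 * β' * b))) * (1 + |t₀| / T) ^ E' := by
          gcongr

end

end Pool.Agent.T9h27.C
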