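import Pool.Agent.T9h27.C.Fst

/-!
# A positive proportion of non-vanishing (helper27)
-/

set_option autoImplicit false
set_option linter.unusedSectionVars false

open UniqueFactorizationMonoid MeasureTheory Complex Filter Topology Set

namespace Pool.Agent.T9h27.C

open Pool.Agent.N786.D
open Pool.Agent.T9h27.D
open Pool.Agent.R399.TW (pt pt_re pt_im pt_cont)

open Classical in
/-- from the first two moments to a positive proportion -/
lemma pos_prop {ι : Type} (S : Finset ι) (w : ι → ℂ) (W : ι → ℝ) {K : ℝ} (hK : 1 ≤ K)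
    (hw : ∀ i ∈ S, ‖w i‖ ≤ W i) (hW : ∑ i ∈ S, W i ^ 2 ≤ K * S.card)
    (hs : ‖∑ i ∈ S, w i‖ ≤ S.card / 2) :
    (S.card : ℝ) / (4 * (1 + 16 * K)) ≤
      (S.filter fun i => 1 / 8 ≤ ‖1 + w i‖ ∧ W i ≤ 16 * K).card := by
  obtain ⟨U, hU⟩ : ∃ U : Finset ι, U = S.filter fun i => 1 / 8 ≤ ‖1 + w i‖ ∧ W i ≤ 16 * K :=
    ⟨_, rfl⟩
  rw [← hU]
  have h1 : ∀ i ∈ S, ‖1 + w i‖ ≤ 1 / 8 + (if i ∈ U then 1 + 16 * K else 0) +
      1 / (8 * K) * W i ^ 2 := by
    intro i hi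
    have hWi : 0 ≤ W i := (norm_nonneg _).trans (hw i hi)
    have h2 : ‖1 + w i‖ ≤ 1 + W i := by
      refine (norm_add_le _ _).trans ?_
      rw [norm_one]
      have := hw i hi
      linarith
    have h3 : 0 ≤ 1 / (8 * K) * W i ^ 2 := by positivity
    by_cases hiU : i ∈ U
    · rw [if_pos hiU]
      rw [hU, Finset.mem_filter] at hiU
      have := hiU.2.2
      linarith
    · rw [if_neg hiU]
      by_cases h4 : W i ≤ 16 * K
      · have h5 : ¬ 1 / 8 ≤ ‖1 + w i‖ := by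
          intro h6
          exact hiU (by rw [hU, Finset.mem_filter]; exact ⟨hi, h6, h4⟩)
        push Not at h5
        linarith
      · push Not at h4
        have h5 : 2 * W i ≤ 1 / (8 * K) * W i ^ 2 := by
          rw [div_mul_eq_mul_div, one_mul, le_div_iff₀ (by positivity)]
          nlinarith
        have h6 : 1 ≤ W i := by linarith
        linarith
  have h2 := Finset.sum_le_sum h1
  rw [Finset.sum_add_distrib, Finset.sum_add_distrib, Finset.sum_const, nsmul_eq_mul,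
    ← Finset.mul_sum, ← Finset.sum_filter, Finset.sum_const, nsmul_eq_mul] at h2
  have h3 : S.filter (fun i => i ∈ U) = U := by
    ext i
    rw [Finset.mem_filter]
    constructor
    · exact fun h => h.2
    · intro h
      refine ⟨?_, h⟩
      rw [hU, Finset.mem_filter] at h
      exact h.1
  rw [h3] at h2
  have h4 : (S.card : ℝ) / 2 ≤ ∑ i ∈ S, ‖1 + w i‖ := by
    have h5 : ((S.card : ℕ) : ℝ) ≤ ‖∑ i ∈ S, (1 + w i)‖ + ‖∑ i ∈ S, w i‖ := by
      have e1 : ((S.card : ℕ) : ℂ) = ∑ i ∈ S, (1 + w i) - ∑ i ∈ S, w i := by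
        rw [Finset.sum_add_distrib, Finset.sum_const, nsmul_eq_mul, mul_one]
        ring
      rw [← Complex.norm_natCast, e1]
      exact norm_sub_le _ _
    have h6 := norm_sum_le S fun i => 1 + w i
    linarith
  have h5 : 1 / (8 * K) * ∑ i ∈ S, W i ^ 2 ≤ (S.card : ℝ) / 8 := by
    refine (mul_le_mul_of_nonneg_left hW (by positivity)).trans (le_of_eq ?_)
    field_simp
  rw [div_le_iff₀ (by positivity)]
  linarith

/-- no zeros in a disc -/
lemma disc_ne {f : ℂ → ℂ} (hf : Differentiable ℂ f) {c : ℂ} {ρ V : ℝ} (hρ : 0 < ρ) (hV : 0 ≤ V)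
    (hb : ∀ s, ‖s - c‖ ≤ ρ → ‖f s‖ ≤ V) (h1 : 1 / 8 ≤ ‖1 + f c‖) :
    ∀ s, ‖s - c‖ ≤ ρ / (16 * (2 * V + 1)) → 1 + f s ≠ 0 := by
  intro s hs h0
  have h2 : ‖s - c‖ < ρ := by
    refine lt_of_le_of_lt hs ?_
    rw [div_lt_iff₀ (by positivity)]
    nlinarith
  have hmaps : MapsTo f (Metric.ball c ρ) (Metric.closedBall (f c) (2 * V)) := by
    intro z hz
    rw [Metric.mem_closedBall, dist_eq_norm]
    rw [Metric.mem_ball, dist_eq_norm] at hz
    have h3 := hb z hz.le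
    have h4 := hb c (by rw [sub_self, norm_zero]; exact hρ.le)
    have h5 := norm_sub_le (f z) (f c)
    linarith
  have h3 := Complex.dist_le_div_mul_dist_of_mapsTo_ball hf.differentiableOn hmaps
    (z := s) (by rw [Metric.mem_ball, dist_eq_norm]; exact h2)
  rw [dist_eq_norm, dist_eq_norm] at h3
  have h4 : 2 * V / ρ * ‖s - c‖ ≤ 1 / 16 := by
    refine (mul_le_mul_of_nonneg_left hs (by positivity)).trans ?_
    rw [div_mul_div_comm, div_le_div_iff₀ (by positivity) (by norm_num)]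
    nlinarith
  have h5 : f s - f c = -(1 + f c) := by linear_combination h0
  rw [h5, norm_neg] at h3
  linarith

section

variable {M : Type} [CommMonoidWithZero M] [NormalizationMonoid M] [UniqueFactorizationMonoid M]
  [Subsingleton Mˣ] [Nontrivial M] {N : M →*₀ ℕ} {n₀ : ℕ}

open Classical in
/-- **a positive proportion of the members have no zeros in a disc of radius `c / R`** -/
theorem nv_core (hN : NS N n₀) {e : ℝ} (he : 0 < e) {g A : ℝ} (hg : 0 < g) (hg1 : g ≤ 1 / 24)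
    (hA : 1 ≤ A) (n : ℕ) (hn : 1 ≤ n) :
    ∃ (c₂ c₃ R₀ : ℝ), 0 < c₂ ∧ 0 < c₃ ∧ 1 ≤ R₀ ∧
    ∀ (R T : ℝ) (ι : Type) (S : Finset ι) (χ : ι → M →*₀ ℂ)
      (F : ι → ℂ → ℂ), R₀ ≤ R → 1 ≤ T →
      (∀ X : ℕ, 1 ≤ X → (X : ℝ) ≤ Real.exp ((1 / 2 + 5 * g) * R) →
        LSU N S χ (1 / R) (S.card * (1 / R)) e X) →
      (∀ lam ∈ S, GLf N A T R n (χ lam) (F lam)) →
      Off N S χ ⌊Real.exp ((1 + 11 * g) * R)⌋₊ ⌊Real.exp ((2 * g) * R)⌋₊ (1 / 2) ≤
        S.card * Real.exp (-(2 * g * R)) →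
      ∀ t₀ : ℝ, |t₀| ≤ T →
      c₃ * S.card ≤ ((S.filter fun i => ∀ s : ℂ, ‖s - pt (1 / 2) t₀‖ ≤ c₂ / R → F i s ≠ 0).card :
        ℝ) := by
  obtain ⟨G, hG⟩ := hN.wgt
  obtain ⟨φ, hφ⟩ := cut_exists (a := 1 / 2 + 2 * g) (b := 1 / 2 + 3 * g) (by linarith) (by linarith)
  obtain ⟨φ₁, hφ₁⟩ := cut_exists (a := 1 + 10 * g) (b := 1 + 11 * g) (by linarith) (by linarith)
  obtain ⟨θ, hθ⟩ := cut_exists (a := g) (b := 2 * g) (by linarith) (by linarith)
  obtain ⟨κ, C₁, C₂, R₁, E, hκ, hC₁, hC₂, hR₁, hmain⟩ := mean_all hN he hG hφ hθ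
    (α' := 1 / 2 + g) (β' := g / 2) (by linarith) (by linarith) (by linarith) (by linarith)
    (by linarith) (by linarith) (by linarith) hA n hn
  obtain ⟨C₃, R₂, hC₃, hR₂, hfst⟩ := fst_mom hN he hG hg hg1 hφ hφ₁ hθ hA n hn
  obtain ⟨B, hB⟩ : ∃ B : ℕ, B = n + E + 3 := ⟨_, rfl⟩
  obtain ⟨K₁, hK₁⟩ : ∃ K₁ : ℝ, K₁ = (3 / 2) ^ (2 * B - 1) * 6 ^ B := ⟨_, rfl⟩
  have hK₁0 : 1 ≤ K₁ := by
    rw [hK₁]
    exact one_le_mul_of_one_le_of_one_le (one_le_pow₀ (by norm_num)) (one_le_pow₀ (by norm_num))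
  obtain ⟨K₂, hK₂⟩ : ∃ K₂ : ℝ, K₂ = 3 ^ B * (cB B 0 * (3 ^ E * cB B E)) *
    (C₁ * Real.exp (C₂ * κ)) * 2 ^ E := ⟨_, rfl⟩
  have cb0 := cB_nn B 0
  have cbE := cB_nn B E
  have hK₂0 : 0 ≤ K₂ := by rw [hK₂]; positivity
  obtain ⟨K, hK⟩ : ∃ K : ℝ, K = 1 + K₁ ^ 2 * K₂ := ⟨_, rfl⟩
  have hK1 : 1 ≤ K := by
    rw [hK]
    have : 0 ≤ K₁ ^ 2 * K₂ := by positivity
    linarith
  obtain ⟨R₀, hR₀⟩ : ∃ R₀ : ℝ, R₀ = R₁ + R₂ + 4 * κ + 2 / g * (2 * C₃) := ⟨_, rfl⟩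
  have hgC : 0 ≤ 2 / g * (2 * C₃) := by positivity
  refine ⟨κ / (32 * (2 * (16 * K) + 1)), 1 / (4 * (1 + 16 * K)), R₀, by positivity, by positivity,
    by rw [hR₀]; linarith, ?_⟩
  intro R T ι S χ F hR hT hls hF hoff t₀ ht₀
  have hRa : R₁ ≤ R := by rw [hR₀] at hR; linarith
  have hRb : R₂ ≤ R := by rw [hR₀] at hR; linarith
  have hRc : 4 * κ ≤ R := by rw [hR₀] at hR; linarith
  have hRd : 2 / g * (2 * C₃) ≤ R := by rw [hR₀] at hR; linarith
  have hR1 : 1 ≤ R := hR₁.trans hRa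
  have hR0 : 0 < R := by linarith
  have hT0 : 0 < T := by linarith
  have hH0 : 0 < 1 / R := by positivity
  have hH1 : 1 / R ≤ 1 / 4 := by
    refine one_div_le_one_div_of_le (by norm_num) ?_
    linarith
  set F' : ι → ℂ → ℂ := fun i => if i ∈ S then F i else fun _ => 0 with hF'
  have hFS : ∀ i ∈ S, F' i = F i := fun i hl => by simp only [hF']; rw [if_pos hl]
  have hFd : ∀ i, Differentiable ℂ (F' i) := by
    intro i
    by_cases hl : i ∈ S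
    · rw [hFS i hl]
      exact (hF i hl).diff
    · simp only [hF']
      rw [if_neg hl]
      exact differentiable_const _
  have hGL : ∀ i ∈ S, GLf N A T R n (χ i) (F' i) := fun i hi => by
    rw [hFS i hi]
    exact hF i hi
  -- the large sieve
  obtain ⟨M₁, hM₁⟩ : ∃ M₁ : ℕ, M₁ = ⌊Real.exp ((1 / 2 + 3 * g) * R)⌋₊ := ⟨_, rfl⟩
  obtain ⟨M₂, hM₂⟩ : ∃ M₂ : ℕ, M₂ = ⌊Real.exp ((2 * g) * R)⌋₊ := ⟨_, rfl⟩
  have hM1 : 1 ≤ M₁ * M₂ := by
    have h1 : 1 ≤ M₁ := by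
      rw [hM₁]
      refine Nat.le_floor ?_
      rw [Nat.cast_one]
      exact Real.one_le_exp (by positivity)
    have h2 : 1 ≤ M₂ := by
      rw [hM₂]
      refine Nat.le_floor ?_
      rw [Nat.cast_one]
      exact Real.one_le_exp (by positivity)
    exact Nat.mul_pos h1 h2
  have hMM : ((M₁ * M₂ : ℕ) : ℝ) ≤ Real.exp ((1 / 2 + 5 * g) * R) := by
    have h1 : (M₁ : ℝ) ≤ Real.exp ((1 / 2 + 3 * g) * R) := by
      rw [hM₁]; exact Nat.floor_le (Real.exp_pos _).le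
    have h2 : (M₂ : ℝ) ≤ Real.exp ((2 * g) * R) := by
      rw [hM₂]; exact Nat.floor_le (Real.exp_pos _).le
    push_cast
    refine (mul_le_mul h1 h2 (Nat.cast_nonneg _) (Real.exp_pos _).le).trans (le_of_eq ?_)
    rw [← Real.exp_add]
    congr 1
    ring
  have hls' := hls (M₁ * M₂) hM1 hMM
  rw [hM₁, hM₂] at hls'
  obtain ⟨Mo, hMo⟩ : ∃ Mo : ι → ℂ → ℂ, Mo = fun i => Mp N θ R ⌊Real.exp ((2 * g) * R)⌋₊ (χ i) :=
    ⟨_, rfl⟩
  have hMd : ∀ i, Differentiable ℂ (Mo i) := fun i => by rw [hMo]; exact dpo_diff _ _ _ _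
  obtain ⟨f, hf⟩ : ∃ f : ι → ℂ → ℂ, f = fun i s => F' i s * Mo i s - 1 := ⟨_, rfl⟩
  have hfd : ∀ i, Differentiable ℂ (f i) := fun i => by
    rw [hf]
    exact ((hFd i).mul (hMd i)).sub (differentiable_const _)
  -- the second moment
  have hκR : κ / R ≤ 1 / 4 := by
    rw [div_le_iff₀ hR0]
    linarith
  have hκR0 : 0 < κ / R := by positivity
  have hms : ∀ t : ℝ, QQ S f (1 / 2 - κ / R) (1 / R) t ≤
      ENNReal.ofReal (S.card * (1 / R) * (C₁ * Real.exp (C₂ * κ)) * (1 + |t| / T) ^ E) := by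
    intro t
    have h1 := (hmain R T (1 / R) (S.card * (1 / R)) ι S χ F' hRa hT hH0.le (by linarith) le_rfl hls'
      hFd hGL κ le_rfl (by linarith)).1 (1 / 2 - κ / R) le_rfl (by linarith) t
    rw [hf, hMo]
    exact h1
  have hgr : ∀ i ∈ S, ∃ G : ℝ, ∀ z : ℂ, 1 / 2 - κ / R ≤ z.re →
      ‖f i z‖ ≤ G * (1 + |z.im|) ^ n * Real.exp (-((g * R) * z.re)) := by
    intro i hi
    obtain ⟨G₁, hG₁⟩ := grow_f hN (β₂ := 2 * g) hθ hg hR0 hT hA (hGL i hi)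
    refine ⟨G₁, fun z hz => ?_⟩
    rw [hf, hMo]
    exact hG₁ z (by linarith)
  obtain ⟨Z, hZ0, hZ1, -, hZ2⟩ := pnt_le (I := S) (f := f) hfd (a := 1 / 2 - κ / R) (μ := 0)
    (lam := g * R) (T := T) (H := 1 / R) (Q := S.card * (1 / R) * (C₁ * Real.exp (C₂ * κ)))
    (m := n) (B := B) (E := E) hT (by positivity) (by omega) (by omega) le_rfl (by positivity)
    hgr hms (r := κ / R) hκR0 (by linarith) hH0 (div_le_div_of_nonneg_right hκ hR0.le) t₀
  have e1 : 1 / 2 - κ / R + κ / R = 1 / 2 := by ring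
  rw [e1] at hZ1
  have hΘ : (1 + |t₀| / T) ^ E ≤ 2 ^ E := by
    refine pow_le_pow_left₀ (by positivity) ?_ E
    have := (div_le_one hT0).mpr ht₀
    linarith
  have hZ3 : ∑ i ∈ S, (K₁ * Z i) ^ 2 ≤ K * S.card := by
    have h1 : ∑ i ∈ S, (K₁ * Z i) ^ 2 = K₁ ^ 2 * ∑ i ∈ S, Z i ^ 2 := by
      rw [Finset.mul_sum]
      exact Finset.sum_congr rfl fun i _ => by ring
    have h2 : ∑ i ∈ S, Z i ^ 2 ≤ K₂ * S.card := by
      refine hZ2.trans ?_
      calc 3 ^ B / (1 / R) * (cB B 0 * (3 ^ E * cB B E)) *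
            (S.card * (1 / R) * (C₁ * Real.exp (C₂ * κ))) * (1 + |t₀| / T) ^ E ≤
          3 ^ B / (1 / R) * (cB B 0 * (3 ^ E * cB B E)) *
            (S.card * (1 / R) * (C₁ * Real.exp (C₂ * κ))) * 2 ^ E := by gcongr
        _ = _ := by
            rw [hK₂]
            field_simp
    rw [h1]
    calc K₁ ^ 2 * ∑ i ∈ S, Z i ^ 2 ≤ K₁ ^ 2 * (K₂ * S.card) := by gcongr
      _ ≤ K * S.card := by
          rw [hK]
          have : (0 : ℝ) ≤ S.card := Nat.cast_nonneg _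
          nlinarith
  have hfb : ∀ i ∈ S, ∀ s : ℂ, ‖s - pt (1 / 2) t₀‖ ≤ κ / R / 2 → ‖f i s‖ ≤ K₁ * Z i := by
    intro i hi s hs
    rw [hK₁]
    exact hZ1 i hi s hs
  -- the first moment
  have hfm := hfst R T (1 / R) S.card ι S χ F' hRb hT hH0 hH1 le_rfl hls' hFd hGL hoff t₀ ht₀
  have hsmall : C₃ * Real.exp (-(g / 2 * R)) ≤ 1 / 2 := by
    have h1 : 2 * C₃ ≤ g / 2 * R := by
      have h2 := mul_le_mul_of_nonneg_left hRd (by positivity : 0 ≤ g / 2)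
      have h3 : g / 2 * (2 / g * (2 * C₃)) = 2 * C₃ := by field_simp
      linarith
    have h4 := Real.add_one_le_exp (g / 2 * R)
    rw [Real.exp_neg, ← div_eq_mul_inv, div_le_iff₀ (Real.exp_pos _)]
    linarith
  have hpp := pos_prop S (fun i => f i (pt (1 / 2) t₀)) (fun i => K₁ * Z i) hK1
    (fun i hi => hfb i hi _ (by rw [sub_self, norm_zero]; positivity)) hZ3 (by
      have h1 : ‖∑ i ∈ S, f i (pt (1 / 2) t₀)‖ ≤ S.card * (C₃ * Real.exp (-(g / 2 * R))) := by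
        rw [hf, hMo]
        exact hfm
      refine h1.trans ?_
      have : (0 : ℝ) ≤ S.card := Nat.cast_nonneg _
      nlinarith)
  have h9 : 1 / (4 * (1 + 16 * K)) * (S.card : ℝ) = (S.card : ℝ) / (4 * (1 + 16 * K)) := by ring
  rw [h9]
  refine hpp.trans ?_
  norm_cast
  refine Finset.card_le_card fun i hi => ?_
  rw [Finset.mem_filter] at hi ⊢
  obtain ⟨hi, hi1, hi2⟩ := hi
  refine ⟨hi, fun s hs h0 => ?_⟩
  have h1 := disc_ne (hfd i) (c := pt (1 / 2) t₀) (ρ := κ / R / 2) (V := 16 * K) (by positivity)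
    (by positivity) (fun s hs => (hfb i hi s hs).trans hi2) hi1 s (by
      refine hs.trans (le_of_eq ?_)
      field_simp
      norm_num)
  apply h1
  rw [hf]
  simp only
  rw [hFS i hi, h0]
  ring

end

end Pool.Agent.T9h27.C
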